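import Pool.Agent.Lib.MP_401270_nt.Spec

set_option autoImplicit false

namespace Pool.Agent.Lib.MP401270

open Polynomial Finset

namespace BadM

/-- the bound of `CNT` for one short interval and one dyadic size -/
noncomputable def TT (K Y : ℕ) (σ x : ℝ) : ℝ :=
  300 * K ^ 2 * (140 * K ^ 3 * x + 1) * (Y : ℝ) ^ (8 - σ) *
    Real.exp (8 * (140 * K ^ 3 * x + 1) ^ σ / σ)

theorem TT_nonneg (K Y : ℕ) (σ x : ℝ) (hx : 0 ≤ x) : 0 ≤ TT K Y σ x := by
  unfold TT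
  positivity

theorem TT_mono (K Y : ℕ) (σ x y : ℝ) (hσ : 0 < σ) (hx : 0 ≤ x) (hxy : x ≤ y) :
    TT K Y σ x ≤ TT K Y σ y := by
  unfold TT
  have h1 : 140 * (K : ℝ) ^ 3 * x + 1 ≤ 140 * K ^ 3 * y + 1 := by
    have : 140 * (K : ℝ) ^ 3 * x ≤ 140 * K ^ 3 * y :=
      mul_le_mul_of_nonneg_left hxy (by positivity)
    linarith
  have h2 : Real.exp (8 * (140 * K ^ 3 * x + 1) ^ σ / σ) ≤
      Real.exp (8 * (140 * K ^ 3 * y + 1) ^ σ / σ) := by
    apply Real.exp_le_exp.2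
    apply div_le_div_of_nonneg_right _ hσ.le
    apply mul_le_mul_of_nonneg_left _ (by norm_num)
    exact Real.rpow_le_rpow (by positivity) h1 hσ.le
  have h3 : 300 * (K : ℝ) ^ 2 * (140 * K ^ 3 * x + 1) * (Y : ℝ) ^ (8 - σ) ≤
      300 * (K : ℝ) ^ 2 * (140 * K ^ 3 * y + 1) * (Y : ℝ) ^ (8 - σ) := by
    apply mul_le_mul_of_nonneg_right _ (by positivity)
    exact mul_le_mul_of_nonneg_left h1 (by positivity)
  have hy : 0 ≤ y := hx.trans hxy
  exact mul_le_mul h3 h2 (Real.exp_pos _).le (by positivity)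

/-- the covering of `Small N B` by short intervals -/
theorem cover (N M0 L : ℕ) (B : ℝ) (hM0 : 1 ≤ M0) :
    Small N B ⊆ Finset.range M0 ∪
      ((Finset.range (N / (L + 1) + 1)) ×ˢ (Finset.range (Nat.log 2 ⌊B⌋₊ + 1))).biUnion
        (fun x => (Wset (M0 + x.1 * (L + 1)) L (2 ^ x.2)).image
          (fun w => M0 + x.1 * (L + 1) + w)) := by
  classical
  intro D hD
  rw [Small, Finset.mem_filter] at hD
  obtain ⟨hDN, t, s, hs, hst, hle⟩ := hD
  rw [Finset.mem_range] at hDN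
  rw [Finset.mem_union]
  by_cases hDM : D < M0
  · left; exact Finset.mem_range.2 hDM
  · right
    rw [not_lt] at hDM
    rw [Finset.mem_biUnion]
    -- `s ≤ B`
    have hsB : (s : ℝ) ≤ B := by
      have hst' : (t : ℝ) ^ 2 = D * (s : ℝ) ^ 2 + 4 := by exact_mod_cast hst
      have hs' : (1 : ℝ) ≤ s := by exact_mod_cast hs
      have hD1 : 1 ≤ D := hM0.trans hDM
      have hD1' : (1 : ℝ) ≤ D := by exact_mod_cast hD1
      have hsq : (1 : ℝ) ≤ √(D : ℝ) := Real.one_le_sqrt.2 hD1'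
      have ht : (s : ℝ) ≤ t := by
        by_contra hlt
        rw [not_le] at hlt
        have ht0 : (0 : ℝ) ≤ t := Nat.cast_nonneg _
        nlinarith
      nlinarith
    have hsf : s ≤ ⌊B⌋₊ := Nat.le_floor hsB
    have hL1 : 0 < L + 1 := Nat.succ_pos _
    refine ⟨((D - M0) / (L + 1), Nat.log 2 s), ?_, ?_⟩
    · rw [Finset.mem_product, Finset.mem_range, Finset.mem_range]
      constructor
      · exact Nat.lt_succ_of_le (Nat.div_le_div_right (by omega))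
      · exact Nat.lt_succ_of_le (Nat.log_mono_right (b := 2) hsf)
    · rw [Finset.mem_image]
      refine ⟨(D - M0) % (L + 1), ?_, ?_⟩
      · rw [Wset, Finset.mem_filter]
        refine ⟨Finset.mem_range.2 (Nat.mod_lt _ hL1), s, t, Nat.pow_log_le_self 2 (by omega), ?_, ?_⟩
        · have := Nat.lt_pow_succ_log_self (b := 2) (by norm_num) s
          rw [pow_succ] at this
          show s ≤ 2 * 2 ^ (Nat.log 2 s)
          omega
        · have h1 : M0 + (D - M0) / (L + 1) * (L + 1) + (D - M0) % (L + 1) = D := by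
            have := Nat.div_add_mod (D - M0) (L + 1)
            rw [mul_comm] at this
            omega
          show t ^ 2 = (M0 + (D - M0) / (L + 1) * (L + 1) + (D - M0) % (L + 1)) * s ^ 2 + 4
          rw [h1]
          exact hst
      · have := Nat.div_add_mod (D - M0) (L + 1)
        rw [mul_comm] at this
        show M0 + (D - M0) / (L + 1) * (L + 1) + (D - M0) % (L + 1) = D
        omega

/-- the deterministic count -/
theorem count (hcnt : SpecCNT) (N K Y : ℕ) (B σ : ℝ) (hN : 2 ≤ N) (hK : 1 ≤ K)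
    (hY : 14400 * K ^ 4 ≤ Y) (hM : (Y ^ (640 * K ^ 2)) ^ 2 ≤ N) (hB0 : 1 ≤ B)
    (hB : B ≤ ((Y : ℝ) ^ (640 * K ^ 2)) ^ K) (hσ : 0 < σ) (hσ2 : σ ≤ 1 / 2) :
    ((Small N B).card : ℝ) ≤ (Y : ℝ) ^ (640 * K ^ 2) +
      (2 * N / (Y : ℝ) ^ 8) * ((2 * Real.log B + 1) * TT K Y σ (2 * Real.log N)) := by
  classical
  have hK4 : 1 ≤ K ^ 4 := Nat.one_le_pow _ _ hK
  have hK2 : 1 ≤ K ^ 2 := Nat.one_le_pow _ _ hK
  have hYpos : 0 < Y := by omega
  set M0 := Y ^ (640 * K ^ 2) with hM0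
  have hM01 : 1 ≤ M0 := Nat.one_le_pow _ _ hYpos
  have hM0N : M0 ≤ N := (Nat.le_self_pow (by norm_num) M0).trans hM
  have hNpos : 0 < N := by omega
  have hY8 : Y ^ 8 ≤ N := by
    refine le_trans ?_ hM0N
    exact Nat.pow_le_pow_right hYpos (by omega)
  set I := Nat.log 2 ⌊B⌋₊ with hI
  have hfl : ⌊B⌋₊ ≠ 0 := by
    have : 1 ≤ ⌊B⌋₊ := Nat.le_floor (by exact_mod_cast hB0)
    omega
  have hIr : ((I : ℕ) : ℝ) ≤ 2 * Real.log B := by
    have h1 : (2 : ℝ) ^ I ≤ B := by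
      have h2 : 2 ^ I ≤ ⌊B⌋₊ := Nat.pow_log_le_self 2 hfl
      calc (2 : ℝ) ^ I = ((2 ^ I : ℕ) : ℝ) := by push_cast; rfl
        _ ≤ (⌊B⌋₊ : ℝ) := by exact_mod_cast h2
        _ ≤ B := Nat.floor_le (by linarith)
    have h3 := Real.log_le_log (by positivity) h1
    rw [Real.log_pow] at h3
    have h4 := Real.log_two_gt_d9
    have h5 : (0 : ℝ) ≤ I := Nat.cast_nonneg _
    nlinarith
  set T := TT K Y σ (2 * Real.log N) with hT
  have hlogN : 0 ≤ Real.log N := Real.log_natCast_nonneg N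
  have hT0 : 0 ≤ T := TT_nonneg _ _ _ _ (by linarith)
  have hone : ∀ x ∈ (Finset.range (N / (Y ^ 8 + 1) + 1)) ×ˢ (Finset.range (I + 1)),
      ((Wset (M0 + x.1 * (Y ^ 8 + 1)) (Y ^ 8) (2 ^ x.2)).card : ℝ) ≤ T := by
    rintro ⟨k, i⟩ hx
    rw [Finset.mem_product, Finset.mem_range, Finset.mem_range] at hx
    obtain ⟨hk, hi⟩ := hx
    simp only at hk hi ⊢
    have hD0M : M0 ≤ M0 + k * (Y ^ 8 + 1) := Nat.le_add_right _ _
    have hkN : k * (Y ^ 8 + 1) ≤ N := by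
      have : k ≤ N / (Y ^ 8 + 1) := Nat.lt_succ_iff.1 hk
      exact (Nat.mul_le_mul_right _ this).trans (Nat.div_mul_le_self _ _)
    have hD0N : M0 + k * (Y ^ 8 + 1) ≤ N ^ 2 := by
      nlinarith
    have hlog : Real.log ((M0 + k * (Y ^ 8 + 1) : ℕ) : ℝ) ≤ 2 * Real.log N := by
      have h1 : ((M0 + k * (Y ^ 8 + 1) : ℕ) : ℝ) ≤ (N : ℝ) ^ 2 := by exact_mod_cast hD0N
      have h2 := Real.log_le_log (by exact_mod_cast (by omega : 0 < M0 + k * (Y ^ 8 + 1))) h1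
      rw [Real.log_pow] at h2
      exact_mod_cast h2
    have hS : (2 : ℕ) ^ i ≤ (M0 + k * (Y ^ 8 + 1)) ^ K := by
      have h1 : 2 ^ i ≤ ⌊B⌋₊ :=
        (Nat.pow_le_pow_right (by norm_num) (Nat.lt_succ_iff.1 hi)).trans
          (Nat.pow_log_le_self 2 hfl)
      have h2 : ⌊B⌋₊ ≤ M0 ^ K := by
        apply Nat.floor_le_of_le
        rw [hM0]
        push_cast
        exact hB
      exact h1.trans (h2.trans (Nat.pow_le_pow_left hD0M K))
    have := hcnt K Y (M0 + k * (Y ^ 8 + 1)) (2 ^ i) σ hK hY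
      (by rw [← pow_mul, show 8 * (80 * K ^ 2) = 640 * K ^ 2 by ring]; exact hD0M)
      (Nat.one_le_pow _ _ (by norm_num)) hS hσ hσ2
    refine this.trans ?_
    exact TT_mono K Y σ _ _ hσ (Real.log_natCast_nonneg _) hlog
  have hcard := (Finset.card_le_card (cover N M0 (Y ^ 8) B hM01)).trans
    (Finset.card_union_le _ _)
  rw [Finset.card_range] at hcard
  have hbi : (((Finset.range (N / (Y ^ 8 + 1) + 1)) ×ˢ (Finset.range (I + 1))).biUnion
        (fun x => (Wset (M0 + x.1 * (Y ^ 8 + 1)) (Y ^ 8) (2 ^ x.2)).image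
          (fun w => M0 + x.1 * (Y ^ 8 + 1) + w))).card ≤
      ∑ x ∈ (Finset.range (N / (Y ^ 8 + 1) + 1)) ×ˢ (Finset.range (I + 1)),
        (Wset (M0 + x.1 * (Y ^ 8 + 1)) (Y ^ 8) (2 ^ x.2)).card :=
    Finset.card_biUnion_le.trans (Finset.sum_le_sum fun x _ => Finset.card_image_le)
  have hbir : ((∑ x ∈ (Finset.range (N / (Y ^ 8 + 1) + 1)) ×ˢ (Finset.range (I + 1)),
        (Wset (M0 + x.1 * (Y ^ 8 + 1)) (Y ^ 8) (2 ^ x.2)).card : ℕ) : ℝ) ≤
      ((N / (Y ^ 8 + 1) : ℕ) + 1 : ℝ) * ((I : ℝ) + 1) * T := by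
    rw [Nat.cast_sum]
    refine (Finset.sum_le_card_nsmul _ _ T hone).trans (le_of_eq ?_)
    rw [Finset.card_product, Finset.card_range, Finset.card_range, nsmul_eq_mul]
    push_cast
    ring
  have hdiv : ((N / (Y ^ 8 + 1) : ℕ) + 1 : ℝ) ≤ 2 * N / (Y : ℝ) ^ 8 := by
    have hY8r : (0 : ℝ) < (Y : ℝ) ^ 8 := by positivity
    rw [le_div_iff₀ hY8r]
    have h1 : N / (Y ^ 8 + 1) * Y ^ 8 ≤ N :=
      (Nat.mul_le_mul_left _ (Nat.le_succ _)).trans (Nat.div_mul_le_self _ _)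
    have h2 : ((N / (Y ^ 8 + 1) : ℕ) : ℝ) * (Y : ℝ) ^ 8 ≤ N := by exact_mod_cast h1
    have h3 : (Y : ℝ) ^ 8 ≤ N := by exact_mod_cast hY8
    linarith
  have hall : ((Small N B).card : ℝ) ≤ (M0 : ℝ) +
      ((N / (Y ^ 8 + 1) : ℕ) + 1 : ℝ) * ((I : ℝ) + 1) * T := by
    have h1 : ((Small N B).card : ℝ) ≤ ((M0 + ∑ x ∈ (Finset.range (N / (Y ^ 8 + 1) + 1)) ×ˢ
        (Finset.range (I + 1)),
        (Wset (M0 + x.1 * (Y ^ 8 + 1)) (Y ^ 8) (2 ^ x.2)).card : ℕ) : ℝ) := by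
      exact_mod_cast hcard.trans (Nat.add_le_add_left hbi _)
    push_cast at h1 hbir
    linarith
  have hM0r : (M0 : ℝ) = (Y : ℝ) ^ (640 * K ^ 2) := by rw [hM0]; push_cast; rfl
  rw [hM0r] at hall
  refine hall.trans ?_
  have hlogB : 0 ≤ Real.log B := Real.log_nonneg hB0
  have h4 : ((N / (Y ^ 8 + 1) : ℕ) + 1 : ℝ) * ((I : ℝ) + 1) * T ≤
      (2 * N / (Y : ℝ) ^ 8) * ((2 * Real.log B + 1) * T) := by
    rw [mul_assoc]
    apply mul_le_mul hdiv _ (by positivity) (by positivity)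
    apply mul_le_mul_of_nonneg_right _ hT0
    linarith
  linarith

open Filter in
theorem evt (c a b : ℝ) (h : a < b) : ∀ᶠ x : ℝ in atTop, c * x ^ a ≤ x ^ b := by
  have h1 := (tendsto_rpow_atTop (sub_pos.2 h)).eventually_ge_atTop c
  filter_upwards [h1, eventually_gt_atTop (0 : ℝ)] with x hx hx0
  calc c * x ^ a ≤ x ^ (b - a) * x ^ a :=
        mul_le_mul_of_nonneg_right hx (Real.rpow_nonneg hx0.le _)
    _ = x ^ b := by rw [← Real.rpow_add hx0]; congr 1; ring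

open Filter in
theorem evlog (c b : ℝ) (hc : 0 < c) (hb : 0 < b) :
    ∀ᶠ x : ℝ in atTop, c * Real.log x ≤ x ^ b := by
  have h1 := (isLittleO_log_rpow_atTop hb).bound (show 0 < 1 / c by positivity)
  filter_upwards [h1, eventually_gt_atTop (1 : ℝ)] with x hx hx0
  rw [Real.norm_of_nonneg (Real.log_nonneg hx0.le),
    Real.norm_of_nonneg (Real.rpow_nonneg (by linarith) _)] at hx
  calc c * Real.log x ≤ c * (1 / c * x ^ b) := mul_le_mul_of_nonneg_left hx hc.le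
    _ = x ^ b := by field_simp

theorem powK (K : ℕ) (x ε : ℝ) (hx : 1 ≤ x) (hε : 0 < ε) (hK : (K : ℝ) ≤ 4 * x ^ (1 / 2 - ε)) :
    (K : ℝ) ^ 2 ≤ 16 * x ∧ (K : ℝ) ^ 3 ≤ 64 * x ^ (3 / 2 : ℝ) := by
  have hx0 : 0 < x := by linarith
  have h1 : (K : ℝ) ≤ 4 * x ^ (1 / 2 : ℝ) := by
    refine hK.trans ?_
    apply mul_le_mul_of_nonneg_left _ (by norm_num)
    exact Real.rpow_le_rpow_of_exponent_le hx (by linarith)
  have h0 : (0 : ℝ) ≤ K := Nat.cast_nonneg _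
  constructor
  · have h2 : x = (x ^ (1 / 2 : ℝ)) ^ 2 := by
      rw [← Real.rpow_natCast, ← Real.rpow_mul hx0.le]; norm_num
    calc (K : ℝ) ^ 2 ≤ (4 * x ^ (1 / 2 : ℝ)) ^ 2 := pow_le_pow_left₀ h0 h1 2
      _ = 16 * (x ^ (1 / 2 : ℝ)) ^ 2 := by ring
      _ = 16 * x := by rw [← h2]
  · have h2 : x ^ (3 / 2 : ℝ) = (x ^ (1 / 2 : ℝ)) ^ 3 := by
      rw [← Real.rpow_natCast, ← Real.rpow_mul hx0.le]; norm_num
    calc (K : ℝ) ^ 3 ≤ (4 * x ^ (1 / 2 : ℝ)) ^ 3 := pow_le_pow_left₀ h0 h1 3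
      _ = 64 * (x ^ (1 / 2 : ℝ)) ^ 3 := by ring
      _ = 64 * x ^ (3 / 2 : ℝ) := by rw [← h2]

/-- the bracket of the main term -/
theorem bracket (x ε u : ℝ) (K Y : ℕ) (h0 : 0 < ε) (hx4 : 4 ≤ x)
    (f3 : 17921 * x ^ (5 / 2 : ℝ) ≤ x ^ (3 : ℝ))
    (hK : (K : ℝ) ≤ 4 * x ^ (1 / 2 - ε)) (hYge1 : Real.exp (u - 1) ≤ Y)
    (hmain : 22 + 6 * Real.log x + 16 / ε * x ^ (3 * ε / 2) + x ^ ε + ε / 2 ≤ ε / 2 * u) :
    2 * (2 * x ^ (3 / 2 - ε) + 1) * (300 * (K : ℝ) ^ 2) * (140 * K ^ 3 * (2 * x) + 1) *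
      ((Y : ℝ) ^ (-(ε / 2)) * Real.exp (8 * (140 * K ^ 3 * (2 * x) + 1) ^ (ε / 2) / (ε / 2))) ≤
      Real.exp (-x ^ ε) / 2 := by
  have hx0 : 0 < x := by linarith
  have hx1 : 1 ≤ x := by linarith
  obtain ⟨hK2, hK3⟩ := powK K x ε hx1 h0 hK
  set W : ℝ := 140 * (K : ℝ) ^ 3 * (2 * x) + 1 with hW
  have hW0 : 0 < W := by rw [hW]; positivity
  have hWx : W ≤ x ^ 3 := by
    have h2 : x ^ (3 / 2 : ℝ) * x = x ^ (5 / 2 : ℝ) := by
      rw [← Real.rpow_add_one hx0.ne']; norm_num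
    have h3 : 1 ≤ x ^ (5 / 2 : ℝ) := Real.one_le_rpow hx1 (by norm_num)
    have h4 : (K : ℝ) ^ 3 * x ≤ 64 * x ^ (3 / 2 : ℝ) * x := mul_le_mul_of_nonneg_right hK3 hx0.le
    have h5 : x ^ (3 : ℝ) = x ^ 3 := by norm_cast
    rw [h5] at f3
    rw [hW]
    nlinarith
  have hA1 : 2 * (2 * x ^ (3 / 2 - ε) + 1) ≤ 6 * x ^ 2 := by
    have h2 : x ^ (3 / 2 - ε) ≤ x ^ 2 := by
      rw [← Real.rpow_natCast x 2]
      exact Real.rpow_le_rpow_of_exponent_le hx1 (by push_cast; linarith)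
    have h3 : 1 ≤ x ^ 2 := one_le_pow₀ hx1
    linarith
  have hA2 : 300 * (K : ℝ) ^ 2 ≤ 4800 * x := by linarith
  have hpre : 2 * (2 * x ^ (3 / 2 - ε) + 1) * (300 * (K : ℝ) ^ 2) * W ≤ 28800 * x ^ 6 := by
    have h2 : 2 * (2 * x ^ (3 / 2 - ε) + 1) * (300 * (K : ℝ) ^ 2) ≤ 6 * x ^ 2 * (4800 * x) :=
      mul_le_mul hA1 hA2 (by positivity) (by positivity)
    have h3 : 2 * (2 * x ^ (3 / 2 - ε) + 1) * (300 * (K : ℝ) ^ 2) * W ≤
        6 * x ^ 2 * (4800 * x) * x ^ 3 :=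
      mul_le_mul h2 hWx hW0.le (by positivity)
    refine h3.trans (le_of_eq ?_)
    ring
  have hexp11 : (28800 : ℝ) ≤ Real.exp 11 := by
    have h2 : (2.7 : ℝ) ≤ Real.exp 1 := by linarith [Real.exp_one_gt_d9]
    calc (28800 : ℝ) ≤ 2.7 ^ 11 := by norm_num
      _ ≤ Real.exp 1 ^ 11 := pow_le_pow_left₀ (by norm_num) h2 11
      _ = Real.exp 11 := by rw [← Real.exp_nat_mul]; norm_num
  have hpre2 : 28800 * x ^ 6 ≤ Real.exp (11 + 6 * Real.log x) := by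
    have h2 : Real.exp (6 * Real.log x) = x ^ 6 := by
      rw [mul_comm, Real.exp_mul, Real.exp_log hx0]; norm_cast
    rw [Real.exp_add, h2]
    exact mul_le_mul_of_nonneg_right hexp11 (by positivity)
  have hYs : (Y : ℝ) ^ (-(ε / 2)) ≤ Real.exp (-((u - 1) * (ε / 2))) := by
    rw [show -((u - 1) * (ε / 2)) = (u - 1) * (-(ε / 2)) by ring, Real.exp_mul]
    exact Real.rpow_le_rpow_of_nonpos (Real.exp_pos _) hYge1 (by linarith)
  have hWs : Real.exp (8 * W ^ (ε / 2) / (ε / 2)) ≤ Real.exp (16 / ε * x ^ (3 * ε / 2)) := by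
    apply Real.exp_le_exp.2
    have h2 : W ^ (ε / 2) ≤ x ^ (3 * ε / 2) := by
      calc W ^ (ε / 2) ≤ (x ^ 3) ^ (ε / 2) := Real.rpow_le_rpow hW0.le hWx (by positivity)
        _ = x ^ (3 * ε / 2) := by
            rw [← Real.rpow_natCast x 3, ← Real.rpow_mul hx0.le]
            congr 1
            push_cast
            ring
    have h3 : 8 * W ^ (ε / 2) / (ε / 2) = 16 / ε * W ^ (ε / 2) := by
      field_simp
      ring
    rw [h3]
    exact mul_le_mul_of_nonneg_left h2 (by positivity)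
  calc 2 * (2 * x ^ (3 / 2 - ε) + 1) * (300 * (K : ℝ) ^ 2) * W *
      ((Y : ℝ) ^ (-(ε / 2)) * Real.exp (8 * W ^ (ε / 2) / (ε / 2)))
      ≤ Real.exp (11 + 6 * Real.log x) *
        (Real.exp (-((u - 1) * (ε / 2))) * Real.exp (16 / ε * x ^ (3 * ε / 2))) := by
        apply mul_le_mul (hpre.trans hpre2) _ (by positivity) (by positivity)
        exact mul_le_mul hYs hWs (by positivity) (by positivity)
    _ = Real.exp (11 + 6 * Real.log x + (-((u - 1) * (ε / 2)) + 16 / ε * x ^ (3 * ε / 2))) := by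
        rw [← Real.exp_add, ← Real.exp_add]
    _ ≤ Real.exp (-x ^ ε - 1) := by
        apply Real.exp_le_exp.2
        linarith
    _ ≤ Real.exp (-x ^ ε) / 2 := by
        rw [Real.exp_sub]
        apply div_le_div_of_nonneg_left (Real.exp_pos _).le (by norm_num)
        linarith [Real.exp_one_gt_d9]

/-- the final inequality -/
theorem fin (x ε u : ℝ) (K Y : ℕ) (h0 : 0 < ε) (hx4 : 4 ≤ x) (f2 : 4 * x ^ ε ≤ x ^ (1 : ℝ))
    (f3 : 17921 * x ^ (5 / 2 : ℝ) ≤ x ^ (3 : ℝ))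
    (hK : (K : ℝ) ≤ 4 * x ^ (1 / 2 - ε)) (hYge1 : Real.exp (u - 1) ≤ Y)
    (hM : (Y : ℝ) ^ (640 * K ^ 2) ≤ Real.exp (x / 2))
    (hmain : 22 + 6 * Real.log x + 16 / ε * x ^ (3 * ε / 2) + x ^ ε + ε / 2 ≤ ε / 2 * u) :
    (Y : ℝ) ^ (640 * K ^ 2) + (2 * Real.exp x / (Y : ℝ) ^ 8) *
      ((2 * x ^ (3 / 2 - ε) + 1) * TT K Y (ε / 2) (2 * x)) ≤ Real.exp x * Real.exp (-x ^ ε) := by
  have hbr := bracket x ε u K Y h0 hx4 f3 hK hYge1 hmain
  have hY0 : (0 : ℝ) < Y := lt_of_lt_of_le (Real.exp_pos _) hYge1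
  have hA : (Y : ℝ) ^ (640 * K ^ 2) ≤ Real.exp x * (Real.exp (-x ^ ε) / 2) := by
    refine hM.trans ?_
    rw [Real.rpow_one] at f2
    have h2 : Real.exp (x / 2) * 2 ≤ Real.exp (x / 2 + 1) := by
      rw [Real.exp_add]
      apply mul_le_mul_of_nonneg_left _ (Real.exp_pos _).le
      linarith [Real.exp_one_gt_d9]
    have h3 : Real.exp (x / 2 + 1) ≤ Real.exp (x + -x ^ ε) := by
      apply Real.exp_le_exp.2
      linarith
    rw [Real.exp_add x] at h3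
    linarith
  have hB : (2 * Real.exp x / (Y : ℝ) ^ 8) *
      ((2 * x ^ (3 / 2 - ε) + 1) * TT K Y (ε / 2) (2 * x)) =
      Real.exp x * (2 * (2 * x ^ (3 / 2 - ε) + 1) * (300 * (K : ℝ) ^ 2) *
        (140 * K ^ 3 * (2 * x) + 1) *
      ((Y : ℝ) ^ (-(ε / 2)) *
        Real.exp (8 * (140 * K ^ 3 * (2 * x) + 1) ^ (ε / 2) / (ε / 2)))) := by
    unfold TT
    have h2 : (Y : ℝ) ^ (8 - ε / 2) = (Y : ℝ) ^ 8 * (Y : ℝ) ^ (-(ε / 2)) := by
      rw [← Real.rpow_natCast (Y : ℝ) 8, ← Real.rpow_add hY0]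
      congr 1
    rw [h2]
    field_simp
  rw [hB]
  have := mul_le_mul_of_nonneg_left hbr (Real.exp_pos x).le
  linarith

open Filter in
theorem asym (ε : ℝ) (h0 : 0 < ε) (h1 : ε < 1 / 2) : ∀ᶠ x : ℝ in atTop, ∃ K Y : ℕ, 1 ≤ K ∧
    14400 * K ^ 4 ≤ Y ∧ (Y : ℝ) ^ (640 * K ^ 2) ≤ Real.exp (x / 2) ∧
    Real.exp (x ^ (3 / 2 - ε)) ≤ ((Y : ℝ) ^ (640 * K ^ 2)) ^ K ∧
    (Y : ℝ) ^ (640 * K ^ 2) + (2 * Real.exp x / (Y : ℝ) ^ 8) *
      ((2 * x ^ (3 / 2 - ε) + 1) * TT K Y (ε / 2) (2 * x)) ≤ Real.exp x * Real.exp (-x ^ ε) := by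
  have hc0 : 0 < ε / 163840 := by positivity
  filter_upwards [evt 81920 (3 / 2 - 3 * ε) (3 / 2 - ε) (by linarith), evt 4 ε 1 (by linarith),
    evt 17921 (5 / 2) 3 (by norm_num), evt (23 / (ε / 163840)) 0 (2 * ε) (by linarith),
    evlog (6 / (ε / 163840)) (2 * ε) (by positivity) (by linarith),
    evt (16 / ε / (ε / 163840)) (3 * ε / 2) (2 * ε) (by linarith),
    evt (1 / (ε / 163840)) ε (2 * ε) (by linarith), eventually_ge_atTop (4 : ℝ)]
    with x f1 f2 f3 f4 f5 f6 f7 hx4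
  have hx0 : 0 < x := by linarith
  have hx1 : 1 ≤ x := by linarith
  set a : ℝ := 1 / 2 - ε with ha
  have ha0 : 0 < a := by rw [ha]; linarith
  have hxa : 1 ≤ x ^ a := Real.one_le_rpow hx1 ha0.le
  set K : ℕ := ⌈3 * x ^ a⌉₊ with hK
  have hK1 : 3 * x ^ a ≤ K := Nat.le_ceil _
  have hK2 : (K : ℝ) ≤ 4 * x ^ a := by
    have := Nat.ceil_lt_add_one (show 0 ≤ 3 * x ^ a by positivity)
    linarith
  have hKr : (1 : ℝ) ≤ K := by linarith
  have hKn : 1 ≤ K := by exact_mod_cast hKr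
  have hKpos : (0 : ℝ) < K := by linarith
  set u : ℝ := x / (1280 * (K : ℝ) ^ 2) with hu
  -- lower bound for u
  have hKsq : (K : ℝ) ^ 2 ≤ 16 * x ^ (2 * a) := by
    have h2 : x ^ (2 * a) = (x ^ a) ^ 2 := by
      rw [mul_comm, Real.rpow_mul hx0.le, Real.rpow_two]
    rw [h2]
    have := pow_le_pow_left₀ hKpos.le hK2 2
    linarith [this, (by ring : (4 * x ^ a) ^ 2 = 16 * (x ^ a) ^ 2)]
  have hux : x ^ (2 * ε) / 20480 ≤ u := by
    rw [hu, div_le_div_iff₀ (by norm_num) (by positivity)]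
    have h2 : x ^ (2 * ε) * x ^ (2 * a) = x := by
      rw [← Real.rpow_add hx0, show 2 * ε + 2 * a = 1 by rw [ha]; ring, Real.rpow_one]
    have h3 : x ^ (2 * ε) * (1280 * (K : ℝ) ^ 2) ≤ x ^ (2 * ε) * (1280 * (16 * x ^ (2 * a))) := by
      apply mul_le_mul_of_nonneg_left _ (by positivity)
      linarith
    calc x ^ (2 * ε) * (1280 * (K : ℝ) ^ 2) ≤ x ^ (2 * ε) * (1280 * (16 * x ^ (2 * a))) := h3
      _ = 20480 * (x ^ (2 * ε) * x ^ (2 * a)) := by ring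
      _ = x * 20480 := by rw [h2]; ring
  -- the pieces
  set z : ℝ := x ^ (2 * ε) with hz
  have hz0 : 0 < z := Real.rpow_pos_of_pos hx0 _
  have g4 : 23 ≤ ε / 163840 * z := by
    rw [Real.rpow_zero, mul_one, div_le_iff₀ hc0] at f4
    linarith
  have g5 : 6 * Real.log x ≤ ε / 163840 * z := by
    have : 6 / (ε / 163840) * Real.log x = (6 * Real.log x) / (ε / 163840) := by ring
    rw [this, div_le_iff₀ hc0] at f5
    linarith
  have g6 : 16 / ε * x ^ (3 * ε / 2) ≤ ε / 163840 * z := by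
    have : 16 / ε / (ε / 163840) * x ^ (3 * ε / 2) =
      (16 / ε * x ^ (3 * ε / 2)) / (ε / 163840) := by ring
    rw [this, div_le_iff₀ hc0] at f6
    linarith
  have g7 : x ^ ε ≤ ε / 163840 * z := by
    have : 1 / (ε / 163840) * x ^ ε = (x ^ ε) / (ε / 163840) := by ring
    rw [this, div_le_iff₀ hc0] at f7
    linarith
  have hlogx : 0 ≤ Real.log x := Real.log_nonneg hx1
  -- `u` is large
  have hu20 : 20 + 2 * Real.log x ≤ u := by
    have : ε / 163840 * z ≤ z / 163840 := by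
      have : ε * z ≤ 1 * z := mul_le_mul_of_nonneg_right (by linarith) hz0.le
      linarith
    linarith
  have hexpu : Real.exp 20 * x ^ 2 ≤ Real.exp u := by
    calc Real.exp 20 * x ^ 2 = Real.exp (20 + 2 * Real.log x) := by
          rw [Real.exp_add, mul_comm 2 (Real.log x), Real.exp_mul, Real.exp_log hx0,
            Real.rpow_two]
      _ ≤ Real.exp u := Real.exp_le_exp.2 hu20
  have he20 : (100000000 : ℝ) ≤ Real.exp 20 := by
    have h2 : (2.7 : ℝ) ≤ Real.exp 1 := by linarith [Real.exp_one_gt_d9]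
    calc (100000000 : ℝ) ≤ 2.7 ^ 20 := by norm_num
      _ ≤ Real.exp 1 ^ 20 := pow_le_pow_left₀ (by norm_num) h2 20
      _ = Real.exp 20 := by rw [← Real.exp_nat_mul]; norm_num
  have hexpu' : 100000000 * x ^ 2 ≤ Real.exp u := by
    refine le_trans ?_ hexpu
    exact mul_le_mul_of_nonneg_right he20 (by positivity)
  set Y : ℕ := ⌊Real.exp u⌋₊ with hY
  have hYle : (Y : ℝ) ≤ Real.exp u := Nat.floor_le (Real.exp_pos _).le
  have hYge : Real.exp u / 2 ≤ Y := by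
    have h2 : Real.exp u < Y + 1 := Nat.lt_floor_add_one _
    have : 2 ≤ Real.exp u := by nlinarith
    linarith
  have hYge1 : Real.exp (u - 1) ≤ Y := by
    refine le_trans ?_ hYge
    rw [Real.exp_sub]
    apply div_le_div_of_nonneg_left (Real.exp_pos _).le (by norm_num)
    linarith [Real.exp_one_gt_d9]
  have hY0 : (0 : ℝ) < Y := lt_of_lt_of_le (Real.exp_pos _) hYge1
  refine ⟨K, Y, hKn, ?_, ?_, ?_, ?_⟩
  · -- 14400 K^4 ≤ Y
    have h2 : (K : ℝ) ^ 4 ≤ 256 * x ^ 2 := by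
      have h3 : (K : ℝ) ^ 2 ≤ 16 * x := by
        refine hKsq.trans ?_
        have : x ^ (2 * a) ≤ x ^ (1 : ℝ) :=
          Real.rpow_le_rpow_of_exponent_le hx1 (by rw [ha]; linarith)
        rw [Real.rpow_one] at this
        linarith
      nlinarith
    have h3 : (14400 : ℝ) * K ^ 4 ≤ Y := by nlinarith
    exact_mod_cast h3
  · -- M0 ≤ exp (x/2)
    calc (Y : ℝ) ^ (640 * K ^ 2) ≤ Real.exp u ^ (640 * K ^ 2) :=
          pow_le_pow_left₀ hY0.le hYle _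
      _ = Real.exp (x / 2) := by
          rw [← Real.exp_nat_mul]
          congr 1
          push_cast
          rw [hu]
          field_simp
          ring
  · -- B ≤ M0^K
    have h2 : Real.exp (u - 1) ^ (640 * K ^ 2 * K) ≤ ((Y : ℝ) ^ (640 * K ^ 2)) ^ K := by
      rw [← pow_mul]
      exact pow_le_pow_left₀ (Real.exp_pos _).le hYge1 _
    refine le_trans ?_ h2
    rw [← Real.exp_nat_mul]
    apply Real.exp_le_exp.2
    push_cast
    have h3 : 640 * (K : ℝ) ^ 2 * K * (u - 1) = K * x / 2 - 640 * (K : ℝ) ^ 3 := by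
      rw [hu]
      field_simp
      ring
    rw [h3]
    have h4 : x ^ (3 / 2 - ε) = x ^ a * x := by
      rw [show 3 / 2 - ε = a + 1 by rw [ha]; ring, Real.rpow_add hx0, Real.rpow_one]
    have h5 : 3 * (x ^ a * x) ≤ K * x := by
      have := mul_le_mul_of_nonneg_right hK1 hx0.le
      linarith
    have h6 : (K : ℝ) ^ 3 ≤ 64 * x ^ (3 / 2 - 3 * ε) := by
      have h7 : x ^ (3 / 2 - 3 * ε) = (x ^ a) ^ 3 := by
        rw [show 3 / 2 - 3 * ε = a * 3 by rw [ha]; ring, Real.rpow_mul hx0.le]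
        norm_cast
      rw [h7]
      have := pow_le_pow_left₀ hKpos.le hK2 3
      linarith [this, (by ring : (4 * x ^ a) ^ 3 = 64 * (x ^ a) ^ 3)]
    rw [h4] at f1 ⊢
    linarith
  · -- the final inequality
    apply fin x ε u K Y h0 hx4 f2 f3 hK2 hYge1
    · calc (Y : ℝ) ^ (640 * K ^ 2) ≤ Real.exp u ^ (640 * K ^ 2) :=
          pow_le_pow_left₀ hY0.le hYle _
        _ = Real.exp (x / 2) := by
          rw [← Real.exp_nat_mul]
          congr 1
          push_cast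
          rw [hu]
          field_simp
          ring
    · have h2 : ε / 2 * (z / 20480) ≤ ε / 2 * u := mul_le_mul_of_nonneg_left hux (by positivity)
      have h3 : ε / 2 * (z / 20480) = 4 * (ε / 163840 * z) := by ring
      linarith

end BadM

open BadM Filter in
theorem specBAD (hcnt : SpecCNT) : SpecBAD := by
  intro ε h0 h1
  have hlog : Tendsto (fun N : ℕ => Real.log (N : ℝ)) atTop atTop :=
    Real.tendsto_log_atTop.comp tendsto_natCast_atTop_atTop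
  have hev := (hlog.eventually (asym ε h0 h1)).and (eventually_ge_atTop 2)
  obtain ⟨N₀, hN₀⟩ := eventually_atTop.1 hev
  refine ⟨N₀, fun N hN => ?_⟩
  obtain ⟨⟨K, Y, hK, hY, hM, hB, hfin⟩, hN2⟩ := hN₀ N hN
  have hNpos : (0 : ℝ) < N := by
    have : 0 < N := by omega
    exact_mod_cast this
  have hexp : Real.exp (Real.log (N : ℝ)) = N := Real.exp_log hNpos
  rw [hexp] at hfin
  have hM2 : (Y ^ (640 * K ^ 2)) ^ 2 ≤ N := by
    have h2 : (((Y : ℝ) ^ (640 * K ^ 2)) ^ 2) ≤ (Real.exp (Real.log (N : ℝ) / 2)) ^ 2 :=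
      pow_le_pow_left₀ (by positivity) hM 2
    rw [← Real.exp_nat_mul] at h2
    have h3 : ((2 : ℕ) : ℝ) * (Real.log (N : ℝ) / 2) = Real.log N := by push_cast; ring
    rw [h3, hexp] at h2
    exact_mod_cast h2
  have hlogN : 0 ≤ Real.log (N : ℝ) := Real.log_natCast_nonneg N
  have hc := count hcnt N K Y (Real.exp (Real.log (N : ℝ) ^ (3 / 2 - ε))) (ε / 2) hN2 hK hY hM2
    (Real.one_le_exp (Real.rpow_nonneg hlogN _)) hB (by positivity) (by linarith)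
  rw [Real.log_exp] at hc
  exact hc.trans hfin

end Pool.Agent.Lib.MP401270
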