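import Pool.Agent.Lib.MP_401270_nt.Spec

/-! # Module CART: few integers where an integral polynomial is small -/

set_option autoImplicit false

namespace Pool.Agent.Lib.MP401270

open Polynomial Finset

namespace CartM

/-- Number of integers in a real interval of length `2 r`. -/
lemma card_near (x : ℝ) (B : ℕ) (V : Finset ℤ) (h : ∀ v ∈ V, |(v : ℝ) - x| ≤ 4 * B) :
    V.card ≤ 8 * B + 1 := by
  have hsub : V ⊆ Finset.Icc ⌈x - 4 * B⌉ ⌊x + 4 * B⌋ := by
    intro v hv
    have := abs_le.1 (h v hv)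
    rw [Finset.mem_Icc]
    constructor
    · rw [Int.ceil_le]
      linarith [this.1]
    · rw [Int.le_floor]
      linarith [this.2]
  refine (Finset.card_le_card hsub).trans ?_
  rw [Int.card_Icc]
  have h1 : (⌊x + 4 * B⌋ : ℝ) ≤ x + 4 * B := Int.floor_le _
  have h2 : x - 4 * B ≤ (⌈x - 4 * B⌉ : ℝ) := Int.le_ceil _
  have h3 : (⌊x + 4 * B⌋ : ℝ) + 1 - ⌈x - 4 * B⌉ ≤ ((8 * B + 1 : ℕ) : ℝ) := by
    push_cast
    linarith
  have h4 : ⌊x + 4 * B⌋ + 1 - ⌈x - 4 * B⌉ ≤ ((8 * B + 1 : ℕ) : ℤ) := by
    exact_mod_cast h3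
  omega

end CartM

open CartM in
theorem specCART : SpecCART := by
  classical
  intro F B V hd hB hV
  set f : ℂ[X] := F.map (Int.castRingHom ℂ) with hf
  have hF0 : F ≠ 0 := by
    rintro rfl
    simp at hd
  have hdeg : f.natDegree = F.natDegree :=
    Polynomial.natDegree_map_eq_of_injective (RingHom.injective_int _) F
  have hlead : 1 ≤ ‖f.leadingCoeff‖ := by
    have h1 : f.leadingCoeff = ((F.leadingCoeff : ℤ) : ℂ) := by
      rw [hf, Polynomial.leadingCoeff_map_of_injective (RingHom.injective_int _)]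
      rfl
    rw [h1, Complex.norm_intCast]
    have h2 : F.leadingCoeff ≠ 0 := Polynomial.leadingCoeff_ne_zero.2 hF0
    exact_mod_cast Int.one_le_abs h2
  have hsp : f.Splits := IsAlgClosed.splits f
  have hcard : f.roots.card = F.natDegree := by
    rw [← hdeg]
    exact hsp.natDegree_eq_card_roots.symm
  -- every point of V is near a root
  have hnear : ∀ v ∈ V, ∃ ρ ∈ f.roots, ‖(v : ℂ) - ρ‖ ≤ 4 * B := by
    intro v hv
    by_contra hcon
    push Not at hcon
    have h1 : f.eval (v : ℂ) = ((F.eval v : ℤ) : ℂ) := by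
      rw [hf, Polynomial.eval_intCast_map]
      simp
    have h2 : ‖f.eval (v : ℂ)‖ ≤ 4 * (B : ℝ) ^ F.natDegree := by
      rw [h1, Complex.norm_intCast]
      exact_mod_cast hV v hv
    have h3 : f.eval (v : ℂ) = f.leadingCoeff * (f.roots.map (fun a => (v : ℂ) - a)).prod := by
      conv_lhs => rw [hsp.eq_prod_roots]
      rw [Polynomial.eval_mul, Polynomial.eval_C, Polynomial.eval_multiset_prod, Multiset.map_map]
      simp
    have h4 : ((4 * B : ℝ)) ^ F.natDegree < ‖(f.roots.map (fun a => (v : ℂ) - a)).prod‖ := by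
      have key : ∀ s : Multiset ℂ, s ≠ 0 → (∀ ρ ∈ s, (4 * B : ℝ) < ‖(v : ℂ) - ρ‖) →
          ((4 * B : ℝ)) ^ s.card < ‖(s.map (fun a => (v : ℂ) - a)).prod‖ := by
        intro s
        induction s using Multiset.induction_on with
        | empty => intro h; exact absurd rfl h
        | cons a s ih =>
          intro _ h
          have ha := h a (Multiset.mem_cons_self a s)
          by_cases hs : s = 0
          · subst hs
            simpa using ha
          · have ih' := ih hs (fun ρ hρ => h ρ (Multiset.mem_cons_of_mem hρ))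
            rw [Multiset.map_cons, Multiset.prod_cons, norm_mul, Multiset.card_cons, pow_succ']
            exact mul_lt_mul'' ha ih' (by positivity) (by positivity)
      rw [← hcard]
      apply key
      · intro h0
        rw [h0] at hcard
        simp at hcard
        omega
      · exact hcon
    have h5 : 4 * (B : ℝ) ^ F.natDegree ≤ (4 * B : ℝ) ^ F.natDegree := by
      rw [mul_pow]
      have : (4 : ℝ) ^ 1 ≤ 4 ^ F.natDegree := pow_le_pow_right₀ (by norm_num) hd
      have hB' : (0 : ℝ) ≤ (B : ℝ) ^ F.natDegree := by positivity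
      nlinarith
    have h6 : ‖f.eval (v : ℂ)‖ = ‖f.leadingCoeff‖ * ‖(f.roots.map (fun a => (v : ℂ) - a)).prod‖ := by
      rw [h3, norm_mul]
    have h7 : ‖(f.roots.map (fun a => (v : ℂ) - a)).prod‖
        ≤ ‖f.leadingCoeff‖ * ‖(f.roots.map (fun a => (v : ℂ) - a)).prod‖ :=
      le_mul_of_one_le_left (norm_nonneg _) hlead
    linarith
  have hsub : V ⊆ f.roots.toFinset.biUnion (fun ρ => V.filter (fun v : ℤ => ‖(v : ℂ) - ρ‖ ≤ 4 * B)) := by
    intro v hv
    obtain ⟨ρ, hρ, h⟩ := hnear v hv
    rw [Finset.mem_biUnion]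
    exact ⟨ρ, Multiset.mem_toFinset.2 hρ, Finset.mem_filter.2 ⟨hv, h⟩⟩
  calc V.card ≤ (f.roots.toFinset.biUnion
        (fun ρ => V.filter (fun v : ℤ => ‖(v : ℂ) - ρ‖ ≤ 4 * B))).card := Finset.card_le_card hsub
    _ ≤ ∑ ρ ∈ f.roots.toFinset, (V.filter (fun v : ℤ => ‖(v : ℂ) - ρ‖ ≤ 4 * B)).card :=
        Finset.card_biUnion_le
    _ ≤ ∑ ρ ∈ f.roots.toFinset, (8 * B + 1) := by
        refine Finset.sum_le_sum (fun ρ _ => card_near ρ.re B _ (fun v hv => ?_))
        have h1 := (Finset.mem_filter.1 hv).2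
        have h2 := Complex.abs_re_le_norm ((v : ℂ) - ρ)
        simp only [Complex.sub_re, Complex.intCast_re] at h2
        exact h2.trans h1
    _ = f.roots.toFinset.card * (8 * B + 1) := by rw [Finset.sum_const, smul_eq_mul]
    _ ≤ F.natDegree * (8 * B + 1) := by
        apply Nat.mul_le_mul_right
        rw [← hcard]
        exact Multiset.toFinset_card_le _

end Pool.Agent.Lib.MP401270
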