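import Pool.Agent.Lib.MP_401270_nt.Triv

/-!
# MP_401270_nt: module CLS
-/

set_option autoImplicit false

namespace Pool.Agent.Lib.MP401270.ClsM

open Finset TrivM

lemma abs_max (x y : ℝ) : |x - y| = |x| + |y| ∨ |x + y| = |x| + |y| := by
  rcases abs_cases x with ⟨h1, h2⟩ | ⟨h1, h2⟩ <;> rcases abs_cases y with ⟨h3, h4⟩ | ⟨h3, h4⟩
  · right; rw [abs_of_nonneg (by linarith), h1, h3]
  · left; rw [abs_of_nonneg (by linarith), h1, h3]; ring
  · left; rw [abs_of_nonpos (by linarith), h1, h3]; ring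
  · right; rw [abs_of_nonpos (by linarith), h1, h3]; ring

/-- the automorph between two equal substitutions -/
lemma automorph {D : ℕ} {a b c p q r s p' q' r' s' : ℤ} (h : b ^ 2 - 4 * a * c = (D : ℤ))
    (hD : ¬ IsSquare D) (hg : Int.gcd (Int.gcd a b : ℤ) c = 1)
    (hd : p * s - q * r = 1) (hd' : p' * s' - q' * r' = 1)
    (hA : fv a b c p r = fv a b c p' r') (hB : bv a b c p q r s = bv a b c p' q' r' s')
    (hC : fv a b c q s = fv a b c q' s') :
    ∃ P S σ : ℤ, P * S + a * c * σ ^ 2 = 1 ∧ S - P = b * σ ∧ p = P * p' - c * σ * r' ∧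
      r = a * σ * p' + S * r' := by
  have ha := a_ne h hD
  set P := p * s' - q * r' with hP
  set Q := -(p * q') + q * p' with hQ
  set R := r * s' - s * r' with hR
  set S := -(r * q') + s * p' with hS
  have hdet : P * S - Q * R = 1 := by
    have : P * S - Q * R = (p * s - q * r) * (p' * s' - q' * r') := by
      rw [hP, hQ, hR, hS]; ring
    rw [this, hd, hd']; ring
  have f1 : fv a b c P R = a := by
    have e1 : fv a b c P R = fv a b c p r * s' ^ 2 - bv a b c p q r s * s' * r' + fv a b c q s * r' ^ 2 := by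
      rw [hP, hR]; unfold fv bv; ring
    have e2 : fv a b c p' r' * s' ^ 2 - bv a b c p' q' r' s' * s' * r' + fv a b c q' s' * r' ^ 2
        = a * (p' * s' - q' * r') ^ 2 := by
      unfold fv bv; ring
    rw [e1, hA, hB, hC, e2, hd']; ring
  have f2 : bv a b c P Q R S = b := by
    have e1 : bv a b c P Q R S = -2 * fv a b c p r * s' * q' + bv a b c p q r s * (p' * s' + q' * r')
        - 2 * fv a b c q s * r' * p' := by
      rw [hP, hR, hQ, hS]; unfold fv bv; ring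
    have e2 : -2 * fv a b c p' r' * s' * q' + bv a b c p' q' r' s' * (p' * s' + q' * r')
        - 2 * fv a b c q' s' * r' * p' = b * (p' * s' - q' * r') ^ 2 := by
      unfold fv bv; ring
    rw [e1, hA, hB, hC, e2, hd']; ring
  have g1 : a * (S - P) = b * R := by
    have e1 : S * 2 * fv a b c P R - R * bv a b c P Q R S = (2 * a * P + b * R) * (P * S - Q * R) := by
      unfold fv bv; ring
    rw [f1, f2, hdet] at e1
    linarith
  have g2 : a * Q = -c * R := by
    have e1 : P * bv a b c P Q R S - 2 * Q * fv a b c P R = (b * P + 2 * c * R) * (P * S - Q * R) := by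
      unfold fv bv; ring
    rw [f1, f2, hdet] at e1
    linarith
  have b1 := Int.gcd_eq_gcd_ab a b
  have b2 := Int.gcd_eq_gcd_ab (Int.gcd a b : ℤ) c
  rw [hg] at b2
  set α := Int.gcdA a b
  set β := Int.gcdB a b
  set u := Int.gcdA (Int.gcd a b : ℤ) c
  set v := Int.gcdB (Int.gcd a b : ℤ) c
  have b3 : (1 : ℤ) = a * α * u + b * β * u + c * v := by
    push_cast at b2
    rw [b1] at b2
    linear_combination b2
  set σ := α * u * R + β * u * (S - P) - v * Q with hσ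
  have k1 : R = a * σ := by
    rw [hσ]
    linear_combination R * b3 - β * u * g1 + v * g2
  have k2 : S - P = b * σ := by
    have : a * (S - P) = a * (b * σ) := by rw [g1, k1]; ring
    exact mul_left_cancel₀ ha this
  have k3 : Q = -c * σ := by
    have : a * Q = a * (-c * σ) := by rw [g2, k1]; ring
    exact mul_left_cancel₀ ha this
  refine ⟨P, S, σ, ?_, k2, ?_, ?_⟩
  · rw [k1, k3] at hdet
    linear_combination hdet
  · have e1 : p = P * p' + Q * r' := by
      rw [hP, hQ]; linear_combination (-p) * hd'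
    rw [k3] at e1
    linear_combination e1
  · have e1 : r = R * p' + S * r' := by
      rw [hR, hS]; linear_combination (-r) * hd'
    rw [k1] at e1
    linear_combination e1

lemma al_mul {D : ℕ} {a b c p r p' r' P S σ : ℤ} (h : b ^ 2 - 4 * a * c = (D : ℤ))
    (h2 : S - P = b * σ) (h3 : p = P * p' - c * σ * r') (h4 : r = a * σ * p' + S * r') :
    al D a b p r = (((P + S : ℤ) : ℝ) - √D * σ) / 2 * al D a b p' r' := by
  have hδ : √(D : ℝ) ^ 2 = D := Real.sq_sqrt (by positivity)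
  have h' : ((b : ℝ) ^ 2 - 4 * a * c) = D := by exact_mod_cast h
  have h2' : (S : ℝ) - P = b * σ := by exact_mod_cast h2
  unfold al
  rw [h3, h4]
  push_cast
  linear_combination (-(a : ℝ) * p' + (b - √D) * r' / 2) * h2' + (σ : ℝ) * r' / 2 * h' - (σ : ℝ) * r' / 2 * hδ

/-- the bounds for `al`, `be` at one vector -/
lemma al_bounds {D : ℕ} {a b c p r : ℤ} (h : b ^ 2 - 4 * a * c = (D : ℤ)) (hD : ¬ IsSquare D) (i : ℕ)
    (hr : 0 < r) (hrn : r ≤ (a.natAbs * 2 ^ i : ℕ))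
    (hal : |al D a b p r| ≤ 2 * |(a : ℝ)| / ((a.natAbs * 2 ^ i : ℕ) + 1)) :
    |al D a b p r| < 2 / 2 ^ i ∧ |be D a b p r| ≤ 4 * √D * |(a : ℝ)| * 2 ^ i ∧
      1 / (√D * 2 ^ i) ≤ |al D a b p r| := by
  have ha := a_ne h hD
  have haR : (a : ℝ) ≠ 0 := by exact_mod_cast ha
  have haA : (1 : ℝ) ≤ |(a : ℝ)| := by
    have : (1 : ℤ) ≤ |a| := Int.one_le_abs ha
    exact_mod_cast this
  have hcast : ((a.natAbs * 2 ^ i : ℕ) : ℝ) = |(a : ℝ)| * 2 ^ i := by
    push_cast
    rw [Nat.cast_natAbs, Int.cast_abs]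
  have hδ1 : (1 : ℝ) ≤ √(D : ℝ) := by
    rw [Real.one_le_sqrt]
    exact_mod_cast (by have := two_le hD; omega : 1 ≤ D)
  have h2i : (1 : ℝ) ≤ 2 ^ i := one_le_pow₀ (by norm_num)
  rw [hcast] at hal
  have b1 : |al D a b p r| < 2 / 2 ^ i := by
    refine lt_of_le_of_lt hal ?_
    rw [div_lt_div_iff₀ (by positivity) (by positivity)]
    nlinarith
  have hrR : (r : ℝ) ≤ |(a : ℝ)| * 2 ^ i := by
    have : (r : ℝ) ≤ (((a.natAbs * 2 ^ i : ℕ) : ℤ) : ℝ) := Int.cast_le.2 hrn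
    rwa [Int.cast_natCast, hcast] at this
  have hr0 : (0 : ℝ) < r := by exact_mod_cast hr
  have b2 : |be D a b p r| ≤ 4 * √D * |(a : ℝ)| * 2 ^ i := by
    rw [be_eq]
    refine (abs_add_le _ _).trans ?_
    rw [abs_of_pos (by positivity : 0 < 2 * √(D : ℝ) * r)]
    have e1 : (2 : ℝ) / 2 ^ i ≤ 2 := by
      rw [div_le_iff₀ (by positivity)]; linarith
    have e2 : (1 : ℝ) ≤ √(D : ℝ) * (|(a : ℝ)| * 2 ^ i) := by
      have : (1 : ℝ) ≤ |(a : ℝ)| * 2 ^ i := by nlinarith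
      nlinarith
    have e3 : √(D : ℝ) * r ≤ √(D : ℝ) * (|(a : ℝ)| * 2 ^ i) := by gcongr
    nlinarith
  refine ⟨b1, b2, ?_⟩
  have h1 := congrArg abs (al_be h p r)
  rw [abs_mul, abs_mul, abs_mul, abs_of_pos (by norm_num : (0 : ℝ) < 4)] at h1
  have hf1 : (1 : ℝ) ≤ |(fv a b c p r : ℝ)| := by
    have : (1 : ℤ) ≤ |fv a b c p r| := Int.one_le_abs (fv_ne h hD p r hr.ne')
    exact_mod_cast this
  have h3 : 4 * |(a : ℝ)| ≤ |al D a b p r| * (4 * √D * |(a : ℝ)| * 2 ^ i) := by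
    calc 4 * |(a : ℝ)| ≤ 4 * |(a : ℝ)| * |(fv a b c p r : ℝ)| := by nlinarith
      _ = |al D a b p r| * |be D a b p r| := h1.symm
      _ ≤ _ := by gcongr
  rw [div_le_iff₀ (by positivity)]
  have h4 : 4 * |(a : ℝ)| * 1 ≤ 4 * |(a : ℝ)| * (|al D a b p r| * (√D * 2 ^ i)) := by linarith
  exact le_of_mul_le_mul_left h4 (by positivity)

/-- two equal reduced substitutions have close indices -/
lemma key {D J : ℕ} (hD : ¬ IsSquare D)
    (hbig : ∀ t s : ℕ, 1 ≤ s → t ^ 2 = D * s ^ 2 + 4 → (2 : ℝ) ^ (J + 1) * √D ≤ ((t : ℝ) + s * √D) / 2)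
    {a b c p q r s p' q' r' s' : ℤ} (h : b ^ 2 - 4 * a * c = (D : ℤ))
    (hg : Int.gcd (Int.gcd a b : ℤ) c = 1) {i j : ℕ} (hij : i < j) (hjJ : j ≤ J)
    (hd : p * s - q * r = 1) (hd' : p' * s' - q' * r' = 1) (hr : 0 < r) (hr' : 0 < r')
    (hrn : r ≤ (a.natAbs * 2 ^ i : ℕ)) (hrn' : r' ≤ (a.natAbs * 2 ^ j : ℕ))
    (hal : |al D a b p r| ≤ 2 * |(a : ℝ)| / ((a.natAbs * 2 ^ i : ℕ) + 1))
    (hal' : |al D a b p' r'| ≤ 2 * |(a : ℝ)| / ((a.natAbs * 2 ^ j : ℕ) + 1))
    (hA : fv a b c p r = fv a b c p' r') (hB : bv a b c p q r s = bv a b c p' q' r' s')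
    (hC : fv a b c q s = fv a b c q' s') :
    j - i ≤ Nat.log 2 (Nat.sqrt (4 * D) / (fv a b c p r).natAbs) := by
  obtain ⟨u1, u2, u3⟩ := al_bounds h hD i hr hrn hal
  obtain ⟨w1, w2, w3⟩ := al_bounds h hD j hr' hrn' hal'
  obtain ⟨P, S, σ, e1, e2, e3, e4⟩ := automorph h hD hg hd hd' hA hB hC
  have hmul := al_mul h e2 e3 e4
  have ha := a_ne h hD
  have haA : (1 : ℝ) ≤ |(a : ℝ)| := by
    have : (1 : ℤ) ≤ |a| := Int.one_le_abs ha
    exact_mod_cast this
  have hδ : √(D : ℝ) ^ 2 = D := Real.sq_sqrt (by positivity)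
  have hδ1 : (1 : ℝ) ≤ √(D : ℝ) := by
    rw [Real.one_le_sqrt]
    exact_mod_cast (by have := two_le hD; omega : 1 ≤ D)
  have h2i : (1 : ℝ) ≤ 2 ^ i := one_le_pow₀ (by norm_num)
  have h2j : (1 : ℝ) ≤ 2 ^ j := one_le_pow₀ (by norm_num)
  set τ := P + S with hτ
  have hpell : τ ^ 2 - D * σ ^ 2 = 4 := by
    rw [← h, hτ]
    linear_combination 4 * e1 + (S - P + b * σ) * e2
  by_cases hσ : σ = 0
  · -- the trivial automorph
    subst hσ
    have hPS : S = P := by linarith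
    rw [hPS] at e1 e4
    have hPP : P * P = 1 := by linear_combination e1
    have e3' : p = P * p' := by linear_combination e3
    have e4' : r = P * r' := by linear_combination e4
    have hP1 : P = 1 := by
      rcases mul_self_eq_one_iff.1 hPP with h1 | h1
      · exact h1
      · rw [h1] at e4'; omega
    rw [hP1, one_mul] at e3' e4'
    have halal : al D a b p r = al D a b p' r' := by rw [e3', e4']
    have h1 := congrArg abs (al_be h p r)
    rw [abs_mul, abs_mul, abs_mul, abs_of_pos (by norm_num : (0 : ℝ) < 4)] at h1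
    have h2 : |al D a b p r| * |be D a b p r| ≤ 2 / 2 ^ j * (4 * √D * |(a : ℝ)| * 2 ^ i) := by
      apply mul_le_mul _ u2 (abs_nonneg _) (by positivity)
      rw [halal]; exact w1.le
    have hji : (2 : ℝ) ^ j = 2 ^ i * 2 ^ (j - i) := by
      rw [← pow_add]; congr 1; omega
    have h3 : |(fv a b c p r : ℝ)| * 2 ^ (j - i) ≤ 2 * √D := by
      rw [h1, hji] at h2
      have e5 : 2 / (2 ^ i * 2 ^ (j - i)) * (4 * √(D : ℝ) * |(a : ℝ)| * 2 ^ i)
          = 4 * |(a : ℝ)| * (2 * √D / 2 ^ (j - i)) := by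
        field_simp
      rw [e5] at h2
      have e6 := le_of_mul_le_mul_left h2 (by positivity)
      rwa [le_div_iff₀ (by positivity)] at e6
    have hA0 : 0 < (fv a b c p r).natAbs := Int.natAbs_pos.2 (fv_ne h hD p r hr.ne')
    have h4 : (fv a b c p r).natAbs * 2 ^ (j - i) ≤ Nat.sqrt (4 * D) := by
      rw [Nat.le_sqrt']
      have h5 : ((fv a b c p r).natAbs * 2 ^ (j - i) : ℝ) ^ 2 ≤ 4 * D := by
        have h6 : ((fv a b c p r).natAbs : ℝ) = |(fv a b c p r : ℝ)| := by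
          rw [Nat.cast_natAbs, Int.cast_abs]
        rw [h6]
        have h7 : (|(fv a b c p r : ℝ)| * (2 : ℝ) ^ (j - i)) ^ 2 ≤ (2 * √(D : ℝ)) ^ 2 :=
          pow_le_pow_left₀ (by positivity) h3 2
        rw [mul_pow 2 (√(D : ℝ)) 2, hδ] at h7
        linarith
      exact_mod_cast h5
    apply Nat.le_log_of_pow_le (by norm_num)
    rw [Nat.le_div_iff_mul_le hA0]
    linarith
  · -- a nontrivial automorph is too large
    exfalso
    have hs1 : 1 ≤ σ.natAbs := Int.natAbs_pos.2 hσ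
    have hN : τ.natAbs ^ 2 = D * σ.natAbs ^ 2 + 4 := by
      have : ((τ.natAbs ^ 2 : ℕ) : ℤ) = ((D * σ.natAbs ^ 2 + 4 : ℕ) : ℤ) := by
        push_cast
        rw [sq_abs, sq_abs]
        linarith
      exact_mod_cast this
    have hX := hbig _ _ hs1 hN
    have hX' : (2 : ℝ) ^ (J + 1) * √D ≤ (|(τ : ℝ)| + |√D * (σ : ℝ)|) / 2 := by
      rw [Nat.cast_natAbs, Nat.cast_natAbs, Int.cast_abs, Int.cast_abs] at hX
      rw [abs_mul, abs_of_nonneg (Real.sqrt_nonneg _), mul_comm (√(D : ℝ)) _]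
      exact hX
    have hprod : |(τ : ℝ) - √D * σ| / 2 * (|(τ : ℝ) + √D * σ| / 2) = 1 := by
      have e5 : |(τ : ℝ) - √D * σ| * |(τ : ℝ) + √D * σ| = 4 := by
        rw [← abs_mul]
        have e6 : ((τ : ℝ) - √D * σ) * ((τ : ℝ) + √D * σ) = 4 := by
          have e7 : ((τ : ℝ) ^ 2 - D * σ ^ 2) = 4 := by exact_mod_cast hpell
          linear_combination e7 - (σ : ℝ) ^ 2 * hδ
        rw [e6]; norm_num
      linarith
    have hm := congrArg abs hmul
    rw [abs_mul, abs_div, abs_two] at hm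
    set ρ := |(τ : ℝ) - √D * σ| / 2 with hρ
    have hJ : (2 : ℝ) ^ j ≤ 2 ^ J := pow_le_pow_right₀ (by norm_num) hjJ
    have hiJ : (2 : ℝ) ^ i ≤ 2 ^ J := pow_le_pow_right₀ (by norm_num) (by omega)
    have hpos : 0 < |al D a b p' r'| := lt_of_lt_of_le (by positivity) w3
    rcases abs_max (τ : ℝ) (√D * (σ : ℝ)) with hc | hc
    · -- ρ is large
      have hρX : (2 : ℝ) ^ (J + 1) * √D ≤ ρ := by rw [hρ, hc]; exact hX'
      have e5 : (2 : ℝ) ≤ |al D a b p r| := by
        rw [hm]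
        calc (2 : ℝ) ≤ 2 ^ (J + 1) * √D * (1 / (√D * 2 ^ j)) := by
              have : (2 : ℝ) ^ (J + 1) * √D * (1 / (√D * 2 ^ j)) = 2 * (2 ^ J / 2 ^ j) := by
                rw [pow_succ]; field_simp
              rw [this]
              have : (1 : ℝ) ≤ 2 ^ J / 2 ^ j := by rw [le_div_iff₀ (by positivity)]; linarith
              linarith
          _ ≤ ρ * |al D a b p' r'| := by gcongr
      have e6 : (2 : ℝ) / 2 ^ i ≤ 2 := by
        rw [div_le_iff₀ (by positivity)]; linarith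
      linarith
    · -- ρ is small
      have hρX : ρ * (2 ^ (J + 1) * √D) ≤ 1 := by
        rw [← hprod]
        have hρ0 : 0 ≤ ρ := by rw [hρ]; positivity
        apply mul_le_mul_of_nonneg_left _ hρ0
        rw [hc]; exact hX'
      have e5 : |al D a b p r| * (2 ^ (J + 1) * √D) ≤ |al D a b p' r'| := by
        rw [hm]
        calc ρ * |al D a b p' r'| * (2 ^ (J + 1) * √D) = ρ * (2 ^ (J + 1) * √D) * |al D a b p' r'| := by ring
          _ ≤ 1 * |al D a b p' r'| := by gcongr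
          _ = _ := one_mul _
      have e6 : (2 : ℝ) ≤ |al D a b p r| * (2 ^ (J + 1) * √D) := by
        calc (2 : ℝ) ≤ 1 / (√D * 2 ^ i) * (2 ^ (J + 1) * √D) := by
              have : 1 / (√(D : ℝ) * 2 ^ i) * (2 ^ (J + 1) * √D) = 2 * (2 ^ J / 2 ^ i) := by
                rw [pow_succ]; field_simp
              rw [this]
              have : (1 : ℝ) ≤ 2 ^ J / 2 ^ i := by rw [le_div_iff₀ (by positivity)]; linarith
              linarith
          _ ≤ _ := by gcongr
      have e7 : (2 : ℝ) / 2 ^ j ≤ 2 := by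
        rw [div_le_iff₀ (by positivity)]; linarith
      linarith

end Pool.Agent.Lib.MP401270.ClsM

namespace Pool.Agent.Lib.MP401270

open Finset TrivM ClsM

theorem specCLS : SpecCLS := by
  intro D J hD hbig
  -- a form in every class
  have hrep : ∀ κ : Quot (Eqv D), ∃ u : Form D, Quot.mk _ u = κ := fun κ => Quot.exists_rep κ
  choose U hU using hrep
  have hmat : ∀ (κ : Quot (Eqv D)) (j : ℕ), ∃ p q r s : ℤ, p * s - q * r = 1 ∧ 0 < r ∧
      r ≤ (((U κ).1.1.natAbs * 2 ^ j : ℕ) : ℤ) ∧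
      |al D (U κ).1.1 (U κ).1.2.1 p r| ≤ 2 * |((U κ).1.1 : ℝ)| / (((U κ).1.1.natAbs * 2 ^ j : ℕ) + 1) ∧
      |(fv (U κ).1.1 (U κ).1.2.1 (U κ).1.2.2 p r : ℝ)| < √D ∧
      -|fv (U κ).1.1 (U κ).1.2.1 (U κ).1.2.2 p r| < bv (U κ).1.1 (U κ).1.2.1 (U κ).1.2.2 p q r s ∧
      bv (U κ).1.1 (U κ).1.2.1 (U κ).1.2.2 p q r s ≤ |fv (U κ).1.1 (U κ).1.2.1 (U κ).1.2.2 p r| :=
    fun κ j => exists_mat (U κ).2.1 hD _ (Nat.le_mul_of_pos_right _ (by positivity))
  choose p q r s hd hr hrn hal hf hb1 hb2 using hmat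
  set g : Quot (Eqv D) × ℕ → Form D := fun x => act (U x.1) (p x.1 x.2) (q x.1 x.2) (r x.1 x.2)
    (s x.1 x.2) (hd x.1 x.2) with hg
  have hgq : ∀ x, Quot.mk (Eqv D) (g x) = x.1 := by
    intro x
    rw [← Quot.sound (eqv_act (U x.1) (p x.1 x.2) (q x.1 x.2) (r x.1 x.2) (s x.1 x.2) (hd x.1 x.2))]
    exact hU x.1
  have hgA : ∀ x, (g x).1.1 ≠ 0 := fun x => fv_ne (U x.1).2.1 hD _ _ (hr x.1 x.2).ne'
  have hgN : ∀ x, ((g x).1.1, (g x).1.2.1) ∈ ND D := fun x =>
    mem_ND (disc_act (U x.1).2.1 (hd x.1 x.2)) (hgA x) (hf x.1 x.2) (hb1 x.1 x.2) (hb2 x.1 x.2)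
  have := finite_quot hD
  have := Fintype.ofFinite (Quot (Eqv D))
  -- the index set
  set I : Finset (Quot (Eqv D) × ℕ) := Finset.univ ×ˢ Finset.range (J + 1) with hI
  have hcard : I.card = h D * (J + 1) := by
    rw [hI, Finset.card_product, Finset.card_range, Finset.card_univ]
    unfold h
    rw [Nat.card_eq_fintype_card]
  rw [← hcard]
  rw [Finset.card_eq_sum_card_fiberwise (f := fun x => ((g x).1.1, (g x).1.2.1)) (t := ND D)
    (fun x _ => hgN x)]
  apply Finset.sum_le_sum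
  intro y hy
  -- the fibre over `y`
  set F := I.filter (fun x => ((g x).1.1, (g x).1.2.1) = y) with hF
  rcases F.eq_empty_or_nonempty with he | hne
  · rw [he]; simp
  have hsame : ∀ x ∈ F, ∀ x' ∈ F, g x = g x' := by
    intro x hx x' hx'
    rw [hF, Finset.mem_filter] at hx hx'
    have e := hx.2.trans hx'.2.symm
    rw [Prod.mk.injEq] at e
    exact form_ext (hgA x) e.1 e.2
  have hκ : ∀ x ∈ F, ∀ x' ∈ F, x.1 = x'.1 := by
    intro x hx x' hx'
    rw [← hgq x, ← hgq x', hsame x hx x' hx']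
  have hinj : Set.InjOn (fun x : Quot (Eqv D) × ℕ => x.2) (F : Set (Quot (Eqv D) × ℕ)) := by
    intro x hx x' hx' e
    exact Prod.ext (hκ x hx x' hx') e
  rw [← Finset.card_image_of_injOn hinj]
  set G := F.image (fun x => x.2) with hG
  have hGne : G.Nonempty := hne.image _
  have hdiff : ∀ i ∈ G, ∀ j ∈ G, i < j → j - i ≤ Nat.log 2 (Nat.sqrt (4 * D) / y.1.natAbs) := by
    intro i hi j hj hij
    rw [hG, Finset.mem_image] at hi hj
    obtain ⟨x, hx, rfl⟩ := hi
    obtain ⟨x', hx', rfl⟩ := hj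
    have e1 := hκ x hx x' hx'
    have e2 := hsame x hx x' hx'
    have hxF := hx
    have hx'F := hx'
    rw [hF, Finset.mem_filter] at hxF hx'F
    have e3 : y.1 = (g x).1.1 := by rw [← hxF.2]
    have hjJ : x'.2 ≤ J := by
      have := hx'F.1
      rw [hI, Finset.mem_product, Finset.mem_range] at this
      omega
    obtain ⟨κ, i⟩ := x
    obtain ⟨κ', j⟩ := x'
    simp only at e1 hij hjJ
    subst e1
    have e4 := congrArg (fun w : Form D => w.1) e2
    simp only [hg, act, Prod.mk.injEq] at e4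
    have := key hD hbig (U κ).2.1 (U κ).2.2 hij hjJ (hd κ i) (hd κ j) (hr κ i) (hr κ j) (hrn κ i)
      (hrn κ j) (hal κ i) (hal κ j) e4.1 e4.2.1 e4.2.2
    rw [e3]
    exact this
  -- the size of a set of bounded diameter
  have hsub : G ⊆ Finset.Icc (G.min' hGne) (G.min' hGne + Nat.log 2 (Nat.sqrt (4 * D) / y.1.natAbs)) := by
    intro j hj
    rw [Finset.mem_Icc]
    have h1 := Finset.min'_le G j hj
    refine ⟨h1, ?_⟩
    rcases h1.lt_or_eq with h2 | h2
    · have := hdiff _ (Finset.min'_mem G hGne) j hj h2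
      omega
    · omega
  have h1 := Finset.card_le_card hsub
  rw [Nat.card_Icc] at h1
  unfold wt
  omega

end Pool.Agent.Lib.MP401270
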