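import Pool.Agent.Lib.MP_401270_nt.Spec

set_option autoImplicit false

namespace Pool.Agent.Lib.MP401270

open Polynomial Finset

namespace CntM

/-- `2 ^ omega(n) <= n`. -/
theorem two_pow_card_le (n : ℕ) (hn : n ≠ 0) : 2 ^ n.primeFactors.card ≤ n := by
  calc 2 ^ n.primeFactors.card ≤ ∏ p ∈ n.primeFactors, p :=
        Finset.pow_card_le_prod _ _ _ (fun p hp => (Nat.prime_of_mem_primeFactors hp).two_le)
    _ ≤ n := Nat.le_of_dvd (Nat.pos_of_ne_zero hn) (Nat.prod_primeFactors_dvd n)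

/-- the number of prime factors of the resultant -/
theorem omega_le (K D0 Y : ℕ) (R : ℤ) (hK : 1 ≤ K) (hY : 14400 * K ^ 4 ≤ Y)
    (hD : (Y ^ 8) ^ (80 * K ^ 2) ≤ D0) (hR : R ≠ 0)
    (hRle : |R| ≤ (2 ^ (12 * K ^ 2 + 1) * ((12 * K ^ 2 : ℕ) : ℤ) ^ 2 *
      ((D0 ^ (K + 2) : ℕ) : ℤ)) ^ (2 * (12 * K ^ 2))) :
    (R.natAbs.primeFactors.card : ℝ) ≤ 140 * K ^ 3 * Real.log D0 := by
  set ω := R.natAbs.primeFactors.card with hω
  have hK' : (1 : ℝ) ≤ K := by exact_mod_cast hK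
  have hYpos : 0 < Y := by
    have : 1 ≤ K ^ 4 := Nat.one_le_pow _ _ hK
    omega
  have hYr : (14400 : ℝ) * K ^ 4 ≤ Y := by exact_mod_cast hY
  have hDpos : 0 < D0 := lt_of_lt_of_le (by positivity) hD
  have hD0r : (0 : ℝ) < D0 := by exact_mod_cast hDpos
  -- lower bound for log D0
  have hlogY : 0 < Real.log Y := by
    apply Real.log_pos
    nlinarith [one_le_pow₀ hK' (n := 4)]
  have hlogD : 640 * (K : ℝ) ^ 2 * Real.log Y ≤ Real.log D0 := by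
    have h1 : ((Y : ℝ) ^ 8) ^ (80 * K ^ 2) ≤ D0 := by exact_mod_cast hD
    have h2 := Real.log_le_log (by positivity) h1
    rw [Real.log_pow, Real.log_pow] at h2
    push_cast at h2
    linarith
  have hlog2 : Real.log 2 < 0.6931471808 := Real.log_two_lt_d9
  have hlog2' : 0.6931471803 < Real.log 2 := Real.log_two_gt_d9
  have hlogY9 : 9 ≤ Real.log Y := by
    have : Real.log (2 ^ 13 : ℝ) ≤ Real.log Y := by
      apply Real.log_le_log (by positivity)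
      nlinarith [one_le_pow₀ hK' (n := 4)]
    rw [Real.log_pow] at this
    push_cast at this
    linarith
  have hlogE : 2 * Real.log (12 * (K : ℝ) ^ 2) ≤ Real.log Y := by
    have : Real.log ((12 * (K : ℝ) ^ 2) ^ 2) ≤ Real.log Y := by
      apply Real.log_le_log (by positivity)
      nlinarith [one_le_pow₀ hK' (n := 4)]
    rw [Real.log_pow] at this
    push_cast at this
    linarith
  -- upper bound for log |R|
  have h2ω : (2 : ℝ) ^ ω ≤ (R.natAbs : ℝ) := by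
    exact_mod_cast two_pow_card_le R.natAbs (Int.natAbs_ne_zero.2 hR)
  have hRr : (R.natAbs : ℝ) ≤ (2 ^ (12 * K ^ 2 + 1) * (12 * (K : ℝ) ^ 2) ^ 2 *
      (D0 : ℝ) ^ (K + 2)) ^ (2 * (12 * K ^ 2)) := by
    have h1 : ((|R| : ℤ) : ℝ) ≤ (((2 ^ (12 * K ^ 2 + 1) * ((12 * K ^ 2 : ℕ) : ℤ) ^ 2 *
      ((D0 ^ (K + 2) : ℕ) : ℤ)) ^ (2 * (12 * K ^ 2)) : ℤ) : ℝ) := by exact_mod_cast hRle
    have h2 : (R.natAbs : ℝ) = ((|R| : ℤ) : ℝ) := by
      rw [← Int.natCast_natAbs]; simp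
    rw [h2]
    refine h1.trans (le_of_eq ?_)
    push_cast
    ring
  have hlog := Real.log_le_log (by positivity) (h2ω.trans hRr)
  rw [Real.log_pow, Real.log_pow, Real.log_mul (by positivity) (by positivity),
    Real.log_mul (by positivity) (by positivity), Real.log_pow, Real.log_pow, Real.log_pow] at hlog
  push_cast at hlog
  -- final inequality
  have hK2 : (1 : ℝ) ≤ (K : ℝ) ^ 2 := one_le_pow₀ hK'
  have hLD : 0 < Real.log D0 := by nlinarith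
  have hLD2 : 5760 * (K : ℝ) ^ 2 ≤ Real.log D0 := by nlinarith
  have hLD3 : 640 * Real.log Y ≤ Real.log D0 := by nlinarith
  have hA : (12 * (K : ℝ) ^ 2 + 1) * Real.log 2 ≤ 0.002 * Real.log D0 := by nlinarith
  have hB : 2 * Real.log (12 * (K : ℝ) ^ 2) ≤ 0.002 * Real.log D0 := by linarith
  have hC : ((K : ℝ) + 2) * Real.log D0 ≤ 3 * K * Real.log D0 := by
    apply mul_le_mul_of_nonneg_right _ hLD.le
    linarith
  have hS : (12 * (K : ℝ) ^ 2 + 1) * Real.log 2 + 2 * Real.log (12 * (K : ℝ) ^ 2) +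
      ((K : ℝ) + 2) * Real.log D0 ≤ 3.01 * (K * Real.log D0) := by
    have : Real.log D0 ≤ K * Real.log D0 := by nlinarith
    nlinarith
  have hfin : (ω : ℝ) * Real.log 2 ≤ 24 * (K : ℝ) ^ 2 * (3.01 * (K * Real.log D0)) := by
    calc (ω : ℝ) * Real.log 2 ≤ 2 * (12 * (K : ℝ) ^ 2) *
          ((12 * (K : ℝ) ^ 2 + 1) * Real.log 2 + 2 * Real.log (12 * (K : ℝ) ^ 2) +
            ((K : ℝ) + 2) * Real.log D0) := hlog
      _ ≤ 2 * (12 * (K : ℝ) ^ 2) * (3.01 * (K * Real.log D0)) := by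
          apply mul_le_mul_of_nonneg_left hS (by positivity)
      _ = _ := by ring
  have hX : 0 ≤ (K : ℝ) ^ 3 * Real.log D0 := by positivity
  have h72 : 24 * (K : ℝ) ^ 2 * (3.01 * (K * Real.log D0)) = 72.24 * ((K : ℝ) ^ 3 * Real.log D0) := by
    ring
  rw [h72] at hfin
  nlinarith

end CntM

open CntM in
theorem specCNT (hpig : SpecPIG) (hred : SpecRED) (hval : SpecVAL) : SpecCNT := by
  classical
  intro K Y D0 S0 σ hK hY hD hS1 hS2 hσ hσ2
  have hK' : (1 : ℝ) ≤ K := by exact_mod_cast hK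
  have hK4 : 1 ≤ K ^ 4 := Nat.one_le_pow _ _ hK
  have hYpos : 0 < Y := by omega
  have hY2 : 2 ≤ Y := by omega
  have hDpos : 0 < D0 := lt_of_lt_of_le (by positivity) hD
  have hYL : Y ≤ Y ^ 8 := Nat.le_self_pow (by norm_num) Y
  obtain ⟨P, Q, hPQ, hdP, hdQ, hcP, hcQ, hrel⟩ := hpig K (Y ^ 8) D0 S0 hK (hY.trans hYL) hD hS1 hS2
  have hE1 : 1 ≤ 12 * K ^ 2 := by
    have : 1 ≤ K ^ 2 := Nat.one_le_pow _ _ hK
    omega
  obtain ⟨G, P1, Q1, R, hP, hQ, hG, hdG, hdP1, hdQ1, hR, hRle, hkR, hpp⟩ :=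
    hred (12 * K ^ 2) (D0 ^ (K + 2)) P Q hE1 (Nat.one_le_pow _ _ hDpos) hPQ hdP hdQ
      (fun i => by push_cast; exact hcP i) (fun i => by push_cast; exact hcQ i)
  have hom := omega_le K D0 Y R hK hY hD hR hRle
  have hV := hval (12 * K ^ 2) D0 Y σ P1 Q1 R hE1 hDpos hY2 hσ hσ2 hdP1 hdQ1 hR hkR hpp
  set ω := R.natAbs.primeFactors.card with hω
  -- inclusion
  have hsub : Wset D0 (Y ^ 8) S0 ⊆
      (Vset P1 Q1 D0 (Y ^ 8)) ∪ ((Finset.range (Y ^ 8 + 1)).filter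
        (fun w : ℕ => G.eval (w : ℤ) = 0)) := by
    intro w hw
    rw [Wset, Finset.mem_filter] at hw
    obtain ⟨hwr, s, t, hs1, hs2, hst⟩ := hw
    rw [Finset.mem_union]
    by_cases hGw : G.eval (w : ℤ) = 0
    · right
      exact Finset.mem_filter.2 ⟨hwr, hGw⟩
    · left
      rw [Vset, Finset.mem_filter]
      refine ⟨hwr, s, t, hS1.trans hs1, hst, ?_⟩
      have h0 := hrel w s t (Nat.lt_succ_iff.1 (Finset.mem_range.1 hwr)) hs1 hs2 hst
      rw [hP, hQ, Polynomial.eval_mul, Polynomial.eval_mul] at h0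
      have : G.eval (w : ℤ) * (P1.eval (w : ℤ) * s + Q1.eval (w : ℤ) * t) = 0 := by
        rw [← h0]; ring
      exact (mul_eq_zero.1 this).resolve_left hGw
  have hroots : ((Finset.range (Y ^ 8 + 1)).filter
        (fun w : ℕ => G.eval (w : ℤ) = 0)).card ≤ 12 * K ^ 2 := by
    have h1 : ((Finset.range (Y ^ 8 + 1)).filter (fun w : ℕ => G.eval (w : ℤ) = 0)).card ≤
        G.roots.toFinset.card := by
      apply Finset.card_le_card_of_injOn (fun w : ℕ => (w : ℤ))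
      · intro w hw
        have hw' := (Finset.mem_filter.1 (Finset.mem_coe.1 hw)).2
        simp only [Finset.mem_coe, Multiset.mem_toFinset]
        exact (Polynomial.mem_roots hG).2 hw'
      · intro a _ b _ h
        exact Int.ofNat.inj h
    refine h1.trans ((Multiset.toFinset_card_le _).trans ((Polynomial.card_roots' G).trans hdG.le))
  have hcard : (Wset D0 (Y ^ 8) S0).card ≤ (Vset P1 Q1 D0 (Y ^ 8)).card + 12 * K ^ 2 :=
    (Finset.card_le_card hsub).trans ((Finset.card_union_le _ _).trans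
      (Nat.add_le_add_left hroots _))
  have hcardr : ((Wset D0 (Y ^ 8) S0).card : ℝ) ≤
      ((Vset P1 Q1 D0 (Y ^ 8)).card : ℝ) + 12 * (K : ℝ) ^ 2 := by
    exact_mod_cast hcard
  -- numbers
  set Λ : ℝ := 140 * K ^ 3 * Real.log D0 with hΛ
  have hω0 : (0 : ℝ) ≤ ω := Nat.cast_nonneg _
  have hΛ0 : 0 ≤ Λ := hω0.trans hom
  have hYr : (1 : ℝ) ≤ Y := by exact_mod_cast hYpos
  set Z : ℝ := (Y : ℝ) ^ (8 - σ) with hZ
  have hZ7 : (Y : ℝ) ^ 7 ≤ Z := by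
    rw [hZ, ← Real.rpow_natCast]
    exact Real.rpow_le_rpow_of_exponent_le hYr (by push_cast; linarith)
  have hZ4 : (Y : ℝ) ^ 4 ≤ Z := (pow_le_pow_right₀ hYr (by norm_num)).trans hZ7
  have hZ1 : 1 ≤ Z := (one_le_pow₀ hYr).trans hZ7
  set X1 : ℝ := Real.exp (8 * ((ω : ℝ) + 1) ^ σ / σ) with hX1
  set X2 : ℝ := Real.exp (8 * (Λ + 1) ^ σ / σ) with hX2
  have hX12 : X1 ≤ X2 := by
    apply Real.exp_le_exp.2
    apply div_le_div_of_nonneg_right _ hσ.le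
    apply mul_le_mul_of_nonneg_left _ (by norm_num)
    exact Real.rpow_le_rpow (by linarith) (by linarith) hσ.le
  have hX2' : 1 ≤ X2 := by
    apply Real.one_le_exp
    positivity
  have hZX : Z ≤ Z * X2 := by nlinarith
  have hZX1 : 1 ≤ Z * X2 := hZ1.trans hZX
  set W : ℝ := Z * X2 with hW
  have hk2 : (0 : ℝ) ≤ (K : ℝ) ^ 2 := by positivity
  push_cast at hV
  have e1 : 18 * (12 * (K : ℝ) ^ 2) * (Y : ℝ) ^ 4 ≤ 216 * (K : ℝ) ^ 2 * W := by
    have := hZ4.trans hZX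
    nlinarith
  have e2 : 3 * (12 * (K : ℝ) ^ 2) * (ω : ℝ) * (Y : ℝ) ^ 7 ≤ 36 * (K : ℝ) ^ 2 * Λ * W := by
    have h7 := hZ7.trans hZX
    have h8 : (ω : ℝ) * (Y : ℝ) ^ 7 ≤ Λ * W :=
      mul_le_mul hom h7 (by positivity) hΛ0
    nlinarith
  have e3 : 2 * (12 * (K : ℝ) ^ 2) * Z * X1 ≤ 24 * (K : ℝ) ^ 2 * W := by
    have h9 : Z * X1 ≤ W := mul_le_mul_of_nonneg_left hX12 (by linarith)
    nlinarith
  have e4 : 12 * (K : ℝ) ^ 2 ≤ 12 * (K : ℝ) ^ 2 * W := by nlinarith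
  have hfin : ((Wset D0 (Y ^ 8) S0).card : ℝ) ≤ (252 + 36 * Λ) * (K : ℝ) ^ 2 * W := by
    have : ((Wset D0 (Y ^ 8) S0).card : ℝ) ≤ 216 * (K : ℝ) ^ 2 * W + 36 * (K : ℝ) ^ 2 * Λ * W +
        24 * (K : ℝ) ^ 2 * W + 12 * (K : ℝ) ^ 2 * W := by linarith
    refine this.trans (le_of_eq ?_)
    ring
  calc ((Wset D0 (Y ^ 8) S0).card : ℝ) ≤ (252 + 36 * Λ) * (K : ℝ) ^ 2 * W := hfin
    _ ≤ (300 * (Λ + 1)) * (K : ℝ) ^ 2 * W := by
        apply mul_le_mul_of_nonneg_right _ (by linarith)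
        apply mul_le_mul_of_nonneg_right _ hk2
        linarith
    _ = 300 * (K : ℝ) ^ 2 * (Λ + 1) * Z * X2 := by rw [hW]; ring

end Pool.Agent.Lib.MP401270
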