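import Mathlib

set_option autoImplicit false

/-! # MP_401270_nt: definitions (class numbers of indefinite forms, almost all discriminants)

`Form D`, `Eqv D`, `h D` are the class number exactly as in the frozen statement S16681. -/

namespace Pool.Agent.Lib.MP401270

open Polynomial Finset

/-- Primitive integral binary quadratic forms `(a, b, c)` with `b^2 - 4 a c = D`. -/
abbrev Form (D : ℕ) : Type := {t : ℤ × ℤ × ℤ //
  t.2.1 ^ 2 - 4 * t.1 * t.2.2 = (D : ℤ) ∧ Int.gcd (Int.gcd t.1 t.2.1 : ℤ) t.2.2 = 1}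

/-- Proper equivalence: `v = u ∘ [[p, q], [r, s]]` with determinant one. -/
def Eqv (D : ℕ) (u v : Form D) : Prop :=
  ∃ p q r s : ℤ, p * s - q * r = 1 ∧
    v.1.1 = u.1.1 * p ^ 2 + u.1.2.1 * p * r + u.1.2.2 * r ^ 2 ∧
    v.1.2.1 = 2 * u.1.1 * p * q + u.1.2.1 * (p * s + q * r) + 2 * u.1.2.2 * r * s ∧
    v.1.2.2 = u.1.1 * q ^ 2 + u.1.2.1 * q * s + u.1.2.2 * s ^ 2

/-- The class number `h_D`. -/
noncomputable def h (D : ℕ) : ℕ := Nat.card (Quot (Eqv D))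

open Classical in
/-- The sum `S(N)` of the class numbers of the nonsquare `D < N`. -/
noncomputable def S (N : ℕ) : ℕ := ∑ D ∈ Finset.range N, if IsSquare D then 0 else h D

open Classical in
/-- The integers `D < N` for which `t^2 - D s^2 = 4` has a positive solution with
`(t + s sqrt D) / 2 <= B`. -/
noncomputable def Small (N : ℕ) (B : ℝ) : Finset ℕ :=
  {D ∈ Finset.range N | ∃ t s : ℕ, 1 ≤ s ∧ t ^ 2 = D * s ^ 2 + 4 ∧ ((t : ℝ) + s * √D) / 2 ≤ B}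

/-- Pairs `(a, b)` with `0 < |a| <= sqrt D`, `-|a| < b <= |a|`, `4 a ∣ b^2 - D`. -/
noncomputable def ND (D : ℕ) : Finset (ℤ × ℤ) :=
  {x ∈ (Finset.Icc (-(Nat.sqrt D : ℤ)) (Nat.sqrt D)) ×ˢ
      (Finset.Icc (-(Nat.sqrt D : ℤ)) (Nat.sqrt D)) |
    x.1 ≠ 0 ∧ -|x.1| < x.2 ∧ x.2 ≤ |x.1| ∧ 4 * x.1 ∣ x.2 ^ 2 - (D : ℤ)}

/-- The weight `1 + log_2 (2 sqrt D / |a|)`. -/
def wt (D : ℕ) (a : ℤ) : ℕ := 1 + Nat.log 2 (Nat.sqrt (4 * D) / a.natAbs)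

open Classical in
/-- The points `w <= L` for which `t^2 = (D0 + w) s^2 + 4` is solvable with `S0 <= s <= 2 S0`. -/
noncomputable def Wset (D0 L S0 : ℕ) : Finset ℕ :=
  {w ∈ Finset.range (L + 1) | ∃ s t : ℕ, S0 ≤ s ∧ s ≤ 2 * S0 ∧ t ^ 2 = (D0 + w) * s ^ 2 + 4}

open Classical in
/-- The points `w <= L` lying on the curve `P(w) s + Q(w) t = 0`. -/
noncomputable def Vset (P Q : ℤ[X]) (D0 L : ℕ) : Finset ℕ :=
  {w ∈ Finset.range (L + 1) | ∃ s t : ℕ, 1 ≤ s ∧ t ^ 2 = (D0 + w) * s ^ 2 + 4 ∧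
    P.eval (w : ℤ) * s + Q.eval (w : ℤ) * t = 0}

end Pool.Agent.Lib.MP401270
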