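import Pool.Agent.Lib.MP_401270_nt.Spec

set_option autoImplicit false

namespace Pool.Agent.Lib.MP401270

open Finset

namespace FekM

/-- The potential of a configuration. -/
def Phi (v : ℤ → ℤ → ℤ) (k : ℤ → ℤ) (T : Finset ℤ) : ℤ :=
  2 * ∑ u ∈ T, k u - ∑ u ∈ T, ∑ w ∈ T.erase u, v u w

theorem Phi_insert (v : ℤ → ℤ → ℤ) (k : ℤ → ℤ) (hv : ∀ a b, v a b = v b a) (T : Finset ℤ) (x : ℤ)
    (hx : x ∉ T) : Phi v k (insert x T) = Phi v k T + 2 * k x - 2 * ∑ y ∈ T, v x y := by
  unfold Phi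
  rw [sum_insert hx, sum_insert hx, erase_insert hx]
  have h1 : ∑ u ∈ T, ∑ w ∈ (insert x T).erase u, v u w =
      ∑ u ∈ T, (∑ w ∈ T.erase u, v u w + v x u) := by
    refine sum_congr rfl fun u hu => ?_
    have hne : u ≠ x := fun h => hx (h ▸ hu)
    rw [erase_insert_of_ne (Ne.symm hne), sum_insert (by simp [hx]), hv x u]
    ring
  rw [h1, sum_add_distrib]
  ring

theorem main (v : ℤ → ℤ → ℤ) (k : ℤ → ℤ) (hv : ∀ a b, v a b = v b a) (n : ℕ) (W : Finset ℤ)
    (hn : n ≤ W.card)
    (H : ∀ U ⊆ W, U.card = n + 1 → ∃ u ∈ U, k u ≤ ∑ y ∈ U.erase u, v u y) :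
    ∃ T ⊆ W, T.card = n ∧ ∀ w ∈ W, w ∉ T → k w ≤ ∑ r ∈ T, v w r := by
  obtain ⟨T, hT, hmax⟩ := Finset.exists_max_image (powersetCard n W) (Phi v k)
    (powersetCard_nonempty.2 hn)
  rw [mem_powersetCard] at hT
  refine ⟨T, hT.1, hT.2, fun w hw hwT => ?_⟩
  obtain ⟨u, hu, hku⟩ := H (insert w T) (insert_subset hw hT.1) (by rw [card_insert_of_notMem hwT, hT.2])
  rcases eq_or_ne u w with rfl | hne
  · rwa [erase_insert hwT] at hku
  have huT : u ∈ T := by
    rcases mem_insert.1 hu with h | h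
    · exact absurd h hne
    · exact h
  have huw : w ∉ T.erase u := fun h => hwT (mem_of_mem_erase h)
  have e1 : insert u (T.erase u) = T := insert_erase huT
  have hm := hmax (insert w (T.erase u)) (by
    rw [mem_powersetCard]
    refine ⟨insert_subset hw ((erase_subset _ _).trans hT.1), ?_⟩
    rw [card_insert_of_notMem huw, card_erase_of_mem huT, hT.2]
    have : 0 < T.card := card_pos.2 ⟨u, huT⟩
    omega)
  have p1 := Phi_insert v k hv (T.erase u) w huw
  have p2 := Phi_insert v k hv (T.erase u) u (notMem_erase _ _)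
  rw [e1] at p2
  have e2 : ∑ r ∈ T, v w r = v w u + ∑ y ∈ T.erase u, v w y := by
    rw [← sum_insert (notMem_erase u T), e1]
  have e3 : ∑ y ∈ (insert w T).erase u, v u y = v u w + ∑ y ∈ T.erase u, v u y := by
    rw [erase_insert_of_ne (Ne.symm hne), sum_insert huw]
  rw [e3] at hku
  rw [e2]
  have := hv u w
  linarith

end FekM

theorem specFEK : SpecFEK := by
  intro p n W k H
  by_cases hn : n ≤ W.card
  · obtain ⟨T, hTW, hTc, hT⟩ := FekM.main (fun a b => (padicValInt p (a - b) : ℤ))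
      (fun a => (k a : ℤ)) (fun a b => by
        have : a - b = -(b - a) := by ring
        simp only [this, padicValInt, Int.natAbs_neg]) n W hn (fun U hU hc => by
          obtain ⟨u, hu, h⟩ := H U hU hc
          exact ⟨u, hu, by exact_mod_cast h⟩)
    have e : T.equivFin.symm = T.equivFin.symm := rfl
    refine ⟨fun i => (T.equivFin.symm (Fin.cast hTc.symm i) : ℤ), fun w hw hne => ?_⟩
    have hwT : w ∉ T := by
      intro hw'
      apply hne (Fin.cast hTc (T.equivFin ⟨w, hw'⟩))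
      simp
    have := hT w hw hwT
    have h2 : ∑ r ∈ T, (padicValInt p (w - r)) =
        ∑ i : Fin n, padicValInt p (w - (T.equivFin.symm (Fin.cast hTc.symm i) : ℤ)) := by
      rw [← Finset.sum_coe_sort T (fun r => padicValInt p (w - r))]
      rw [← Equiv.sum_comp ((finCongr hTc.symm).trans T.equivFin.symm)
        (fun r : T => padicValInt p (w - r))]
      rfl
    rw [← h2]
    exact_mod_cast this
  · push Not at hn
    rcases Nat.eq_zero_or_pos W.card with h0 | h0
    · rw [card_eq_zero] at h0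
      exact ⟨fun _ => 0, fun w hw => by simp [h0] at hw⟩
    · have hne : Nonempty W := by
        obtain ⟨x, hx⟩ := card_pos.1 h0
        exact ⟨⟨x, hx⟩⟩
      refine ⟨fun i => if hi : (i : ℕ) < W.card then (W.equivFin.symm ⟨i, hi⟩ : ℤ) else 0,
        fun w hw hh => ?_⟩
      exfalso
      have hlt : ((W.equivFin ⟨w, hw⟩ : Fin W.card) : ℕ) < n :=
        lt_of_lt_of_le (W.equivFin ⟨w, hw⟩).2 hn.le
      apply hh ⟨(W.equivFin ⟨w, hw⟩ : Fin W.card), hlt⟩
      simp

end Pool.Agent.Lib.MP401270
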