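import Pool.Agent.Lib.MP_401270_nt.Spec

set_option autoImplicit false

namespace Pool.Agent.Lib.MP401270

open Finset Polynomial

namespace IntM

theorem norm_int_eq (p : ℕ) [hp : Fact p.Prime] (z : ℤ) (hz : z ≠ 0) :
    ‖(z : ℚ_[p])‖ = ((p : ℝ) ^ (padicValInt p z))⁻¹ := by
  have h1 : ((z : ℚ) : ℚ_[p]) = (z : ℚ_[p]) := by push_cast; rfl
  rw [← h1, Padic.eq_padicNorm, padicNorm.eq_zpow_of_nonzero (by exact_mod_cast hz)]
  push_cast
  rw [padicValRat.of_int, zpow_neg, zpow_natCast]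

theorem norm_coeff_int (p : ℕ) [hp : Fact p.Prime] (Q : ℤ[X]) (m : ℕ) :
    ‖(Q.map (Int.castRingHom ℚ_[p])).coeff m‖ ≤ 1 := by
  rw [coeff_map]
  exact Padic.norm_int_le_one _

end IntM

theorem specINT : SpecINT := by
  intro p n P U k hp hdeg hnd hU hk
  have : Fact p.Prime := ⟨hp⟩
  by_contra hcon
  push Not at hcon
  apply hnd
  rw [C_dvd_iff_dvd_coeff]
  intro m
  have hp0 : (0 : ℝ) < p := by exact_mod_cast hp.pos
  have hp1 : (1 : ℝ) < p := by exact_mod_cast hp.one_lt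
  set φ := Int.castRingHom ℚ_[p]
  set v : ℤ → ℚ_[p] := fun z => (z : ℚ_[p]) with hv
  have hinj : Set.InjOn v U := fun a _ b _ h => by
    have : (a : ℚ_[p]) = b := h
    exact_mod_cast this
  have hd : (P.map φ).degree < U.card := by
    refine lt_of_le_of_lt degree_map_le ?_
    rw [hU]
    refine lt_of_le_of_lt degree_le_natDegree ?_
    exact_mod_cast Nat.lt_succ_of_le hdeg
  have hint := Lagrange.eq_interpolate hinj hd
  have hcoef : (P.map φ).coeff m = ∑ i ∈ U, (P.map φ).eval (v i) *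
      ((∏ j ∈ U.erase i, (v i - v j))⁻¹ *
        ((∏ j ∈ U.erase i, (X - C j)).map φ).coeff m) := by
    conv_lhs => rw [hint, Lagrange.interpolate_apply, finsetSum_coeff]
    refine sum_congr rfl fun i hi => ?_
    rw [coeff_C_mul, Lagrange.basis]
    congr 1
    have : ∏ j ∈ U.erase i, Lagrange.basisDivisor (v i) (v j) =
        C (∏ j ∈ U.erase i, (v i - v j))⁻¹ * (∏ j ∈ U.erase i, (X - C j)).map φ := by
      rw [← Finset.prod_inv_distrib, map_prod, Polynomial.map_prod, ← prod_mul_distrib]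
      refine prod_congr rfl fun j _ => ?_
      simp [Lagrange.basisDivisor, v, φ]
    rw [this, coeff_C_mul]
  have hlt : ‖(P.map φ).coeff m‖ < 1 := by
    rw [hcoef]
    have hle : ∀ i ∈ U, ‖(P.map φ).eval (v i) * ((∏ j ∈ U.erase i, (v i - v j))⁻¹ *
        ((∏ j ∈ U.erase i, (X - C j)).map φ).coeff m)‖ ≤ (p : ℝ)⁻¹ := by
      intro i hi
      have e1 : (P.map φ).eval (v i) = ((P.eval i : ℤ) : ℚ_[p]) := by
        rw [hv]
        simp [φ]
      have b1 : ‖(P.map φ).eval (v i)‖ ≤ ((p : ℝ) ^ (k i))⁻¹ := by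
        rw [e1]
        have := (Padic.norm_int_le_pow_iff_dvd (P.eval i) (k i)).2 (hk i hi)
        rwa [zpow_neg, zpow_natCast] at this
      have b2 : ‖(∏ j ∈ U.erase i, (v i - v j))⁻¹‖ =
          (p : ℝ) ^ (∑ j ∈ U.erase i, padicValInt p (i - j)) := by
        rw [norm_inv, norm_prod, ← prod_inv_distrib, ← prod_pow_eq_pow_sum]
        refine prod_congr rfl fun j hj => ?_
        have hne : i - j ≠ 0 := sub_ne_zero.2 (Ne.symm (ne_of_mem_erase hj))
        have : v i - v j = ((i - j : ℤ) : ℚ_[p]) := by simp [v]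
        rw [this, IntM.norm_int_eq p _ hne, inv_inv]
      have b3 := IntM.norm_coeff_int p (∏ j ∈ U.erase i, (X - C j)) m
      rw [norm_mul, norm_mul, b2]
      have hki := hcon i hi
      calc ‖(P.map φ).eval (v i)‖ * ((p : ℝ) ^ (∑ j ∈ U.erase i, padicValInt p (i - j)) *
            ‖((∏ j ∈ U.erase i, (X - C j)).map φ).coeff m‖)
          ≤ ((p : ℝ) ^ (k i))⁻¹ * ((p : ℝ) ^ (∑ j ∈ U.erase i, padicValInt p (i - j)) * 1) := by
            gcongr
        _ ≤ (p : ℝ)⁻¹ := by
            rw [mul_one, inv_mul_eq_div, div_le_iff₀ (by positivity)]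
            have : (p : ℝ) ^ (∑ j ∈ U.erase i, padicValInt p (i - j) + 1) ≤ (p : ℝ) ^ (k i) :=
              pow_le_pow_right₀ hp1.le hki
            rw [pow_succ] at this
            rw [inv_mul_eq_div, le_div_iff₀ hp0]
            exact this
    refine lt_of_le_of_lt ?_ (inv_lt_one_of_one_lt₀ hp1)
    exact IsUltrametricDist.norm_sum_le_of_forall_le_of_nonneg (by positivity) hle
  rw [coeff_map] at hlt
  exact (Padic.norm_intCast_lt_one_iff.1 hlt)

end Pool.Agent.Lib.MP401270
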