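import Pool.Agent.Lib.MP_401270_nt.Spec

/-! # Module RED: division by the greatest common divisor; the resultant -/

set_option autoImplicit false

namespace Pool.Agent.Lib.MP401270

open Polynomial Finset

namespace RedM

/-- Coefficients of a factor of an integral polynomial. -/
lemma coeff_factor (E H : ℕ) (P G P1 : ℤ[X]) (hE : 1 ≤ E) (hP : P = G * P1) (hG : G ≠ 0)
    (hdeg : P.natDegree < E) (hH : ∀ i, |P.coeff i| ≤ (H : ℤ)) (i : ℕ) :
    |P1.coeff i| ≤ (2 ^ E * E * H : ℤ) := by
  by_cases hP1 : P1 = 0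
  · rw [hP1]
    simp
    positivity
  have hP0 : P ≠ 0 := by
    rw [hP]
    exact mul_ne_zero hG hP1
  have hdeg1 : P1.natDegree < E := by
    have : P.natDegree = G.natDegree + P1.natDegree := by
      rw [hP, Polynomial.natDegree_mul hG hP1]
    omega
  set φ := Int.castRingHom ℂ with hφ
  have h1 := norm_coeff_le_choose_mul_mahlerMeasure_of_one_le_mahlerMeasure i (P1.map φ) (G.map φ)
    (Polynomial.one_le_mahlerMeasure_of_ne_zero hG)
  have h2 : P1.map φ * G.map φ = P.map φ := by
    rw [hP, Polynomial.map_mul, mul_comm]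
  rw [h2] at h1
  have h3 : (P.map φ).mahlerMeasure ≤ E * H := by
    refine (mahlerMeasure_le_sum_norm_coeff _).trans ?_
    rw [Polynomial.sum_def]
    calc ∑ n ∈ (P.map φ).support, ‖(P.map φ).coeff n‖
        ≤ ∑ n ∈ Finset.range E, ‖(P.map φ).coeff n‖ := by
          apply Finset.sum_le_sum_of_subset_of_nonneg
          · intro n hn
            rw [Finset.mem_range]
            have h4 := Polynomial.le_natDegree_of_mem_supp n hn
            have h5 := Polynomial.natDegree_map_le (f := φ) (p := P)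
            omega
          · intro _ _ _
            positivity
      _ ≤ ∑ n ∈ Finset.range E, (H : ℝ) := by
          apply Finset.sum_le_sum
          intro n _
          rw [Polynomial.coeff_map]
          have h4 : ‖φ (P.coeff n)‖ = ((|P.coeff n| : ℤ) : ℝ) := by
            rw [hφ, eq_intCast, Complex.norm_intCast]
            push_cast
            rfl
          rw [h4]
          exact_mod_cast hH n
      _ = E * H := by rw [Finset.sum_const, Finset.card_range, nsmul_eq_mul]
  have h4 : ‖(P1.map φ).coeff i‖ = ((|P1.coeff i| : ℤ) : ℝ) := by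
    rw [Polynomial.coeff_map, hφ, eq_intCast, Complex.norm_intCast]
    push_cast
    rfl
  have h5 : (((P1.map φ).natDegree.choose i : ℕ) : ℝ) ≤ 2 ^ E := by
    have h6 : (P1.map φ).natDegree.choose i ≤ 2 ^ (P1.map φ).natDegree := Nat.choose_le_two_pow _ _
    have h7 := Polynomial.natDegree_map_le (f := φ) (p := P1)
    have h8 : 2 ^ (P1.map φ).natDegree ≤ 2 ^ E := Nat.pow_le_pow_right (by norm_num) (by omega)
    exact_mod_cast h6.trans h8
  rw [h4] at h1
  have h6 : ((|P1.coeff i| : ℤ) : ℝ) ≤ 2 ^ E * (E * H) := by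
    refine h1.trans ?_
    apply mul_le_mul h5 h3 (mahlerMeasure_nonneg _) (by positivity)
  have h7 : ((|P1.coeff i| : ℤ) : ℝ) ≤ ((2 ^ E * E * H : ℤ) : ℝ) := by
    refine h6.trans (le_of_eq ?_)
    push_cast
    ring
  exact_mod_cast h7

/-- Gauss' lemma for relatively prime integral polynomials. -/
lemma coprime_rat {P Q : ℤ[X]} (h : IsRelPrime P Q) (h0 : P ≠ 0 ∨ Q ≠ 0) :
    IsCoprime (P.map (Int.castRingHom ℚ)) (Q.map (Int.castRingHom ℚ)) := by
  apply IsRelPrime.isCoprime
  intro d hd1 hd2
  have hinj : Function.Injective (Int.castRingHom ℚ) := RingHom.injective_int _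
  have hd0 : d ≠ 0 := by
    rintro rfl
    rw [zero_dvd_iff] at hd1 hd2
    rcases h0 with h0 | h0
    · exact h0 ((Polynomial.map_eq_zero_iff hinj).1 hd1)
    · exact h0 ((Polynomial.map_eq_zero_iff hinj).1 hd2)
  obtain ⟨b, hb, hbs⟩ := IsLocalization.integerNormalization_spec (nonZeroDivisors ℤ) d
  set d' := IsLocalization.integerNormalization (nonZeroDivisors ℤ) d with hd'
  have hb0 : b ≠ 0 := nonZeroDivisors.ne_zero hb
  have hd'0 : d' ≠ 0 := by
    intro h1
    rw [h1, Polynomial.map_zero] at hbs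
    have h2 : (b : ℤ) • d = 0 := hbs.symm
    rcases smul_eq_zero.1 h2 with h3 | h3
    · exact hb0 h3
    · exact hd0 h3
  -- the primitive part
  set e := d'.primPart with he
  have hep : e.IsPrimitive := Polynomial.isPrimitive_primPart d'
  have hed : e.map (Int.castRingHom ℚ) ∣ d := by
    have h1 : d'.map (Int.castRingHom ℚ) = (b : ℤ) • d := hbs
    have h2 : d'.map (Int.castRingHom ℚ)
        = C ((d'.content : ℤ) : ℚ) * e.map (Int.castRingHom ℚ) := by
      conv_lhs => rw [d'.eq_C_content_mul_primPart]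
      rw [Polynomial.map_mul, Polynomial.map_C]
      simp [he]
    have h3 : (b : ℤ) • d = C ((b : ℤ) : ℚ) * d := by
      rw [zsmul_eq_mul]
      simp
    have hbu : IsUnit (C ((b : ℤ) : ℚ)) :=
      Polynomial.isUnit_C.2 (isUnit_iff_ne_zero.2 (by exact_mod_cast hb0))
    have h4 : e.map (Int.castRingHom ℚ) ∣ C ((b : ℤ) : ℚ) * d := by
      rw [← h3, ← h1, h2]
      exact dvd_mul_left _ _
    exact (hbu.dvd_mul_left).1 h4
  have hde : d ∣ e.map (Int.castRingHom ℚ) := by
    have h1 : d'.map (Int.castRingHom ℚ) = (b : ℤ) • d := hbs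
    have h2 : d'.map (Int.castRingHom ℚ)
        = C ((d'.content : ℤ) : ℚ) * e.map (Int.castRingHom ℚ) := by
      conv_lhs => rw [d'.eq_C_content_mul_primPart]
      rw [Polynomial.map_mul, Polynomial.map_C]
      simp [he]
    have hcu : IsUnit (C ((d'.content : ℤ) : ℚ)) := by
      apply Polynomial.isUnit_C.2
      rw [isUnit_iff_ne_zero]
      have : d'.content ≠ 0 := by
        rw [Ne, Polynomial.content_eq_zero_iff]
        exact hd'0
      exact_mod_cast this
    have h4 : d ∣ C ((d'.content : ℤ) : ℚ) * e.map (Int.castRingHom ℚ) := by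
      rw [← h2, h1, zsmul_eq_mul]
      exact dvd_mul_left _ _
    exact (hcu.dvd_mul_left).1 h4
  have key : ∀ F : ℤ[X], d ∣ F.map (Int.castRingHom ℚ) → e ∣ F := by
    intro F hF
    exact (IsPrimitive.Int.dvd_iff_map_cast_dvd_map_cast e F hep).2 (hed.trans hF)
  have hu : IsUnit e := h (key P hd1) (key Q hd2)
  exact isUnit_of_dvd_unit hde (hu.map (Polynomial.mapRingHom (Int.castRingHom ℚ)))

lemma sylvester_le (f g : ℤ[X]) (m n : ℕ) (B : ℤ) (hB : 0 ≤ B) (hf : ∀ i, |f.coeff i| ≤ B)
    (hg : ∀ i, |g.coeff i| ≤ B) (i j : Fin (m + n)) : |sylvester f g m n i j| ≤ B := by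
  unfold sylvester
  rw [Matrix.of_apply]
  induction j using Fin.addCases with
  | left j =>
    rw [Fin.addCases_left]
    split_ifs
    · exact hg _
    · simpa using hB
  | right j =>
    rw [Fin.addCases_right]
    split_ifs
    · exact hf _
    · simpa using hB

end RedM

open RedM in
theorem specRED : SpecRED := by
  classical
  intro E H P Q hE hH h0 hP hQ hPc hQc
  obtain ⟨P1, Q1, G, hrel, hGP, hGQ⟩ : ∃ P1 Q1 G : ℤ[X], IsRelPrime P1 Q1 ∧ G * P1 = P ∧
      G * Q1 = Q := by
    rcases h0 with h0 | h0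
    · exact UniqueFactorizationMonoid.exists_reduced_factors P h0 Q
    · exact UniqueFactorizationMonoid.exists_reduced_factors' P Q h0
  have hG : G ≠ 0 := by
    rintro rfl
    rw [zero_mul] at hGP hGQ
    rcases h0 with h0 | h0
    · exact h0 hGP.symm
    · exact h0 hGQ.symm
  have h10 : P1 ≠ 0 ∨ Q1 ≠ 0 := by
    rcases h0 with h0 | h0
    · left
      rintro rfl
      exact h0 (by rw [← hGP, mul_zero])
    · right
      rintro rfl
      exact h0 (by rw [← hGQ, mul_zero])
  have hdegP : ∀ F F1 : ℤ[X], G * F1 = F → F.natDegree < E → F1.natDegree < E := by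
    intro F F1 hF hd
    by_cases h1 : F1 = 0
    · rw [h1]
      simp
      omega
    · rw [← hF, Polynomial.natDegree_mul hG h1] at hd
      omega
  have hdegG : G.natDegree < E := by
    rcases h10 with h1 | h1
    · rw [← hGP, Polynomial.natDegree_mul hG h1] at hP
      omega
    · rw [← hGQ, Polynomial.natDegree_mul hG h1] at hQ
      omega
  have hP1d := hdegP P P1 hGP hP
  have hQ1d := hdegP Q Q1 hGQ hQ
  have hP1c := coeff_factor E H P G P1 hE hGP.symm hG hP hPc
  have hQ1c := coeff_factor E H Q G Q1 hE hGQ.symm hG hQ hQc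
  have hprime : ∀ p : ℕ, p.Prime → ¬ (C (p : ℤ) ∣ P1 ∧ C (p : ℤ) ∣ Q1) := by
    rintro p hp ⟨h1, h2⟩
    have h3 : IsUnit (C (p : ℤ)) := hrel h1 h2
    rw [Polynomial.isUnit_C, Int.isUnit_iff_natAbs_eq] at h3
    simp at h3
    exact hp.one_lt.ne' h3
  have hX : (1 : ℤ) ≤ 2 ^ (E + 1) * E ^ 2 * H := by
    have h1 : (1 : ℤ) ≤ 2 ^ (E + 1) := one_le_pow₀ (by norm_num)
    have h2 : (1 : ℤ) ≤ (E : ℤ) ^ 2 := one_le_pow₀ (by exact_mod_cast hE)
    have h3 : (1 : ℤ) ≤ H := by exact_mod_cast hH
    nlinarith [mul_le_mul h1 h2 (by norm_num) (by positivity)]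
  by_cases hconst : P1.natDegree = 0 ∧ Q1.natDegree = 0
  · refine ⟨G, P1, Q1, 1, hGP.symm, hGQ.symm, hG, hdegG, hP1d, hQ1d, one_ne_zero, ?_, ?_, hprime⟩
    · rw [abs_one]
      exact one_le_pow₀ hX
    · intro w k hk1 hk2
      have e1 := Polynomial.eq_C_of_natDegree_eq_zero hconst.1
      have e2 := Polynomial.eq_C_of_natDegree_eq_zero hconst.2
      rw [e1, Polynomial.eval_C] at hk1
      rw [e2, Polynomial.eval_C] at hk2
      have h1 : C k ∣ P1 := by
        rw [e1]
        exact map_dvd C hk1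
      have h2 : C k ∣ Q1 := by
        rw [e2]
        exact map_dvd C hk2
      have h3 : IsUnit (C k) := hrel h1 h2
      exact (Polynomial.isUnit_C.1 h3).dvd
  · have hH' : P1.natDegree ≠ 0 ∨ Q1.natDegree ≠ 0 := by
      by_contra hcon
      push Not at hcon
      exact hconst hcon
    refine ⟨G, P1, Q1, resultant P1 Q1, hGP.symm, hGQ.symm, hG, hdegG, hP1d, hQ1d, ?_, ?_, ?_,
      hprime⟩
    · intro hres
      have hinj : Function.Injective (Int.castRingHom ℚ) := RingHom.injective_int _
      have h1 : resultant (P1.map (Int.castRingHom ℚ)) (Q1.map (Int.castRingHom ℚ)) = 0 := by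
        rw [Polynomial.natDegree_map_eq_of_injective hinj,
          Polynomial.natDegree_map_eq_of_injective hinj, resultant_map_map, hres]
        simp
      rw [resultant_eq_zero_iff] at h1
      exact h1.2 (coprime_rat hrel h10)
    · set B : ℤ := 2 ^ E * E * H with hB
      have hB0 : 0 ≤ B := by positivity
      have hdet := Matrix.det_le (A := sylvester P1 Q1 P1.natDegree Q1.natDegree)
        (abv := AbsoluteValue.abs) (x := B)
        (fun i j => sylvester_le P1 Q1 _ _ B hB0 hP1c hQ1c i j)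
      have hd2 : |resultant P1 Q1| ≤ ((P1.natDegree + Q1.natDegree).factorial : ℤ) *
          B ^ (P1.natDegree + Q1.natDegree) := by
        have := hdet
        rw [Fintype.card_fin, nsmul_eq_mul] at this
        exact this
      set t := P1.natDegree + Q1.natDegree with ht
      have htE : t ≤ 2 * E := by omega
      have hfac : ((t.factorial : ℕ) : ℤ) ≤ (2 * E : ℤ) ^ t := by
        have h1 : t.factorial ≤ t ^ t := Nat.factorial_le_pow t
        have h2 : t ^ t ≤ (2 * E) ^ t := Nat.pow_le_pow_left htE t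
        exact_mod_cast h1.trans h2
      calc |resultant P1 Q1| ≤ (t.factorial : ℤ) * B ^ t := hd2
        _ ≤ (2 * E : ℤ) ^ t * B ^ t := mul_le_mul_of_nonneg_right hfac (by positivity)
        _ = (2 ^ (E + 1) * E ^ 2 * H : ℤ) ^ t := by
            rw [← mul_pow]
            congr 1
            rw [hB]
            ring
        _ ≤ (2 ^ (E + 1) * E ^ 2 * H : ℤ) ^ (2 * E) := pow_le_pow_right₀ hX htE
    · intro w k hk1 hk2
      obtain ⟨p, q, -, -, hpq⟩ := exists_mul_add_mul_eq_C_resultant P1 Q1 le_rfl le_rfl hH'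
      have h1 := congrArg (fun F => Polynomial.eval w F) hpq
      simp only [Polynomial.eval_add, Polynomial.eval_mul, Polynomial.eval_C] at h1
      rw [← h1]
      exact dvd_add (hk1.mul_right _) (hk2.mul_right _)

end Pool.Agent.Lib.MP401270
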