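import Pool.Agent.Lib.MP_401270_nt.Spec

/-! # Module SMO: Rankin's trick -/

set_option autoImplicit false

namespace Pool.Agent.Lib.MP401270

open Polynomial Finset

namespace SmoM

/-- the completely multiplicative function `n ^ (σ - 1)` -/
noncomputable def fh (σ : ℝ) : ℕ →* ℝ where
  toFun n := (n : ℝ) ^ (σ - 1)
  map_one' := by simp
  map_mul' m n := by
    push_cast
    exact Real.mul_rpow (by positivity) (by positivity)

lemma fh_apply (σ : ℝ) (n : ℕ) : fh σ n = (n : ℝ) ^ (σ - 1) := rfl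

lemma sum_pow_le (σ : ℝ) (h0 : 0 < σ) (h1 : σ ≤ 1) (z : ℕ) :
    ∑ n ∈ Finset.Icc 1 z, (n : ℝ) ^ (σ - 1) ≤ (z : ℝ) ^ σ / σ := by
  induction z with
  | zero => simp; positivity
  | succ z ih =>
    rw [Finset.sum_Icc_succ_top (by omega)]
    have hz : (0 : ℝ) < ((z + 1 : ℕ) : ℝ) := by positivity
    set w : ℝ := ((z + 1 : ℕ) : ℝ) with hw
    have hzw : (z : ℝ) = w * (1 + -(1 / w)) := by
      have : w = z + 1 := by rw [hw]; push_cast; ring
      field_simp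
      rw [this]
      ring
    have hb := rpow_one_add_le_one_add_mul_self (s := -(1 / w)) (by
      have : 1 / w ≤ 1 := by
        rw [div_le_one hz, hw]
        push_cast
        linarith [(Nat.cast_nonneg z : (0 : ℝ) ≤ z)]
      linarith) h0.le h1
    have hnn : 0 ≤ 1 + -(1 / w) := by
      have : 1 / w ≤ 1 := by
        rw [div_le_one hz, hw]
        push_cast
        linarith [(Nat.cast_nonneg z : (0 : ℝ) ≤ z)]
      linarith
    have h2 : (z : ℝ) ^ σ ≤ w ^ σ - σ * w ^ (σ - 1) := by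
      rw [hzw, Real.mul_rpow hz.le hnn]
      have h3 : w ^ σ * (1 + -(1 / w)) ^ σ ≤ w ^ σ * (1 + σ * -(1 / w)) :=
        mul_le_mul_of_nonneg_left hb (by positivity)
      have h4 : w ^ (σ - 1) = w ^ σ / w := by
        rw [Real.rpow_sub_one hz.ne']
      rw [h4]
      refine h3.trans (le_of_eq ?_)
      field_simp
      ring
    have h5 : (z : ℝ) ^ σ / σ + w ^ (σ - 1) ≤ w ^ σ / σ := by
      rw [div_add' _ _ _ h0.ne', div_le_div_iff_of_pos_right h0]
      linarith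
    linarith

lemma sum_T_le (T : Finset ℕ) (σ : ℝ) (h0 : 0 < σ) (h1 : σ ≤ 1) (hT : ∀ p ∈ T, p.Prime) :
    ∑ p ∈ T, (p : ℝ) ^ (σ - 1) ≤ 2 * ((T.card : ℝ) + 1) ^ σ / σ := by
  classical
  set z : ℕ := T.card + 1 with hz
  have hzr : ((T.card : ℝ) + 1) = (z : ℝ) := by rw [hz]; push_cast; ring
  have hzpos : (0 : ℝ) < z := by rw [← hzr]; positivity
  rw [hzr, ← Finset.sum_filter_add_sum_filter_not T (fun p => p ≤ z)]
  have e1 : ∑ p ∈ T with p ≤ z, (p : ℝ) ^ (σ - 1) ≤ (z : ℝ) ^ σ / σ := by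
    refine le_trans ?_ (sum_pow_le σ h0 h1 z)
    apply Finset.sum_le_sum_of_subset_of_nonneg
    · intro p hp
      rw [Finset.mem_filter] at hp
      rw [Finset.mem_Icc]
      exact ⟨(hT p hp.1).one_lt.le, hp.2⟩
    · intro p _ _
      positivity
  have e2 : ∑ p ∈ T with ¬ p ≤ z, (p : ℝ) ^ (σ - 1) ≤ (z : ℝ) ^ σ / σ := by
    have h3 : ∑ p ∈ T with ¬ p ≤ z, (p : ℝ) ^ (σ - 1) ≤ ∑ p ∈ T with ¬ p ≤ z, (z : ℝ) ^ (σ - 1) := by
      apply Finset.sum_le_sum
      intro p hp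
      rw [Finset.mem_filter] at hp
      apply Real.rpow_le_rpow_of_nonpos hzpos
      · exact_mod_cast (not_le.1 hp.2).le
      · linarith
    rw [Finset.sum_const, nsmul_eq_mul] at h3
    have h4 : ((T.filter (fun p => ¬ p ≤ z)).card : ℝ) ≤ z := by
      have : (T.filter (fun p => ¬ p ≤ z)).card ≤ T.card := Finset.card_filter_le _ _
      have h5 : (T.filter (fun p => ¬ p ≤ z)).card ≤ z := by omega
      exact_mod_cast h5
    have h6 : (z : ℝ) * (z : ℝ) ^ (σ - 1) = (z : ℝ) ^ σ := by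
      rw [Real.rpow_sub_one hzpos.ne']
      field_simp
    have h7 : ((T.filter (fun p => ¬ p ≤ z)).card : ℝ) * (z : ℝ) ^ (σ - 1) ≤ (z : ℝ) ^ σ := by
      rw [← h6]
      exact mul_le_mul_of_nonneg_right h4 (by positivity)
    have h8 : (z : ℝ) ^ σ ≤ (z : ℝ) ^ σ / σ := by
      rw [le_div_iff₀ h0]
      have : 0 ≤ (z : ℝ) ^ σ := by positivity
      nlinarith
    linarith
  have e3 : 2 * (z : ℝ) ^ σ / σ = (z : ℝ) ^ σ / σ + (z : ℝ) ^ σ / σ := by ring
  rw [e3]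
  linarith

lemma factor_le {y : ℝ} (h0 : 0 ≤ y) (h1 : y ≤ 3 / 4) : (1 - y)⁻¹ ≤ Real.exp (4 * y) := by
  have h2 : (0 : ℝ) < 1 - y := by linarith
  have h3 : (1 - y)⁻¹ ≤ 1 + 4 * y := by
    rw [inv_le_iff_one_le_mul₀ h2]
    nlinarith
  have h4 := Real.add_one_le_exp (4 * y)
  linarith

lemma prime_pow_le {p : ℕ} (hp : p.Prime) {σ : ℝ} (h1 : σ ≤ 1 / 2) :
    (p : ℝ) ^ (σ - 1) ≤ 3 / 4 := by
  have hp1 : (2 : ℝ) ≤ p := by exact_mod_cast hp.two_le
  have e1 : (p : ℝ) ^ (σ - 1) ≤ (p : ℝ) ^ (-(1 / 2) : ℝ) :=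
    Real.rpow_le_rpow_of_exponent_le (by linarith) (by linarith)
  have e2 : (p : ℝ) ^ (-(1 / 2) : ℝ) ≤ (2 : ℝ) ^ (-(1 / 2) : ℝ) :=
    Real.rpow_le_rpow_of_nonpos (by norm_num) hp1 (by norm_num)
  have e3 : (2 : ℝ) ^ (-(1 / 2) : ℝ) = (√2)⁻¹ := by
    rw [Real.rpow_neg (by norm_num), ← Real.sqrt_eq_rpow]
  have e4 : (√2)⁻¹ ≤ 3 / 4 := by
    rw [inv_le_comm₀ (by positivity) (by norm_num)]
    apply Real.le_sqrt_of_sq_le
    norm_num
  linarith [e3 ▸ e2]

end SmoM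

open SmoM in
theorem specSMO : SpecSMO := by
  classical
  intro T Y σ hY h0 h1 hT
  have hY' : (0 : ℝ) < Y := by
    have : 0 < Y := by omega
    exact_mod_cast this
  set s := (Finset.Ico Y (Y ^ 2)).filter (fun b => b.primeFactors ⊆ T) with hs
  have hmem : ∀ b ∈ s, Y ≤ b ∧ b ∈ Nat.factoredNumbers T := by
    intro b hb
    rw [hs, Finset.mem_filter, Finset.mem_Ico] at hb
    refine ⟨hb.1.1, ?_⟩
    rw [Nat.mem_factoredNumbers_iff_primeFactors_subset]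
    exact ⟨by omega, hb.2⟩
  have hsum := (EulerProduct.summable_and_hasSum_factoredNumbers_prod_filter_prime_geometric
    (f := fh σ) (fun {p} hp => by
      rw [fh_apply, Real.norm_of_nonneg (by positivity)]
      exact Real.rpow_lt_one_of_one_lt_of_neg (by exact_mod_cast hp.one_lt) (by linarith)) T).2
  have hle1 : ∑ b ∈ s, (b : ℝ) ^ (σ - 1) ≤ ∏ p ∈ T with p.Prime, (1 - fh σ p)⁻¹ := by
    have h2 : ∑ b ∈ s.subtype (· ∈ Nat.factoredNumbers T), fh σ (b : ℕ)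
        = ∑ b ∈ s, (b : ℝ) ^ (σ - 1) :=
      Finset.sum_subtype_of_mem (fun b => fh σ b) (fun b hb => (hmem b hb).2)
    rw [← h2]
    exact sum_le_hasSum _ (fun b _ => by rw [fh_apply]; positivity) hsum
  have hle2 : ∏ p ∈ T with p.Prime, (1 - fh σ p)⁻¹
      ≤ Real.exp (8 * ((T.card : ℝ) + 1) ^ σ / σ) := by
    rw [Finset.filter_true_of_mem hT]
    calc ∏ p ∈ T, (1 - fh σ p)⁻¹ ≤ ∏ p ∈ T, Real.exp (4 * (p : ℝ) ^ (σ - 1)) := by
          apply Finset.prod_le_prod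
          · intro p hp
            rw [fh_apply]
            have := prime_pow_le (hT p hp) h1
            apply inv_nonneg.2
            linarith
          · intro p hp
            rw [fh_apply]
            exact factor_le (by positivity) (prime_pow_le (hT p hp) h1)
      _ = Real.exp (4 * ∑ p ∈ T, (p : ℝ) ^ (σ - 1)) := by
          rw [← Real.exp_sum, Finset.mul_sum]
      _ ≤ Real.exp (8 * ((T.card : ℝ) + 1) ^ σ / σ) := by
          apply Real.exp_le_exp.2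
          have := sum_T_le T σ h0 (by linarith) hT
          have e : 8 * ((T.card : ℝ) + 1) ^ σ / σ = 4 * (2 * ((T.card : ℝ) + 1) ^ σ / σ) := by ring
          rw [e]
          linarith
  have hterm : ∀ b ∈ s, 1 / (b : ℝ) ≤ (Y : ℝ) ^ (-σ) * (b : ℝ) ^ (σ - 1) := by
    intro b hb
    have hb1 := (hmem b hb).1
    have hbY : (Y : ℝ) ≤ b := by exact_mod_cast hb1
    have hb0 : (0 : ℝ) < b := lt_of_lt_of_le hY' hbY
    rw [Real.rpow_sub_one hb0.ne', Real.rpow_neg hY'.le, ← mul_div_assoc]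
    apply div_le_div_of_nonneg_right _ hb0.le
    rw [← div_eq_inv_mul, le_div_iff₀ (by positivity), one_mul]
    exact Real.rpow_le_rpow hY'.le hbY h0.le
  calc ∑ b ∈ s, 1 / (b : ℝ) ≤ ∑ b ∈ s, (Y : ℝ) ^ (-σ) * (b : ℝ) ^ (σ - 1) :=
        Finset.sum_le_sum hterm
    _ = (Y : ℝ) ^ (-σ) * ∑ b ∈ s, (b : ℝ) ^ (σ - 1) := by rw [Finset.mul_sum]
    _ ≤ (Y : ℝ) ^ (-σ) * Real.exp (8 * ((T.card : ℝ) + 1) ^ σ / σ) :=
        mul_le_mul_of_nonneg_left (hle1.trans hle2) (by positivity)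

end Pool.Agent.Lib.MP401270
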