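import Pool.Agent.Lib.MP_401270_nt.Spec

/-! # Module SQ: Taylor polynomials of the square root -/

set_option autoImplicit false

namespace Pool.Agent.Lib.MP401270

open Polynomial Finset

namespace SqM

/-- binomial coefficients of `1/2` -/
noncomputable def bt (m : ℕ) : ℝ := Ring.choose (1 / 2 : ℝ) m

lemma bt_succ (m : ℕ) : bt (m + 1) * (m + 1) = bt m * (1 / 2 - m) := by
  have h1 := Ring.descPochhammer_eq_factorial_smul_choose (1 / 2 : ℝ) (m + 1)
  have h2 := Ring.descPochhammer_eq_factorial_smul_choose (1 / 2 : ℝ) m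
  rw [descPochhammer_succ_right, Polynomial.smeval_mul, h2] at h1
  have h3 : ((X : ℤ[X]) - (m : ℤ[X])).smeval (1 / 2 : ℝ) = 1 / 2 - m := by
    rw [Polynomial.smeval_sub, Polynomial.smeval_X, Polynomial.smeval_natCast]
    simp
  rw [h3, Nat.factorial_succ] at h1
  simp only [nsmul_eq_mul] at h1
  push_cast at h1
  have h4 : (m.factorial : ℝ) ≠ 0 := by exact_mod_cast Nat.factorial_ne_zero m
  have h5 : (m.factorial : ℝ) * (bt (m + 1) * (m + 1)) = m.factorial * (bt m * (1 / 2 - m)) := by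
    unfold bt
    linear_combination -h1
  exact mul_left_cancel₀ h4 h5

lemma bt_le (m : ℕ) : |bt m| ≤ 1 := by
  induction m with
  | zero => simp [bt]
  | succ m ih =>
    have h1 := congrArg abs (bt_succ m)
    rw [abs_mul, abs_mul] at h1
    have h2 : |(m : ℝ) + 1| = m + 1 := abs_of_pos (by positivity)
    have h3 : |(1 / 2 : ℝ) - m| ≤ m + 1 := by
      rw [abs_le]
      constructor <;> linarith [(Nat.cast_nonneg m : (0 : ℝ) ≤ m)]
    rw [h2] at h1
    have h4 : |bt (m + 1)| * ((m : ℝ) + 1) ≤ 1 * (m + 1) := by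
      rw [h1]
      exact mul_le_mul ih h3 (abs_nonneg _) (by norm_num)
    exact le_of_mul_le_mul_right h4 (by positivity)

lemma has_sum {x : ℝ} (h0 : 0 ≤ x) (h1 : x < 1) : HasSum (fun m => bt m * x ^ m) (√(1 + x)) := by
  have h := (Real.one_add_rpow_hasFPowerSeriesOnBall_zero (a := 1 / 2)).hasSum (y := x) (by
    rw [← ENNReal.ofReal_one, Metric.eball_ofReal]
    simp [abs_of_nonneg h0, h1])
  rw [zero_add] at h
  rw [Real.sqrt_eq_rpow]
  have h5 : (fun n => (binomialSeries ℝ (1 / 2 : ℝ) n) fun _ => x) = fun m => bt m * x ^ m := by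
    funext m
    rw [binomialSeries_apply]
    simp [bt]
  rw [h5] at h
  exact h

lemma tail {x : ℝ} (h0 : 0 ≤ x) (h1 : 2 * x ≤ 1) (M : ℕ) :
    |√(1 + x) - ∑ m ∈ Finset.range M, bt m * x ^ m| ≤ 2 * x ^ M := by
  have hx1 : x < 1 := by linarith
  have hs := has_sum h0 hx1
  have h2 := hs.summable.sum_add_tsum_nat_add M
  rw [hs.tsum_eq] at h2
  have h3 : √(1 + x) - ∑ m ∈ Finset.range M, bt m * x ^ m = ∑' i, bt (i + M) * x ^ (i + M) := by
    rw [← h2]
    ring
  rw [h3]
  have hg : Summable (fun i : ℕ => x ^ i * x ^ M) :=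
    (summable_geometric_of_lt_one h0 hx1).mul_right _
  have hle : ∀ i : ℕ, ‖bt (i + M) * x ^ (i + M)‖ ≤ x ^ i * x ^ M := by
    intro i
    rw [Real.norm_eq_abs, abs_mul, abs_of_nonneg (pow_nonneg h0 _), pow_add]
    have := bt_le (i + M)
    have h5 : 0 ≤ x ^ i * x ^ M := by positivity
    nlinarith
  have h4 := tsum_of_norm_bounded hg.hasSum hle
  rw [Real.norm_eq_abs] at h4
  refine h4.trans ?_
  rw [tsum_mul_right, tsum_geometric_of_lt_one h0 hx1]
  have h5 : (1 - x)⁻¹ ≤ 2 := by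
    rw [inv_le_comm₀ (by linarith) (by norm_num)]
    linarith
  exact mul_le_mul_of_nonneg_right h5 (by positivity)

end SqM

open SqM in
theorem specSQ : SpecSQ := by
  intro D M hD
  have hD' : (0 : ℝ) < D := by exact_mod_cast hD
  refine ⟨fun m => √D * bt m / (D : ℝ) ^ m, ?_, ?_⟩
  · intro m
    rw [abs_div, abs_mul, abs_of_nonneg (Real.sqrt_nonneg _), abs_of_pos (pow_pos hD' m)]
    apply div_le_div_of_nonneg_right _ (pow_pos hD' m).le
    have := bt_le m
    have h1 := Real.sqrt_nonneg (D : ℝ)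
    nlinarith
  · intro w hw hw2
    have h1 : √((D : ℝ) + w) = √D * √(1 + w / D) := by
      rw [← Real.sqrt_mul hD'.le]
      congr 1
      field_simp
    have h2 : ∑ m ∈ Finset.range M, √D * bt m / (D : ℝ) ^ m * w ^ m
        = √D * ∑ m ∈ Finset.range M, bt m * (w / D) ^ m := by
      rw [Finset.mul_sum]
      refine Finset.sum_congr rfl (fun m _ => ?_)
      rw [div_pow]
      ring
    rw [h1, h2, ← mul_sub, abs_mul, abs_of_nonneg (Real.sqrt_nonneg _)]
    have h3 := tail (x := w / D) (by positivity) (by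
      rw [← mul_div_assoc, div_le_one hD']
      exact hw2) M
    have h4 := mul_le_mul_of_nonneg_left h3 (Real.sqrt_nonneg (D : ℝ))
    linarith

end Pool.Agent.Lib.MP401270
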