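import Pool.Agent.Lib.MP_401270_nt.Spec

set_option autoImplicit false

namespace Pool.Agent.Lib.MP401270

open Finset Polynomial

namespace ValM

/-- Integers of `[0, L]` that are pairwise congruent modulo `b`. -/
theorem card_cong (L b : ℕ) (hb : 1 ≤ b) (Z : Finset ℤ) (h0 : ∀ z ∈ Z, 0 ≤ z ∧ z ≤ (L : ℤ))
    (hc : ∀ z ∈ Z, ∀ z' ∈ Z, (b : ℤ) ∣ z - z') : Z.card ≤ L / b + 1 := by
  have hb' : (0 : ℤ) < b := by exact_mod_cast hb
  have h1 : Z.card ≤ (Finset.range (L / b + 1)).card := by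
    refine Finset.card_le_card_of_injOn (fun z => (z / b).toNat) ?_ ?_
    · intro z hz
      obtain ⟨h1, h2⟩ := h0 z hz
      have h3 : 0 ≤ z / (b : ℤ) := Int.ediv_nonneg h1 hb'.le
      have h4 : z / (b : ℤ) ≤ (L : ℤ) / b := Int.ediv_le_ediv hb' h2
      have h5 : ((z / (b : ℤ)).toNat : ℤ) = z / b := Int.toNat_of_nonneg h3
      simp only [coe_range, Set.mem_Iio]
      have h6 : ((z / (b : ℤ)).toNat : ℤ) ≤ ((L / b : ℕ) : ℤ) := by
        rw [h5]
        push_cast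
        exact h4
      have h7 : (z / (b : ℤ)).toNat ≤ L / b := by exact_mod_cast h6
      omega
    · intro z hz z' hz' he
      have h3 : 0 ≤ z / (b : ℤ) := Int.ediv_nonneg (h0 z hz).1 hb'.le
      have h3' : 0 ≤ z' / (b : ℤ) := Int.ediv_nonneg (h0 z' hz').1 hb'.le
      have he' : z / (b : ℤ) = z' / b := by
        have h5 : ((z / (b : ℤ)).toNat : ℤ) = z / b := Int.toNat_of_nonneg h3
        have h5' : ((z' / (b : ℤ)).toNat : ℤ) = z' / b := Int.toNat_of_nonneg h3'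
        simp only at he
        rw [← h5, ← h5', he]
      have hm : z % (b : ℤ) = z' % b := Int.modEq_iff_dvd.2 (hc z' hz' z hz)
      have e1 := Int.emod_add_mul_ediv z b
      have e2 := Int.emod_add_mul_ediv z' b
      rw [hm, he'] at e1
      linarith
  simpa using h1

/-- A `Y`-smooth number `m >= Y` has a divisor in `[Y, Y^2)`. -/
theorem smooth_div (Y m : ℕ) (hY : 2 ≤ Y) (hm : Y ≤ m) (hs : ∀ p ∈ m.primeFactors, p ≤ Y) :
    ∃ b, b ∣ m ∧ Y ≤ b ∧ b < Y ^ 2 := by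
  have hm0 : m ≠ 0 := by omega
  have hex : ∃ b, b ∣ m ∧ Y ≤ b := ⟨m, dvd_rfl, hm⟩
  classical
  obtain ⟨hb1, hb2⟩ := Nat.find_spec hex
  set b := Nat.find hex with hbdef
  refine ⟨b, hb1, hb2, ?_⟩
  obtain ⟨q, hq, hqb⟩ := Nat.exists_prime_and_dvd (show b ≠ 1 by omega)
  have hqY : q ≤ Y := hs q (Nat.mem_primeFactors.2 ⟨hq, hqb.trans hb1, hm0⟩)
  have hlt : b / q < Y := by
    by_contra hcon
    push Not at hcon
    have h1 : b / q < b := Nat.div_lt_self (by omega) hq.one_lt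
    exact Nat.find_min hex h1 ⟨(Nat.div_dvd_of_dvd hqb).trans hb1, hcon⟩
  calc b = (b / q) * q := (Nat.div_mul_cancel hqb).symm
    _ < Y * q := Nat.mul_lt_mul_of_pos_right hlt hq.pos
    _ ≤ Y * Y := Nat.mul_le_mul_left _ hqY
    _ = Y ^ 2 := by ring

theorem fact_prod (T : Finset ℕ) (hT : ∀ p ∈ T, p.Prime) (f : ℕ → ℕ) (p : ℕ) :
    (∏ q ∈ T, q ^ f q).factorization p = if p ∈ T then f p else 0 := by
  rw [Nat.factorization_prod (fun q hq => pow_ne_zero _ (hT q hq).ne_zero)]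
  rw [Finsupp.finsetSum_apply]
  have : ∀ q ∈ T, (q ^ f q).factorization p = if q = p then f p else 0 := by
    intro q hq
    rw [(hT q hq).factorization_pow]
    by_cases h : q = p
    · subst h; simp
    · simp [h]
  rw [sum_congr rfl this]
  simp

/-- `F = P^2 - (X + D0) Q^2`. -/
noncomputable def FF (P Q : ℤ[X]) (D0 : ℕ) : ℤ[X] := P ^ 2 - (X + C (D0 : ℤ)) * Q ^ 2

theorem FF_natDegree (P Q : ℤ[X]) (D0 : ℕ) (hQ : Q ≠ 0) :
    (FF P Q D0).natDegree = max (2 * P.natDegree) (2 * Q.natDegree + 1) := by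
  have h1 : (P ^ 2).natDegree = 2 * P.natDegree := natDegree_pow P 2
  have h2 : ((X + C (D0 : ℤ)) * Q ^ 2).natDegree = 2 * Q.natDegree + 1 := by
    rw [natDegree_mul (X_add_C_ne_zero _) (pow_ne_zero _ hQ), natDegree_X_add_C, natDegree_pow]
    ring
  unfold FF
  rcases lt_or_gt_of_ne (show 2 * P.natDegree ≠ 2 * Q.natDegree + 1 by omega) with h | h
  · rw [natDegree_sub_eq_right_of_natDegree_lt (by rw [h1, h2]; exact h), h2]
    omega
  · rw [natDegree_sub_eq_left_of_natDegree_lt (by rw [h1, h2]; exact h), h1]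
    omega

/-- The gcd of the two values. -/
noncomputable def kap (P Q : ℤ[X]) (w : ℤ) : ℕ := Int.gcd (P.eval w) (Q.eval w)

theorem FF_bound (P Q : ℤ[X]) (D0 w s t : ℕ) (hs : 1 ≤ s) (ht : t ^ 2 = (D0 + w) * s ^ 2 + 4)
    (h : P.eval (w : ℤ) * s + Q.eval (w : ℤ) * t = 0) (hk : kap P Q w ≠ 0) :
    |(FF P Q D0).eval (w : ℤ)| ≤ 4 * (kap P Q w : ℤ) ^ 2 := by
  obtain ⟨p', q', hg, hp, hq⟩ := Int.exists_gcd_one (Nat.pos_of_ne_zero hk)
  have hkk : (Int.gcd (P.eval (w : ℤ)) (Q.eval (w : ℤ)) : ℤ) = (kap P Q w : ℤ) := rfl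
  rw [hkk] at hp hq
  set κ : ℤ := (kap P Q w : ℤ)
  have hκ : κ ≠ 0 := Int.natCast_ne_zero.2 hk
  have ht' : (t : ℤ) ^ 2 = (D0 + w) * s ^ 2 + 4 := by exact_mod_cast ht
  have h1 : p' * s = -(q' * t) := by
    have : κ * (p' * s + q' * t) = 0 := by
      rw [hp, hq] at h
      linear_combination h
    rcases mul_eq_zero.1 this with h0 | h0
    · exact absurd h0 hκ
    · linarith
  have h2 : q' ∣ (s : ℤ) := by
    have hdv : q' ∣ p' * s := by rw [h1]; exact (dvd_mul_right _ _).neg_right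
    exact Int.dvd_of_dvd_mul_right_of_gcd_one hdv (by rw [Int.gcd_comm]; exact hg)
  have hs0 : (0 : ℤ) < s := by exact_mod_cast hs
  have h3 : q' ^ 2 ≤ (s : ℤ) ^ 2 := by
    have := Int.le_of_dvd (by positivity) (pow_dvd_pow_of_dvd h2 2)
    exact this
  have hF : (FF P Q D0).eval (w : ℤ) * (s : ℤ) ^ 2 = 4 * κ ^ 2 * q' ^ 2 := by
    simp only [FF, eval_sub, eval_pow, eval_mul, eval_add, eval_X, eval_C]
    rw [hp, hq]
    have e1 : (p' * s) ^ 2 = q' ^ 2 * t ^ 2 := by rw [h1]; ring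
    rw [ht'] at e1
    linear_combination κ ^ 2 * e1
  have hF0 : 0 ≤ (FF P Q D0).eval (w : ℤ) := by
    by_contra hneg
    push Not at hneg
    have : (FF P Q D0).eval (w : ℤ) * (s : ℤ) ^ 2 < 0 := mul_neg_of_neg_of_pos hneg (by positivity)
    have h4 : (0 : ℤ) ≤ 4 * κ ^ 2 * q' ^ 2 := by positivity
    linarith
  rw [abs_of_nonneg hF0]
  have h5 : (FF P Q D0).eval (w : ℤ) * (s : ℤ) ^ 2 ≤ 4 * κ ^ 2 * (s : ℤ) ^ 2 := by
    rw [hF]
    exact mul_le_mul_of_nonneg_left h3 (by positivity)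
  exact le_of_mul_le_mul_right h5 (by positivity)

/-- Counting the points with a large gcd. -/
theorem large (hI : SpecINT) (hF : SpecFEK) (n Y ω : ℕ) (P Q : ℤ[X]) (R : ℤ) (hY : 2 ≤ Y)
    (hP : P.natDegree ≤ n) (hQ : Q.natDegree ≤ n) (hR : R ≠ 0) (hω : R.natAbs.primeFactors.card = ω)
    (hdv : ∀ w k : ℤ, k ∣ P.eval w → k ∣ Q.eval w → k ∣ R)
    (hpr : ∀ p : ℕ, p.Prime → ¬ (C (p : ℤ) ∣ P ∧ C (p : ℤ) ∣ Q)) (W : Finset ℤ)
    (hW : ∀ w ∈ W, 0 ≤ w ∧ w ≤ ((Y ^ 8 : ℕ) : ℤ)) (hk : ∀ w ∈ W, Y ^ (4 * n) < kap P Q w) :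
    W.card ≤ n * ω + n * ω * (Y ^ 7 + 1) + n * ∑ b ∈ (Finset.Ico Y (Y ^ 2)).filter
      (fun b => b.primeFactors ⊆ R.natAbs.primeFactors), (Y ^ 8 / b + 1) := by
  classical
  set T := R.natAbs.primeFactors with hTdef
  have hRn : R.natAbs ≠ 0 := Int.natAbs_ne_zero.2 hR
  have hTp : ∀ p ∈ T, p.Prime := fun p hp => Nat.prime_of_mem_primeFactors hp
  have hkR : ∀ w, (kap P Q w) ∣ R.natAbs := fun w => by
    have := hdv w (kap P Q w) (Int.gcd_dvd_left _ _) (Int.gcd_dvd_right _ _)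
    exact Int.natCast_dvd.1 this
  have hk0 : ∀ w, kap P Q w ≠ 0 := fun w => ne_zero_of_dvd_ne_zero hRn (hkR w)
  -- the virtual roots
  have hroot : ∀ p ∈ T, ∃ r : Fin n → ℤ, ∀ w ∈ W, (∀ i, w ≠ r i) →
      (kap P Q w).factorization p ≤ ∑ i, padicValInt p (w - r i) := by
    intro p hp
    refine hF p n W (fun w => (kap P Q w).factorization p) (fun U hU hc => ?_)
    have hdvd : ∀ u : ℤ, (p : ℤ) ^ ((kap P Q u).factorization p) ∣ (kap P Q u : ℤ) := fun u => by
      exact_mod_cast Nat.ordProj_dvd (kap P Q u) p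
    by_cases hPp : C (p : ℤ) ∣ P
    · have hQp : ¬ C (p : ℤ) ∣ Q := fun hq => hpr p (hTp p hp) ⟨hPp, hq⟩
      exact hI p n Q U _ (hTp p hp) hQ hQp hc (fun u _ => (hdvd u).trans (Int.gcd_dvd_right _ _))
    · exact hI p n P U _ (hTp p hp) hP hPp hc (fun u _ => (hdvd u).trans (Int.gcd_dvd_left _ _))
  choose! r hr using hroot
  -- the three exceptional sets
  set A : Finset ℤ := (T ×ˢ (univ : Finset (Fin n))).image (fun x => r x.1 x.2) with hA
  set J : Finset ℤ := Finset.Icc (0 : ℤ) ((Y ^ 8 : ℕ) : ℤ) with hJ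
  set B : Finset ℤ := ((T.filter (fun p => Y < p)) ×ˢ (univ : Finset (Fin n))).biUnion
    (fun x => J.filter (fun w => (x.1 : ℤ) ∣ w - r x.1 x.2)) with hB
  set S := (Finset.Ico Y (Y ^ 2)).filter (fun b => b.primeFactors ⊆ T) with hS
  set D : Finset ℤ := ((univ : Finset (Fin n)) ×ˢ S).biUnion
    (fun x => J.filter (fun w => ∀ p ∈ T, (p : ℤ) ^ (x.2.factorization p) ∣ w - r p x.1)) with hD
  have hcA : A.card ≤ n * ω := by
    refine card_image_le.trans ?_
    rw [card_product, card_univ, Fintype.card_fin, hω, mul_comm]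
  have hcB : B.card ≤ n * ω * (Y ^ 7 + 1) := by
    refine card_biUnion_le.trans ?_
    have : ∀ x ∈ (T.filter (fun p => Y < p)) ×ˢ (univ : Finset (Fin n)),
        (J.filter (fun w => (x.1 : ℤ) ∣ w - r x.1 x.2)).card ≤ Y ^ 7 + 1 := by
      intro x hx
      obtain ⟨hx1, -⟩ := mem_product.1 hx
      obtain ⟨hx2, hx3⟩ := mem_filter.1 hx1
      have h1 := card_cong (Y ^ 8) x.1 (hTp _ hx2).one_lt.le
        (J.filter (fun w => (x.1 : ℤ) ∣ w - r x.1 x.2))
        (fun z hz => mem_Icc.1 (mem_filter.1 hz).1)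
        (fun z hz z' hz' => by
          have e : z - z' = (z - r x.1 x.2) - (z' - r x.1 x.2) := by ring
          rw [e]
          exact dvd_sub (mem_filter.1 hz).2 (mem_filter.1 hz').2)
      refine h1.trans (Nat.succ_le_succ ?_)
      calc Y ^ 8 / x.1 ≤ Y ^ 8 / Y := Nat.div_le_div_left hx3.le (by omega)
        _ = Y ^ 7 := by
          rw [show Y ^ 8 = Y ^ 7 * Y by ring]
          exact Nat.mul_div_cancel _ (by omega)
    refine (sum_le_card_nsmul _ _ _ this).trans ?_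
    rw [card_product, card_univ, Fintype.card_fin, smul_eq_mul]
    have : (T.filter (fun p => Y < p)).card ≤ ω := hω ▸ card_filter_le _ _
    calc (T.filter (fun p => Y < p)).card * n * (Y ^ 7 + 1) ≤ ω * n * (Y ^ 7 + 1) := by gcongr
      _ = n * ω * (Y ^ 7 + 1) := by ring
  have hcD : D.card ≤ n * ∑ b ∈ S, (Y ^ 8 / b + 1) := by
    refine card_biUnion_le.trans ?_
    rw [sum_product]
    have : ∀ i ∈ (univ : Finset (Fin n)), ∑ b ∈ S,
        (J.filter (fun w => ∀ p ∈ T, (p : ℤ) ^ (b.factorization p) ∣ w - r p i)).card ≤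
        ∑ b ∈ S, (Y ^ 8 / b + 1) := by
      intro i _
      refine sum_le_sum fun b hb => ?_
      obtain ⟨hb1, hb2⟩ := mem_filter.1 hb
      have hb0 : 1 ≤ b := by have := (mem_Ico.1 hb1).1; omega
      refine card_cong (Y ^ 8) b hb0 _ (fun z hz => mem_Icc.1 (mem_filter.1 hz).1)
        (fun z hz z' hz' => ?_)
      have h1 : ∀ p ∈ T, (p : ℤ) ^ (b.factorization p) ∣ z - z' := fun p hp => by
        have e : z - z' = (z - r p i) - (z' - r p i) := by ring
        rw [e]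
        exact dvd_sub ((mem_filter.1 hz).2 p hp) ((mem_filter.1 hz').2 p hp)
      have h2 : (b : ℤ) = ∏ p ∈ b.primeFactors, ((p : ℤ) ^ (b.factorization p)) := by
        conv_lhs => rw [← Nat.prod_factorization_pow_eq_self (show b ≠ 0 by omega)]
        rw [Finsupp.prod, Nat.support_factorization]
        push_cast
        rfl
      rw [h2]
      refine Finset.prod_dvd_of_coprime (fun p hp q hq hpq => ?_) (fun p hp => h1 p (hb2 hp))
      have hc : IsCoprime (p : ℤ) (q : ℤ) := Nat.isCoprime_iff_coprime.2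
        ((Nat.coprime_primes (Nat.prime_of_mem_primeFactors hp)
          (Nat.prime_of_mem_primeFactors hq)).2 hpq)
      exact IsCoprime.pow hc
    refine (sum_le_sum this).trans ?_
    rw [sum_const, card_univ, Fintype.card_fin, smul_eq_mul]
  have hsub : W ⊆ (A ∪ B) ∪ D := by
    intro w hw
    by_contra hcon
    simp only [mem_union, not_or] at hcon
    obtain ⟨⟨hwA, hwB⟩, hwD⟩ := hcon
    have hwJ : w ∈ J := mem_Icc.2 (hW w hw)
    have hnr : ∀ p ∈ T, ∀ i, w ≠ r p i := fun p hp i h => hwA (by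
      rw [hA, mem_image]
      exact ⟨(p, i), mem_product.2 ⟨hp, mem_univ _⟩, h.symm⟩)
    have hval : ∀ p ∈ T, (kap P Q w).factorization p ≤ ∑ i, padicValInt p (w - r p i) :=
      fun p hp => hr p hp w hw (hnr p hp)
    have hsm : ∀ p ∈ (kap P Q w).primeFactors, p ∈ T ∧ p ≤ Y := by
      intro p hp
      have hpT : p ∈ T := Nat.primeFactors_mono (hkR w) hRn hp
      refine ⟨hpT, ?_⟩
      by_contra hpY
      push Not at hpY
      have h1 : 1 ≤ (kap P Q w).factorization p :=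
        (Nat.prime_of_mem_primeFactors hp).factorization_pos_of_dvd (hk0 w)
          (Nat.dvd_of_mem_primeFactors hp)
      have h2 := hval p hpT
      have h3 : ∃ i, padicValInt p (w - r p i) ≠ 0 := by
        by_contra hall
        push Not at hall
        simp only [hall, sum_const_zero] at h2
        omega
      obtain ⟨i, hi⟩ := h3
      apply hwB
      rw [hB, mem_biUnion]
      refine ⟨(p, i), mem_product.2 ⟨mem_filter.2 ⟨hpT, hpY⟩, mem_univ _⟩, mem_filter.2 ⟨hwJ, ?_⟩⟩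
      simp only
      by_contra hnd
      exact hi (padicValInt.eq_zero_of_not_dvd hnd)
    set T' := T.filter (fun p => p ≤ Y) with hT'
    have hT'p : ∀ p ∈ T', p.Prime := fun p hp => hTp p (mem_filter.1 hp).1
    have hkey : kap P Q w ≤ ∏ i : Fin n, ∏ p ∈ T', p ^ (padicValInt p (w - r p i)) := by
      rw [prod_comm]
      have e1 : kap P Q w = ∏ p ∈ T', p ^ ((kap P Q w).factorization p) := by
        conv_lhs => rw [← Nat.prod_factorization_pow_eq_self (hk0 w)]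
        rw [Finsupp.prod, Nat.support_factorization]
        refine prod_subset (fun p hp => mem_filter.2 (hsm p hp)) (fun p _ hp => ?_)
        have : (kap P Q w).factorization p = 0 := by
          rw [← Finsupp.notMem_support_iff, Nat.support_factorization]
          exact hp
        rw [this, pow_zero]
      conv_lhs => rw [e1]
      refine prod_le_prod' fun p hp => ?_
      rw [prod_pow_eq_pow_sum]
      exact Nat.pow_le_pow_right (hT'p p hp).pos (hval p (mem_filter.1 hp).1)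
    have hex : ∃ i : Fin n, Y ^ 4 < ∏ p ∈ T', p ^ (padicValInt p (w - r p i)) := by
      by_contra hall
      push Not at hall
      have : ∏ i : Fin n, ∏ p ∈ T', p ^ (padicValInt p (w - r p i)) ≤ ∏ _i : Fin n, Y ^ 4 :=
        prod_le_prod' fun i _ => hall i
      rw [prod_const, card_univ, Fintype.card_fin, ← pow_mul] at this
      have := hk w hw
      omega
    obtain ⟨i, hi⟩ := hex
    set m := ∏ p ∈ T', p ^ (padicValInt p (w - r p i)) with hm
    have hfm : ∀ p, m.factorization p = if p ∈ T' then padicValInt p (w - r p i) else 0 :=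
      fun p => fact_prod T' hT'p (fun p => padicValInt p (w - r p i)) p
    have hm0 : m ≠ 0 := by omega
    have hmp : ∀ p ∈ m.primeFactors, p ∈ T' := by
      intro p hp
      by_contra hn
      have h1 := hfm p
      rw [if_neg hn] at h1
      rw [← Nat.support_factorization, Finsupp.mem_support_iff] at hp
      exact hp h1
    have hYm : Y ≤ m := by
      have : Y ≤ Y ^ 4 := Nat.le_self_pow (by norm_num) Y
      omega
    obtain ⟨b, hb1, hb2, hb3⟩ := smooth_div Y m hY hYm (fun p hp => (mem_filter.1 (hmp p hp)).2)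
    have hb0 : b ≠ 0 := by omega
    apply hwD
    rw [hD, mem_biUnion]
    refine ⟨(i, b), mem_product.2 ⟨mem_univ _, mem_filter.2 ⟨mem_Ico.2 ⟨hb2, hb3⟩,
      fun p hp => (mem_filter.1 (hmp p (Nat.primeFactors_mono hb1 hm0 hp))).1⟩⟩,
      mem_filter.2 ⟨hwJ, fun p hp => ?_⟩⟩
    simp only
    by_cases hpT' : p ∈ T'
    · have h1 : b.factorization p ≤ padicValInt p (w - r p i) := by
        have h2 := (Nat.factorization_le_iff_dvd hb0 hm0).2 hb1 p
        rw [hfm p, if_pos hpT'] at h2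
        exact h2
      have h3 : (p : ℤ) ^ (padicValInt p (w - r p i)) ∣ w - r p i := by
        have : Fact p.Prime := ⟨hTp p hp⟩
        exact padicValInt_dvd (w - r p i)
      exact (pow_dvd_pow _ h1).trans h3
    · have h2 : b.factorization p = 0 := by
        have h2 := (Nat.factorization_le_iff_dvd hb0 hm0).2 hb1 p
        rw [hfm p, if_neg hpT'] at h2
        omega
      rw [h2, pow_zero]
      exact one_dvd _
  calc W.card ≤ ((A ∪ B) ∪ D).card := card_le_card hsub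
    _ ≤ (A ∪ B).card + D.card := card_union_le _ _
    _ ≤ (A.card + B.card) + D.card := by gcongr; exact card_union_le _ _
    _ ≤ _ := by gcongr

end ValM

open ValM in
theorem specVAL (hI : SpecINT) (hF : SpecFEK) (hC : SpecCART) (hS : SpecSMO) : SpecVAL := by
  classical
  intro E D0 Y σ P Q R hE hD0 hY hσ hσ2 hP hQ hR hdv hpr
  set ω := R.natAbs.primeFactors.card with hω
  set n := max P.natDegree Q.natDegree with hn
  have hnE : n ≤ E - 1 := by omega
  have hRn : R.natAbs ≠ 0 := Int.natAbs_ne_zero.2 hR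
  have hkR : ∀ w, (kap P Q w) ∣ R.natAbs := fun w => by
    have := hdv w (kap P Q w) (Int.gcd_dvd_left _ _) (Int.gcd_dvd_right _ _)
    exact Int.natCast_dvd.1 this
  have hk0 : ∀ w, kap P Q w ≠ 0 := fun w => ne_zero_of_dvd_ne_zero hRn (hkR w)
  have hY0 : (0 : ℝ) < Y := by exact_mod_cast (show 0 < Y by omega)
  have hY1 : (1 : ℝ) ≤ Y := by exact_mod_cast (show 1 ≤ Y by omega)
  rcases eq_or_ne Q 0 with hQ0 | hQ0
  · have hemp : Vset P Q D0 (Y ^ 8) = ∅ := by
      rw [Finset.eq_empty_iff_forall_notMem]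
      intro w hw
      obtain ⟨-, s, t, hs, ht, h⟩ := mem_filter.1 hw
      rw [hQ0, eval_zero, zero_mul, add_zero] at h
      have hs0 : (s : ℤ) ≠ 0 := by exact_mod_cast (show s ≠ 0 by omega)
      have hP0 : P.eval (w : ℤ) = 0 := (mul_eq_zero.1 h).resolve_right hs0
      apply hk0 (w : ℤ)
      rw [kap, hP0, hQ0, eval_zero, Int.gcd_self, Int.natAbs_zero]
    rw [hemp, card_empty, Nat.cast_zero]
    positivity
  -- degree of F
  have hdF := FF_natDegree P Q D0 hQ0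
  set d := (FF P Q D0).natDegree with hd
  have hd1 : 1 ≤ d := by omega
  have hd2 : 2 * n ≤ d := by omega
  have hdE : d ≤ 2 * E := by omega
  set V : Finset ℤ := (Vset P Q D0 (Y ^ 8)).image (fun w : ℕ => (w : ℤ)) with hV
  have hVc : V.card = (Vset P Q D0 (Y ^ 8)).card :=
    card_image_of_injective _ (fun a b h => by exact_mod_cast h)
  have hVm : ∀ v ∈ V, (0 ≤ v ∧ v ≤ ((Y ^ 8 : ℕ) : ℤ)) ∧
      |(FF P Q D0).eval v| ≤ 4 * (kap P Q v : ℤ) ^ 2 := by
    intro v hv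
    obtain ⟨w, hw, rfl⟩ := mem_image.1 hv
    obtain ⟨hw1, s, t, hs, ht, h⟩ := mem_filter.1 hw
    have := mem_range.1 hw1
    refine ⟨⟨by positivity, by exact_mod_cast (show w ≤ Y ^ 8 by omega)⟩, ?_⟩
    exact FF_bound P Q D0 w s t hs ht h (hk0 _)
  -- small gcd
  have hA := hC (FF P Q D0) (Y ^ 4) (V.filter (fun v => kap P Q v ≤ Y ^ (4 * n))) hd1
    (Nat.one_le_pow _ _ (by omega)) (fun v hv => by
      obtain ⟨hv1, hv2⟩ := mem_filter.1 hv
      refine (hVm v hv1).2.trans ?_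
      have h1 : (kap P Q v) ^ 2 ≤ (Y ^ 4) ^ d := by
        calc (kap P Q v) ^ 2 ≤ (Y ^ (4 * n)) ^ 2 := Nat.pow_le_pow_left hv2 2
          _ = (Y ^ 4) ^ (2 * n) := by rw [← pow_mul, ← pow_mul]; congr 1; ring
          _ ≤ (Y ^ 4) ^ d := Nat.pow_le_pow_right (Nat.pos_of_ne_zero (by positivity)) hd2
      have h2 : ((kap P Q v : ℕ) : ℤ) ^ 2 ≤ ((Y ^ 4 : ℕ) : ℤ) ^ d := by exact_mod_cast h1
      linarith)
  -- large gcd
  have hB := large hI hF n Y ω P Q R hY (le_max_left _ _) (le_max_right _ _) hR hω.symm hdv hpr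
    (V.filter (fun v => ¬ kap P Q v ≤ Y ^ (4 * n)))
    (fun w hw => (hVm w (mem_filter.1 hw).1).1)
    (fun w hw => by have := (mem_filter.1 hw).2; omega)
  have hsum := card_filter_add_card_filter_not (s := V) (fun v => kap P Q v ≤ Y ^ (4 * n))
  have hS' := hS R.natAbs.primeFactors Y σ hY hσ hσ2 (fun p hp => Nat.prime_of_mem_primeFactors hp)
  rw [← hω] at hS'
  set TT := (Finset.Ico Y (Y ^ 2)).filter (fun b => b.primeFactors ⊆ R.natAbs.primeFactors)
  set ex := Real.exp (8 * ((ω : ℝ) + 1) ^ σ / σ)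
  have hsb : ((∑ b ∈ TT, (Y ^ 8 / b + 1) : ℕ) : ℝ) ≤ 2 * (Y : ℝ) ^ (8 - σ) * ex := by
    push_cast
    calc ∑ b ∈ TT, (((Y ^ 8 / b : ℕ) : ℝ) + 1) ≤ ∑ b ∈ TT, 2 * (Y : ℝ) ^ 8 * (1 / (b : ℝ)) := by
          refine sum_le_sum fun b hb => ?_
          obtain ⟨hb1, hb2⟩ := mem_Ico.1 (mem_filter.1 hb).1
          have hb0 : (0 : ℝ) < b := by exact_mod_cast (show 0 < b by omega)
          have h1 : ((Y ^ 8 / b : ℕ) : ℝ) ≤ (Y : ℝ) ^ 8 / b := by
            have := @Nat.cast_div_le ℝ _ _ _ (Y ^ 8) b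
            push_cast at this
            exact this
          have h2 : (1 : ℝ) ≤ (Y : ℝ) ^ 8 / b := by
            rw [one_le_div hb0]
            have h3 : b ≤ Y ^ 8 := hb2.le.trans (Nat.pow_le_pow_right (by omega) (by norm_num))
            exact_mod_cast h3
          have h4 : 2 * (Y : ℝ) ^ 8 * (1 / (b : ℝ)) = (Y : ℝ) ^ 8 / b + (Y : ℝ) ^ 8 / b := by ring
          rw [h4]
          linarith
      _ = 2 * (Y : ℝ) ^ 8 * ∑ b ∈ TT, (1 / (b : ℝ)) := by rw [mul_sum]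
      _ ≤ 2 * (Y : ℝ) ^ 8 * ((Y : ℝ) ^ (-σ) * ex) := by gcongr
      _ = 2 * (Y : ℝ) ^ (8 - σ) * ex := by
          have : (Y : ℝ) ^ (8 - σ) = (Y : ℝ) ^ 8 * (Y : ℝ) ^ (-σ) := by
            rw [sub_eq_add_neg, Real.rpow_add hY0]
            congr 1
            exact_mod_cast Real.rpow_natCast (Y : ℝ) 8
          rw [this]
          ring
  have hBr : ((V.filter (fun v => ¬ kap P Q v ≤ Y ^ (4 * n))).card : ℝ) ≤
      3 * E * ω * (Y : ℝ) ^ 7 + 2 * E * (Y : ℝ) ^ (8 - σ) * ex := by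
    have h1 : ((V.filter (fun v => ¬ kap P Q v ≤ Y ^ (4 * n))).card : ℝ) ≤
        ((n * ω + n * ω * (Y ^ 7 + 1) + n * ∑ b ∈ TT, (Y ^ 8 / b + 1) : ℕ) : ℝ) := by
      exact_mod_cast hB
    refine h1.trans ?_
    rw [Nat.cast_add, Nat.cast_mul n (∑ b ∈ TT, (Y ^ 8 / b + 1))]
    have hnE' : (n : ℝ) ≤ E := by exact_mod_cast (show n ≤ E by omega)
    have hY7 : (1 : ℝ) ≤ (Y : ℝ) ^ 7 := one_le_pow₀ hY1
    have h2 : ((n * ω + n * ω * (Y ^ 7 + 1) : ℕ) : ℝ) ≤ 3 * E * ω * (Y : ℝ) ^ 7 := by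
      push_cast
      calc (n : ℝ) * ω + n * ω * ((Y : ℝ) ^ 7 + 1) = n * ω * (2 + (Y : ℝ) ^ 7) := by ring
        _ ≤ E * ω * (3 * (Y : ℝ) ^ 7) := by
            gcongr
            linarith
        _ = 3 * E * ω * (Y : ℝ) ^ 7 := by ring
    have h3 : (n : ℝ) * ((∑ b ∈ TT, (Y ^ 8 / b + 1) : ℕ) : ℝ) ≤ 2 * E * (Y : ℝ) ^ (8 - σ) * ex := by
      calc (n : ℝ) * ((∑ b ∈ TT, (Y ^ 8 / b + 1) : ℕ) : ℝ) ≤ E * (2 * (Y : ℝ) ^ (8 - σ) * ex) := by
            gcongr
        _ = 2 * E * (Y : ℝ) ^ (8 - σ) * ex := by ring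
    linarith
  have hAr : ((V.filter (fun v => kap P Q v ≤ Y ^ (4 * n))).card : ℝ) ≤ 18 * E * (Y : ℝ) ^ 4 := by
    have h1 : ((V.filter (fun v => kap P Q v ≤ Y ^ (4 * n))).card : ℝ) ≤
        ((d * (8 * Y ^ 4 + 1) : ℕ) : ℝ) := by exact_mod_cast hA
    refine h1.trans ?_
    push_cast
    have hdE' : (d : ℝ) ≤ 2 * E := by exact_mod_cast hdE
    have hY4 : (1 : ℝ) ≤ (Y : ℝ) ^ 4 := one_le_pow₀ hY1
    calc (d : ℝ) * (8 * (Y : ℝ) ^ 4 + 1) ≤ 2 * E * (9 * (Y : ℝ) ^ 4) := by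
          gcongr
          linarith
      _ = 18 * E * (Y : ℝ) ^ 4 := by ring
  rw [← hVc, ← hsum]
  push_cast
  linarith

end Pool.Agent.Lib.MP401270
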