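import Pool.Agent.Lib.MP_401270_nt.Pig
import Pool.Agent.Lib.MP_401270_nt.Sq
import Pool.Agent.Lib.MP_401270_nt.Red
import Pool.Agent.Lib.MP_401270_nt.Fek
import Pool.Agent.Lib.MP_401270_nt.Int
import Pool.Agent.Lib.MP_401270_nt.Cart
import Pool.Agent.Lib.MP_401270_nt.Smo
import Pool.Agent.Lib.MP_401270_nt.Val
import Pool.Agent.Lib.MP_401270_nt.Cnt
import Pool.Agent.Lib.MP_401270_nt.Bad

set_option autoImplicit false

namespace Pool.Agent.Lib.MP401270

theorem bad : SpecBAD :=
  specBAD (specCNT (specPIG specSQ) specRED (specVAL specINT specFEK specCART specSMO))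

end Pool.Agent.Lib.MP401270
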