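import Pool.Agent.Lib.MP_401270_nt.Spec

/-!
# MP_401270_nt: module LAM (first moment with weights)
-/

set_option autoImplicit false

namespace Pool.Agent.Lib.MP401270.LamM

open Finset

lemma log_eq (m : ℕ) (Z : ℕ) (hm : m ≤ Z) : Nat.log 2 m = ((Icc 1 Z).filter (fun k => 2 ^ k ≤ m)).card := by
  rcases Nat.eq_zero_or_pos m with h0 | h0
  · subst h0
    have : (Icc 1 Z).filter (fun k => 2 ^ k ≤ 0) = ∅ := by
      rw [Finset.filter_eq_empty_iff]
      intro k _
      have : 0 < 2 ^ k := by positivity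
      omega
    rw [this]; simp
  · have : (Icc 1 Z).filter (fun k => 2 ^ k ≤ m) = Icc 1 (Nat.log 2 m) := by
      ext k
      rw [Finset.mem_filter, Finset.mem_Icc, Finset.mem_Icc]
      constructor
      · rintro ⟨⟨h1, _⟩, h3⟩
        exact ⟨h1, Nat.le_log_of_pow_le (by norm_num) h3⟩
      · rintro ⟨h1, h2⟩
        have h3 : 2 ^ k ≤ m := Nat.pow_le_of_le_log (by omega) h2
        have h4 : k < 2 ^ k := Nat.lt_two_pow_self
        exact ⟨⟨h1, by omega⟩, h3⟩
    rw [this, Nat.card_Icc]; omega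

lemma sum_pow_div (Z n : ℕ) : ∑ k ∈ Icc 1 n, Z / 2 ^ k ≤ Z := by
  have h : ∀ n : ℕ, ∑ k ∈ Icc 1 n, Z / 2 ^ k + Z / 2 ^ n ≤ Z := by
    intro n
    induction n with
    | zero => simp
    | succ n ih =>
      rw [Finset.sum_Icc_succ_top (by omega)]
      have h1 : Z / 2 ^ (n + 1) + Z / 2 ^ (n + 1) ≤ Z / 2 ^ n := by
        rw [pow_succ, ← Nat.div_div_eq_div_mul]
        omega
      omega
  exact (Nat.le_add_right _ _).trans (h n)

lemma sum_log (Y Z : ℕ) : ∑ n ∈ Icc 1 Y, Nat.log 2 (Z / n) ≤ Z := by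
  calc ∑ n ∈ Icc 1 Y, Nat.log 2 (Z / n)
      = ∑ n ∈ Icc 1 Y, ((Icc 1 Z).filter (fun k => 2 ^ k ≤ Z / n)).card := by
        apply Finset.sum_congr rfl
        intro n _
        exact log_eq _ _ (Nat.div_le_self _ _)
    _ = ∑ n ∈ Icc 1 Y, ∑ k ∈ Icc 1 Z, if 2 ^ k ≤ Z / n then 1 else 0 := by
        apply Finset.sum_congr rfl
        intro n _
        rw [Finset.card_filter]
    _ = ∑ k ∈ Icc 1 Z, ∑ n ∈ Icc 1 Y, if 2 ^ k ≤ Z / n then 1 else 0 := Finset.sum_comm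
    _ ≤ ∑ k ∈ Icc 1 Z, Z / 2 ^ k := by
        apply Finset.sum_le_sum
        intro k _
        rw [← Finset.card_filter]
        have hsub : (Icc 1 Y).filter (fun n => 2 ^ k ≤ Z / n) ⊆ Icc 1 (Z / 2 ^ k) := by
          intro n hn
          rw [Finset.mem_filter, Finset.mem_Icc] at hn
          rw [Finset.mem_Icc]
          refine ⟨hn.1.1, ?_⟩
          rw [Nat.le_div_iff_mul_le (by positivity)]
          have := (Nat.le_div_iff_mul_le (by omega : 0 < n)).1 hn.2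
          linarith
        have h9 : (Icc 1 (Z / 2 ^ k)).card = Z / 2 ^ k := by rw [Nat.card_Icc, Nat.add_sub_cancel]
        exact (Finset.card_le_card hsub).trans h9.le
    _ ≤ Z := sum_pow_div Z Z

/-- the number of `D < X` in a residue class -/
lemma count_class (X : ℕ) (a b : ℤ) (ha : a ≠ 0) :
    ((range X).filter (fun D : ℕ => 4 * a ∣ b ^ 2 - (D : ℤ))).card ≤ X / (4 * a.natAbs) + 1 := by
  have ha1 : 0 < a.natAbs := Int.natAbs_pos.2 ha
  have hinj : Set.InjOn (fun D => D / (4 * a.natAbs))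
      ((range X).filter (fun D : ℕ => 4 * a ∣ b ^ 2 - (D : ℤ)) : Set ℕ) := by
    intro D hD D' hD' e
    simp only [Finset.coe_filter, Set.mem_ofPred_eq] at hD hD'
    have h1 : (4 * a) ∣ (D : ℤ) - D' := by
      have := hD'.2.sub hD.2
      have e1 : b ^ 2 - (D' : ℤ) - (b ^ 2 - D) = D - D' := by ring
      rwa [e1] at this
    have h2 : ((4 * a.natAbs : ℕ) : ℤ) ∣ (D : ℤ) - D' := by
      push_cast
      have e2 : (4 : ℤ) * |a| = |4 * a| := by rw [abs_mul]; norm_num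
      rw [e2, abs_dvd]
      exact h1
    have h3 : D % (4 * a.natAbs) = D' % (4 * a.natAbs) := by
      have := (Nat.modEq_iff_dvd (n := 4 * a.natAbs) (a := D') (b := D)).2 h2
      exact this.symm
    simp only at e
    rw [← Nat.div_add_mod D (4 * a.natAbs), ← Nat.div_add_mod D' (4 * a.natAbs), e, h3]
  have hmaps : ∀ D ∈ (range X).filter (fun D : ℕ => 4 * a ∣ b ^ 2 - (D : ℤ)),
      D / (4 * a.natAbs) ∈ range (X / (4 * a.natAbs) + 1) := by
    intro D hD
    rw [Finset.mem_filter, Finset.mem_range] at hD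
    rw [Finset.mem_range]
    exact Nat.lt_succ_of_le (Nat.div_le_div_right hD.1.le)
  have := Finset.card_le_card_of_injOn _ hmaps hinj
  rwa [Finset.card_range] at this

/-- the weight with the largest `D` -/
def ff (Z : ℕ) (a : ℤ) : ℕ := 1 + Nat.log 2 (Z / a.natAbs)

lemma sum_ff (Y Z : ℕ) : ∑ a ∈ (Icc (-(Y : ℤ)) Y).filter (fun a => a ≠ 0), ff Z a ≤ 2 * (Y + Z) := by
  have hsub : (Icc (-(Y : ℤ)) Y).filter (fun a => a ≠ 0) ⊆
      ((Icc 1 Y).image (fun n : ℕ => (n : ℤ))) ∪ ((Icc 1 Y).image (fun n : ℕ => -(n : ℤ))) := by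
    intro a ha
    rw [Finset.mem_filter, Finset.mem_Icc] at ha
    have h1 : 1 ≤ a.natAbs := Int.natAbs_pos.2 ha.2
    have h2 : a.natAbs ≤ Y := by omega
    rw [Finset.mem_union, Finset.mem_image, Finset.mem_image]
    rcases Int.natAbs_eq a with h | h
    · left; exact ⟨a.natAbs, Finset.mem_Icc.2 ⟨h1, h2⟩, h.symm⟩
    · right; exact ⟨a.natAbs, Finset.mem_Icc.2 ⟨h1, h2⟩, h.symm⟩
  have hb : ∑ n ∈ Icc 1 Y, (1 + Nat.log 2 (Z / n)) ≤ Y + Z := by
    rw [Finset.sum_add_distrib]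
    have := sum_log Y Z
    simp only [Finset.sum_const, Nat.card_Icc, Nat.add_sub_cancel, smul_eq_mul, mul_one]
    omega
  have h1 : ∑ a ∈ (Icc 1 Y).image (fun n : ℕ => (n : ℤ)), ff Z a ≤ Y + Z := by
    rw [Finset.sum_image (by intro x _ y _ h; simpa using h)]
    simpa [ff] using hb
  have h2 : ∑ a ∈ (Icc 1 Y).image (fun n : ℕ => -(n : ℤ)), ff Z a ≤ Y + Z := by
    rw [Finset.sum_image (by intro x _ y _ h; simpa using h)]
    simpa [ff] using hb
  have h3 := Finset.sum_le_sum_of_subset (f := ff Z) hsub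
  have h4 := Finset.sum_union_inter (s₁ := (Icc 1 Y).image (fun n : ℕ => (n : ℤ)))
    (s₂ := (Icc 1 Y).image (fun n : ℕ => -(n : ℤ))) (f := ff Z)
  omega

open Classical in
lemma inner (D X : ℕ) (hD : D < X) : ∑ x ∈ ND D, wt D x.1
    ≤ ∑ a ∈ (Icc (-(Nat.sqrt X : ℤ)) (Nat.sqrt X)).filter (fun a => a ≠ 0), ∑ b ∈ Ioc (-|a|) |a|,
        if 4 * a ∣ b ^ 2 - (D : ℤ) then ff (Nat.sqrt (4 * X)) a else 0 := by
  set Y := Nat.sqrt X with hY
  set Z := Nat.sqrt (4 * X) with hZ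
  have hDY : (Nat.sqrt D : ℤ) ≤ Y := by exact_mod_cast Nat.sqrt_le_sqrt hD.le
  have h1 : ∀ x ∈ ND D, wt D x.1 ≤ ff Z x.1 := by
    intro x _
    unfold wt ff
    have h2 : Nat.sqrt (4 * D) / x.1.natAbs ≤ Z / x.1.natAbs :=
      Nat.div_le_div_right (Nat.sqrt_le_sqrt (by omega))
    have := Nat.log_mono_right (b := 2) h2
    omega
  refine (Finset.sum_le_sum h1).trans ?_
  have hsub : ND D ⊆ ((Icc (-(Y : ℤ)) Y).filter (fun a => a ≠ 0) ×ˢ (Icc (-(Y : ℤ)) Y)).filter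
      (fun x => (-|x.1| < x.2 ∧ x.2 ≤ |x.1|) ∧ 4 * x.1 ∣ x.2 ^ 2 - (D : ℤ)) := by
    intro x hx
    unfold ND at hx
    rw [Finset.mem_filter, Finset.mem_product, Finset.mem_Icc, Finset.mem_Icc] at hx
    rw [Finset.mem_filter, Finset.mem_product, Finset.mem_filter, Finset.mem_Icc, Finset.mem_Icc]
    obtain ⟨⟨⟨h2, h3⟩, h4, h5⟩, h6, h7, h8, h9⟩ := hx
    exact ⟨⟨⟨⟨by linarith, by linarith⟩, h6⟩, by linarith, by linarith⟩, ⟨h7, h8⟩, h9⟩
  refine (Finset.sum_le_sum_of_subset hsub).trans ?_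
  rw [Finset.sum_filter, Finset.sum_product]
  apply Finset.sum_le_sum
  intro a _
  have h3 : ∀ b ∈ Icc (-(Y : ℤ)) Y, (if (-|a| < b ∧ b ≤ |a|) ∧ 4 * a ∣ b ^ 2 - (D : ℤ) then ff Z a else 0)
      = if (-|a| < b ∧ b ≤ |a|) then (if 4 * a ∣ b ^ 2 - (D : ℤ) then ff Z a else 0) else 0 := by
    intro b _
    by_cases h4 : (-|a| < b ∧ b ≤ |a|) <;> by_cases h5 : 4 * a ∣ b ^ 2 - (D : ℤ) <;> simp [h4, h5]
  simp only
  rw [Finset.sum_congr rfl h3, ← Finset.sum_filter]
  apply Finset.sum_le_sum_of_subset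
  intro b hb
  rw [Finset.mem_filter] at hb
  exact Finset.mem_Ioc.2 hb.2

end Pool.Agent.Lib.MP401270.LamM

namespace Pool.Agent.Lib.MP401270

open Finset LamM

open Classical in
theorem specLAM : SpecLAM := by
  intro X
  rcases Nat.eq_zero_or_pos X with h0 | h0
  · subst h0; simp
  set Y := Nat.sqrt X with hY
  set Z := Nat.sqrt (4 * X) with hZ
  have hYX : Y ≤ X := Nat.sqrt_le_self X
  have hmain : ∑ D ∈ range X, ∑ x ∈ ND D, wt D x.1 ≤ 3 * X * (2 * (Y + Z)) := by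
    calc ∑ D ∈ range X, ∑ x ∈ ND D, wt D x.1
        ≤ ∑ D ∈ range X, ∑ a ∈ (Icc (-(Y : ℤ)) Y).filter (fun a => a ≠ 0), ∑ b ∈ Ioc (-|a|) |a|,
          (if 4 * a ∣ b ^ 2 - (D : ℤ) then ff Z a else 0) :=
          Finset.sum_le_sum (fun D hD => inner D X (Finset.mem_range.1 hD))
      _ = ∑ a ∈ (Icc (-(Y : ℤ)) Y).filter (fun a => a ≠ 0), ∑ b ∈ Ioc (-|a|) |a|, ∑ D ∈ range X,
          (if 4 * a ∣ b ^ 2 - (D : ℤ) then ff Z a else 0) := by
          rw [Finset.sum_comm]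
          apply Finset.sum_congr rfl
          intro a _
          rw [Finset.sum_comm]
      _ ≤ ∑ a ∈ (Icc (-(Y : ℤ)) Y).filter (fun a => a ≠ 0), 3 * X * ff Z a := by
          apply Finset.sum_le_sum
          intro a ha
          rw [Finset.mem_filter, Finset.mem_Icc] at ha
          have ha1 : 0 < a.natAbs := Int.natAbs_pos.2 ha.2
          have haY : a.natAbs ≤ Y := by omega
          calc ∑ b ∈ Ioc (-|a|) |a|, ∑ D ∈ range X, (if 4 * a ∣ b ^ 2 - (D : ℤ) then ff Z a else 0)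
              ≤ ∑ b ∈ Ioc (-|a|) |a|, (X / (4 * a.natAbs) + 1) * ff Z a := by
                apply Finset.sum_le_sum
                intro b _
                rw [← Finset.sum_filter, Finset.sum_const, smul_eq_mul]
                exact Nat.mul_le_mul_right _ (count_class X a b ha.2)
            _ = 2 * a.natAbs * ((X / (4 * a.natAbs) + 1) * ff Z a) := by
                rw [Finset.sum_const, smul_eq_mul, Int.card_Ioc]
                congr 1
                rw [Int.abs_eq_natAbs]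
                omega
            _ = (2 * a.natAbs * (X / (4 * a.natAbs) + 1)) * ff Z a := by ring
            _ ≤ 3 * X * ff Z a := by
                apply Nat.mul_le_mul_right
                have h1 : 4 * a.natAbs * (X / (4 * a.natAbs)) ≤ X := Nat.mul_div_le _ _
                have h2 : 2 * a.natAbs * (X / (4 * a.natAbs) + 1)
                    = 2 * a.natAbs * (X / (4 * a.natAbs)) + 2 * a.natAbs := by ring
                have h3 : 2 * a.natAbs * (X / (4 * a.natAbs)) ≤ 4 * a.natAbs * (X / (4 * a.natAbs)) := by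
                  apply Nat.mul_le_mul_right; omega
                omega
      _ = 3 * X * ∑ a ∈ (Icc (-(Y : ℤ)) Y).filter (fun a => a ≠ 0), ff Z a := by
          rw [Finset.mul_sum]
      _ ≤ 3 * X * (2 * (Y + Z)) := Nat.mul_le_mul_left _ (sum_ff Y Z)
  have h1 : ((∑ D ∈ range X, ∑ x ∈ ND D, wt D x.1 : ℕ) : ℝ) ≤ ((3 * X * (2 * (Y + Z)) : ℕ) : ℝ) := by
    exact_mod_cast hmain
  have h2 : (Y : ℝ) ≤ √X := Real.nat_sqrt_le_real_sqrt
  have h3 : (Z : ℝ) ≤ 2 * √X := by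
    have h4 : (Z : ℝ) ≤ √((4 * X : ℕ) : ℝ) := Real.nat_sqrt_le_real_sqrt
    have h5 : √((4 * X : ℕ) : ℝ) = 2 * √(X : ℝ) := by
      push_cast
      rw [Real.sqrt_mul (by norm_num)]
      congr 1
      rw [show (4 : ℝ) = 2 ^ 2 by norm_num, Real.sqrt_sq (by norm_num)]
    rwa [h5] at h4
  refine h1.trans ?_
  push_cast
  have hX : (0 : ℝ) < X := by exact_mod_cast h0
  have hs : 0 ≤ √(X : ℝ) := Real.sqrt_nonneg _
  calc 3 * (X : ℝ) * (2 * (Y + Z)) ≤ 3 * (X : ℝ) * (2 * (√X + 2 * √X)) := by gcongr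
    _ = 18 * X * √X := by ring
    _ ≤ 40 * X * √X := by nlinarith [mul_nonneg hX.le hs]

end Pool.Agent.Lib.MP401270
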