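import Pool.Agent.Lib.MP_401270_nt.Spec

/-!
# MP_401270_nt: module SEC (second moment)
-/

set_option autoImplicit false

namespace Pool.Agent.Lib.MP401270.SecM

open Finset

/-- the number of divisors -/
noncomputable def tau (m : ℕ) : ℝ := (m.divisors.card : ℝ)

/-- the harmonic sum -/
noncomputable def HH (X : ℕ) : ℝ := ∑ k ∈ Icc 1 X, 1 / (k : ℝ)

lemma tau_nonneg (m : ℕ) : 0 ≤ tau m := Nat.cast_nonneg _

lemma HH_nonneg (X : ℕ) : 0 ≤ HH X := Finset.sum_nonneg (fun _ _ => by positivity)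

lemma HH_mono {X Y : ℕ} (h : X ≤ Y) : HH X ≤ HH Y :=
  Finset.sum_le_sum_of_subset_of_nonneg (Finset.Icc_subset_Icc_right h) (fun _ _ _ => by positivity)

lemma HH_le {X : ℕ} : HH X ≤ 1 + Real.log X := by
  have h1 := harmonic_le_one_add_log X
  have h2 : ((harmonic X : ℚ) : ℝ) = HH X := by
    rw [harmonic_eq_sum_Icc]
    unfold HH
    push_cast
    apply Finset.sum_congr rfl
    intro k _
    rw [one_div]
  linarith

lemma tau_mul_le (m n : ℕ) : tau (m * n) ≤ tau m * tau n := by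
  unfold tau
  have : (m * n).divisors.card ≤ m.divisors.card * n.divisors.card := by
    rw [Nat.divisors_mul]
    exact Finset.card_mul_le
  exact_mod_cast this

lemma swap (X : ℕ) (g : ℕ → ℕ → ℝ) :
    ∑ m ∈ Icc 1 X, ∑ e ∈ m.divisors, g e (m / e) = ∑ e ∈ Icc 1 X, ∑ k ∈ Icc 1 (X / e), g e k := by
  have h1 : ∑ m ∈ Icc 1 X, ∑ e ∈ m.divisors, g e (m / e)
      = ∑ e ∈ Icc 1 X, ∑ m ∈ (Icc 1 X).filter (fun m => e ∣ m), g e (m / e) := by
    apply Finset.sum_comm'
    intro m e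
    simp only [Finset.mem_Icc, Nat.mem_divisors, Finset.mem_filter]
    constructor
    · rintro ⟨⟨h1, h2⟩, h3, h4⟩
      have := Nat.le_of_dvd (by omega) h3
      have := Nat.pos_of_dvd_of_pos h3 (by omega)
      exact ⟨⟨⟨h1, h2⟩, h3⟩, by omega, by omega⟩
    · rintro ⟨⟨⟨h1, h2⟩, h3⟩, h4, h5⟩
      exact ⟨⟨h1, h2⟩, h3, by omega⟩
  rw [h1]
  apply Finset.sum_congr rfl
  intro e he
  have he1 : 0 < e := (Finset.mem_Icc.1 he).1
  apply Finset.sum_nbij' (fun m => m / e) (fun k => e * k)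
  · intro m hm
    rw [Finset.mem_filter, Finset.mem_Icc] at hm
    rw [Finset.mem_Icc]
    exact ⟨Nat.div_pos (Nat.le_of_dvd (by omega) hm.2) he1, Nat.div_le_div_right hm.1.2⟩
  · intro k hk
    rw [Finset.mem_Icc] at hk
    rw [Finset.mem_filter, Finset.mem_Icc]
    refine ⟨⟨Nat.mul_pos he1 hk.1, ?_⟩, dvd_mul_right _ _⟩
    calc e * k ≤ e * (X / e) := Nat.mul_le_mul_left _ hk.2
      _ ≤ X := Nat.mul_div_le _ _
  · intro m hm
    rw [Finset.mem_filter] at hm
    exact Nat.mul_div_cancel' hm.2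
  · intro k _
    exact Nat.mul_div_cancel_left _ he1
  · intro m _
    rfl

lemma tau_eq (m : ℕ) : tau m = ∑ _e ∈ m.divisors, (1 : ℝ) := by
  unfold tau; simp

/-- `∑ τ(m) ≤ X H` -/
lemma sum_tau (X : ℕ) : ∑ m ∈ Icc 1 X, tau m ≤ X * HH X := by
  have h1 := swap X (fun _ _ => (1 : ℝ))
  have h2 : ∑ m ∈ Icc 1 X, tau m = ∑ e ∈ Icc 1 X, ∑ k ∈ Icc 1 (X / e), (1 : ℝ) := by
    rw [← h1]
    exact Finset.sum_congr rfl (fun m _ => tau_eq m)
  rw [h2]
  unfold HH
  rw [Finset.mul_sum]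
  apply Finset.sum_le_sum
  intro e _
  simp only [Finset.sum_const, Nat.card_Icc, Nat.add_sub_cancel, nsmul_eq_mul, mul_one]
  rw [mul_one_div]
  exact Nat.cast_div_le

/-- `∑ τ(m)/m ≤ H²` -/
lemma sum_tau_div (X : ℕ) : ∑ m ∈ Icc 1 X, tau m / m ≤ HH X ^ 2 := by
  have h1 := swap X (fun e k => 1 / (e : ℝ) * (1 / (k : ℝ)))
  have h2 : ∑ m ∈ Icc 1 X, tau m / m
      = ∑ m ∈ Icc 1 X, ∑ e ∈ m.divisors, 1 / (e : ℝ) * (1 / ((m / e : ℕ) : ℝ)) := by
    apply Finset.sum_congr rfl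
    intro m hm
    rw [tau_eq, Finset.sum_div]
    apply Finset.sum_congr rfl
    intro e he
    rw [Nat.mem_divisors] at he
    have he0 : (e : ℝ) ≠ 0 := by
      have := Nat.pos_of_dvd_of_pos he.1 (Nat.pos_of_ne_zero he.2)
      positivity
    rw [Nat.cast_div he.1 he0]
    have hm0 : (m : ℝ) ≠ 0 := by exact_mod_cast he.2
    field_simp
  rw [h2, h1]
  unfold HH
  rw [sq, Finset.sum_mul]
  apply Finset.sum_le_sum
  intro e _
  rw [← Finset.mul_sum]
  apply mul_le_mul_of_nonneg_left _ (by positivity)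
  exact HH_mono (Nat.div_le_self _ _)

/-- `∑ τ(m)² ≤ X H³` -/
lemma sum_tau_sq (X : ℕ) : ∑ m ∈ Icc 1 X, tau m ^ 2 ≤ X * HH X ^ 3 := by
  have h1 := swap X (fun e k => tau e * tau k)
  calc ∑ m ∈ Icc 1 X, tau m ^ 2 ≤ ∑ m ∈ Icc 1 X, ∑ e ∈ m.divisors, tau e * tau (m / e) := by
        apply Finset.sum_le_sum
        intro m _
        have e0 : tau m ^ 2 = ∑ _e ∈ m.divisors, tau m := by
          rw [Finset.sum_const, nsmul_eq_mul, sq]
          rfl
        rw [e0]
        apply Finset.sum_le_sum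
        intro e he
        have hed := (Nat.mem_divisors.1 he).1
        calc tau m = tau (e * (m / e)) := by rw [Nat.mul_div_cancel' hed]
          _ ≤ _ := tau_mul_le _ _
    _ = ∑ e ∈ Icc 1 X, ∑ k ∈ Icc 1 (X / e), tau e * tau k := h1
    _ ≤ ∑ e ∈ Icc 1 X, X * HH X * (tau e / e) := by
        apply Finset.sum_le_sum
        intro e _
        rw [← Finset.mul_sum]
        have h2 := sum_tau (X / e)
        have h3 : ((X / e : ℕ) : ℝ) * HH (X / e) ≤ X / e * HH X := by
          apply mul_le_mul Nat.cast_div_le (HH_mono (Nat.div_le_self _ _)) (HH_nonneg _) (by positivity)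
        calc tau e * ∑ k ∈ Icc 1 (X / e), tau k ≤ tau e * (X / e * HH X) := by
              apply mul_le_mul_of_nonneg_left (h2.trans h3) (tau_nonneg _)
          _ = _ := by ring
    _ = X * HH X * ∑ e ∈ Icc 1 X, tau e / e := by rw [Finset.mul_sum]
    _ ≤ X * HH X * HH X ^ 2 := by
        apply mul_le_mul_of_nonneg_left (sum_tau_div X)
        exact mul_nonneg (by positivity) (HH_nonneg X)
    _ = _ := by ring

/-- the number `(D - b²)/4` -/
def mm (D : ℕ) (b : ℤ) : ℕ := (((D : ℤ) - b ^ 2) / 4).toNat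

/-- the condition on `b` -/
def OK (D : ℕ) (b : ℤ) : Prop := b ^ 2 < (D : ℤ) ∧ 4 ∣ (D : ℤ) - b ^ 2

open Classical in
lemma card_ND_le {D : ℕ} (hD : ¬ IsSquare D) :
    ((ND D).card : ℝ) ≤ ∑ b ∈ Icc (-(Nat.sqrt D : ℤ)) (Nat.sqrt D), if OK D b then 2 * tau (mm D b) else 0 := by
  have h1 : ∀ x ∈ ND D, x.2 ∈ Icc (-(Nat.sqrt D : ℤ)) (Nat.sqrt D) := by
    intro x hx
    unfold ND at hx
    rw [Finset.mem_filter, Finset.mem_product] at hx
    exact hx.1.2
  rw [Finset.card_eq_sum_card_fiberwise h1]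
  push_cast
  apply Finset.sum_le_sum
  intro b hb
  have hb2 : b ^ 2 < (D : ℤ) := by
    rw [Finset.mem_Icc] at hb
    have h2 : b ^ 2 ≤ (Nat.sqrt D : ℤ) ^ 2 := by nlinarith
    have h3 : (Nat.sqrt D) ^ 2 ≤ D := Nat.sqrt_le' D
    have h4 : ((Nat.sqrt D : ℤ)) ^ 2 ≤ (D : ℤ) := by exact_mod_cast h3
    rcases lt_or_eq_of_le (h2.trans h4) with h5 | h5
    · exact h5
    · exfalso
      apply hD
      refine ⟨b.natAbs, ?_⟩
      have h6 : ((b.natAbs * b.natAbs : ℕ) : ℤ) = (D : ℤ) := by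
        push_cast
        rw [← h5, sq, abs_mul_abs_self]
      exact_mod_cast h6.symm
  split_ifs with hOK
  · -- at most `2 τ` values of `a`
    have hm : ∀ x ∈ (ND D).filter (fun x => x.2 = b), x.1 ∣ (mm D b : ℤ) := by
      intro x hx
      rw [Finset.mem_filter] at hx
      obtain ⟨hx1, rfl⟩ := hx
      unfold ND at hx1
      rw [Finset.mem_filter] at hx1
      obtain ⟨k, hk⟩ := hx1.2.2.2.2
      have e1 : ((D : ℤ) - x.2 ^ 2) / 4 = x.1 * (-k) := by
        have : (D : ℤ) - x.2 ^ 2 = 4 * (x.1 * (-k)) := by linear_combination -hk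
        rw [this, Int.mul_ediv_cancel_left _ (by norm_num)]
      have e2 : (mm D x.2 : ℤ) = ((D : ℤ) - x.2 ^ 2) / 4 := by
        unfold mm
        rw [Int.toNat_of_nonneg]
        apply Int.ediv_nonneg <;> linarith [hOK.1]
      rw [e2, e1]
      exact dvd_mul_right _ _
    have hm0 : mm D b ≠ 0 := by
      obtain ⟨h5, ⟨k, hk⟩⟩ := hOK
      have : ((D : ℤ) - b ^ 2) / 4 = k := by rw [hk, Int.mul_ediv_cancel_left _ (by norm_num)]
      unfold mm
      rw [this]
      omega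
    have hsub : ((ND D).filter (fun x => x.2 = b)) ⊆
        ((mm D b).divisors.image (fun d : ℕ => ((d : ℤ), b))) ∪
        ((mm D b).divisors.image (fun d : ℕ => (-(d : ℤ), b))) := by
      intro x hx
      have h6 := hm x hx
      have h7 : x.1.natAbs ∈ (mm D b).divisors := by
        rw [Nat.mem_divisors]
        exact ⟨Int.natCast_dvd_natCast.1 (by rwa [Int.natCast_natAbs, abs_dvd]), hm0⟩
      rw [Finset.mem_filter] at hx
      rw [Finset.mem_union, Finset.mem_image, Finset.mem_image]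
      rcases Int.natAbs_eq x.1 with h8 | h8
      · left
        exact ⟨x.1.natAbs, h7, Prod.ext h8.symm hx.2.symm⟩
      · right
        exact ⟨x.1.natAbs, h7, Prod.ext h8.symm hx.2.symm⟩
    have h9 := (Finset.card_le_card hsub).trans (Finset.card_union_le _ _)
    have h10 := Finset.card_image_le (s := (mm D b).divisors) (f := fun d : ℕ => ((d : ℤ), b))
    have h11 := Finset.card_image_le (s := (mm D b).divisors) (f := fun d : ℕ => (-(d : ℤ), b))
    have h12 : ((ND D).filter (fun x => x.2 = b)).card ≤ 2 * (mm D b).divisors.card := by omega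
    unfold tau
    exact_mod_cast h12
  · have : (ND D).filter (fun x => x.2 = b) = ∅ := by
      rw [Finset.filter_eq_empty_iff]
      rintro x hx rfl
      apply hOK
      refine ⟨hb2, ?_⟩
      unfold ND at hx
      rw [Finset.mem_filter] at hx
      obtain ⟨k, hk⟩ := hx.2.2.2.2
      exact ⟨x.1 * (-k), by linear_combination -hk⟩
    rw [this]; simp

end Pool.Agent.Lib.MP401270.SecM

namespace Pool.Agent.Lib.MP401270

open Finset SecM

open Classical in
theorem specSEC : SpecSEC := by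
  refine ⟨36, ?_⟩
  intro X hX
  set Y := Nat.sqrt X with hY
  have hXR : (2 : ℝ) ≤ X := by exact_mod_cast hX
  have hY1 : 1 ≤ Y := Nat.sqrt_pos.2 (by omega)
  have hYX : (Y : ℝ) ^ 2 ≤ X := by
    have := Nat.sqrt_le' X
    exact_mod_cast this
  -- pointwise, Cauchy-Schwarz
  have h1 : ∀ D ∈ (range X).filter (fun D => ¬ IsSquare D), ((ND D).card : ℝ) ^ 2
      ≤ (2 * Y + 1) * ∑ b ∈ Icc (-(Y : ℤ)) Y, if OK D b then 4 * tau (mm D b) ^ 2 else 0 := by
    intro D hD
    rw [Finset.mem_filter, Finset.mem_range] at hD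
    have h2 := card_ND_le hD.2
    have hDY : (Nat.sqrt D : ℤ) ≤ Y := by exact_mod_cast Nat.sqrt_le_sqrt hD.1.le
    have h3 : ∑ b ∈ Icc (-(Nat.sqrt D : ℤ)) (Nat.sqrt D), (if OK D b then 2 * tau (mm D b) else 0)
        ≤ ∑ b ∈ Icc (-(Y : ℤ)) Y, if OK D b then 2 * tau (mm D b) else 0 := by
      apply Finset.sum_le_sum_of_subset_of_nonneg
      · apply Finset.Icc_subset_Icc <;> linarith
      · intro b _ _
        split_ifs
        · have := tau_nonneg (mm D b); positivity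
        · exact le_rfl
    have h4 := sq_sum_le_card_mul_sum_sq (s := Icc (-(Y : ℤ)) Y)
      (f := fun b => if OK D b then 2 * tau (mm D b) else 0)
    have h5 : ((Icc (-(Y : ℤ)) Y).card : ℝ) = 2 * Y + 1 := by
      rw [Int.card_Icc]
      have : ((Y : ℤ) + 1 - -(Y : ℤ)).toNat = 2 * Y + 1 := by omega
      rw [this]; push_cast; ring
    rw [h5] at h4
    calc ((ND D).card : ℝ) ^ 2
        ≤ (∑ b ∈ Icc (-(Y : ℤ)) Y, if OK D b then 2 * tau (mm D b) else 0) ^ 2 := by
          apply pow_le_pow_left₀ (by positivity) (h2.trans h3)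
      _ ≤ (2 * Y + 1) * ∑ b ∈ Icc (-(Y : ℤ)) Y, (if OK D b then 2 * tau (mm D b) else 0) ^ 2 := h4
      _ = _ := by
          congr 1
          apply Finset.sum_congr rfl
          intro b _
          split_ifs
          · ring
          · ring
  refine (Finset.sum_le_sum h1).trans ?_
  rw [← Finset.mul_sum, Finset.sum_comm]
  -- for each `b`
  have h2 : ∀ b ∈ Icc (-(Y : ℤ)) Y, ∑ D ∈ (range X).filter (fun D => ¬ IsSquare D),
      (if OK D b then 4 * tau (mm D b) ^ 2 else 0) ≤ 4 * (X * HH X ^ 3) := by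
    intro b _
    have h3 : ∑ D ∈ (range X).filter (fun D => ¬ IsSquare D), (if OK D b then 4 * tau (mm D b) ^ 2 else 0)
        ≤ ∑ D ∈ (range X).filter (fun D => OK D b), 4 * tau (mm D b) ^ 2 := by
      rw [← Finset.sum_filter, Finset.filter_filter]
      apply Finset.sum_le_sum_of_subset_of_nonneg
      · intro D hD
        rw [Finset.mem_filter] at hD ⊢
        exact ⟨hD.1, hD.2.2⟩
      · intro D _ _
        positivity
    have hinj : Set.InjOn (fun D => mm D b) ((range X).filter (fun D => OK D b) : Set ℕ) := by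
      intro D hD D' hD' e
      simp only [Finset.coe_filter, Set.mem_ofPred_eq] at hD hD'
      obtain ⟨_, h5, ⟨k, hk⟩⟩ := hD
      obtain ⟨_, h6, ⟨k', hk'⟩⟩ := hD'
      simp only [mm] at e
      rw [hk, hk', Int.mul_ediv_cancel_left _ (by norm_num), Int.mul_ediv_cancel_left _ (by norm_num)] at e
      omega
    have h4 : ∑ D ∈ (range X).filter (fun D => OK D b), 4 * tau (mm D b) ^ 2
        ≤ ∑ m ∈ Icc 1 X, 4 * tau m ^ 2 := by
      rw [← Finset.sum_image (f := fun m => 4 * tau m ^ 2) hinj]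
      apply Finset.sum_le_sum_of_subset_of_nonneg
      · intro m hm
        rw [Finset.mem_image] at hm
        obtain ⟨D, hD, rfl⟩ := hm
        rw [Finset.mem_filter, Finset.mem_range] at hD
        obtain ⟨h4, h5, ⟨k, hk⟩⟩ := hD
        rw [Finset.mem_Icc]
        unfold mm
        rw [hk, Int.mul_ediv_cancel_left _ (by norm_num)]
        have h6 : (D : ℤ) < X := by exact_mod_cast h4
        have h7 := sq_nonneg b
        constructor <;> omega
      · intro m _ _
        positivity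
    refine h3.trans (h4.trans ?_)
    rw [← Finset.mul_sum]
    have := sum_tau_sq X
    linarith
  refine (mul_le_mul_of_nonneg_left (Finset.sum_le_sum h2) (by positivity)).trans ?_
  rw [Finset.sum_const, nsmul_eq_mul]
  have h5 : ((Icc (-(Y : ℤ)) Y).card : ℝ) = 2 * Y + 1 := by
    rw [Int.card_Icc]
    have : ((Y : ℤ) + 1 - -(Y : ℤ)).toNat = 2 * Y + 1 := by omega
    rw [this]; push_cast; ring
  rw [h5]
  have hY1R : (1 : ℝ) ≤ Y := by exact_mod_cast hY1
  have h6 : (2 * (Y : ℝ) + 1) ^ 2 ≤ 9 * X := by nlinarith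
  have h7 : HH X ^ 3 ≤ (1 + Real.log X) ^ 3 := pow_le_pow_left₀ (HH_nonneg X) HH_le 3
  have h8 : 0 ≤ HH X ^ 3 := pow_nonneg (HH_nonneg X) 3
  calc (2 * (Y : ℝ) + 1) * ((2 * Y + 1) * (4 * (X * HH X ^ 3)))
      = (2 * (Y : ℝ) + 1) ^ 2 * (4 * X * HH X ^ 3) := by ring
    _ ≤ 9 * X * (4 * X * HH X ^ 3) := by gcongr
    _ ≤ 9 * X * (4 * X * (1 + Real.log X) ^ 3) := by gcongr
    _ = _ := by ring

end Pool.Agent.Lib.MP401270
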