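import Pool.Agent.Lib.MP_401270_nt.Spec

/-! # Module SUM: the sum of the class numbers -/

set_option autoImplicit false

namespace Pool.Agent.Lib.MP401270

open Polynomial Finset Filter

namespace SumM

lemma ev_rpow {b : ℝ} (hb : 0 < b) (c : ℝ) : ∀ᶠ x : ℝ in atTop, c ≤ x ^ b :=
  (tendsto_rpow_atTop hb).eventually_ge_atTop c

/-- first asymptotic inequality -/
lemma ev_one {a : ℝ} (ha : 1 < a) :
    ∀ᶠ x : ℝ in atTop, x ^ a + 1 ≤ (x ^ a - x / 2) / Real.log 2 := by
  filter_upwards [ev_rpow (b := a - 1) (by linarith) 4, eventually_ge_atTop (1 : ℝ)] with x h1 h2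
  have hx : 0 < x := by linarith
  have h3 : 4 * x ≤ x ^ a := by
    rw [Real.rpow_sub_one hx.ne', le_div_iff₀ hx] at h1
    exact h1
  have hl : Real.log 2 < 7 / 10 := by linarith [Real.log_two_lt_d9]
  have hl0 : 0 < Real.log 2 := Real.log_pos (by norm_num)
  rw [le_div_iff₀ hl0]
  nlinarith

/-- second asymptotic inequality -/
lemma ev_two {e : ℝ} (he : 0 < e) (C a : ℝ) (ha : a ≤ 3 / 2) :
    ∀ᶠ x : ℝ in atTop, C * (1 + x) ^ 3 * Real.exp (-x ^ e) * (x ^ a) ^ 2 ≤ 1 := by
  have h1 := tendsto_rpow_mul_exp_neg_mul_atTop_nhds_zero (6 / e) 1 one_pos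
  have h2 := h1.comp (tendsto_rpow_atTop he)
  have h3 := h2.const_mul (8 * |C|)
  rw [mul_zero] at h3
  filter_upwards [h3.eventually_le_const (zero_lt_one), eventually_ge_atTop (1 : ℝ)] with x hx hx1
  have hx0 : 0 < x := by linarith
  simp only [Function.comp_apply] at hx
  rw [← Real.rpow_mul hx0.le, mul_div_cancel₀ _ he.ne', neg_mul, one_mul] at hx
  have e6 : x ^ (6 : ℝ) = x ^ 6 := by
    rw [← Real.rpow_natCast]
    norm_num
  rw [e6] at hx
  have h4 : (x ^ a) ^ 2 ≤ x ^ 3 := by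
    have : (x ^ a) ^ 2 = x ^ (2 * a) := by
      rw [← Real.rpow_natCast, ← Real.rpow_mul hx0.le]
      congr 1
      push_cast
      ring
    rw [this, ← Real.rpow_natCast]
    apply Real.rpow_le_rpow_of_exponent_le hx1
    push_cast
    linarith
  have h5 : (1 + x) ^ 3 ≤ 8 * x ^ 3 := by
    have : (1 + x) ^ 3 ≤ (2 * x) ^ 3 := pow_le_pow_left₀ (by linarith) (by linarith) 3
    nlinarith
  have hexp : 0 ≤ Real.exp (-x ^ e) := (Real.exp_pos _).le
  calc C * (1 + x) ^ 3 * Real.exp (-x ^ e) * (x ^ a) ^ 2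
      ≤ |C| * (8 * x ^ 3) * Real.exp (-x ^ e) * x ^ 3 := by
        apply mul_le_mul _ h4 (by positivity) (by positivity)
        apply mul_le_mul_of_nonneg_right _ hexp
        exact mul_le_mul (le_abs_self C) h5 (by positivity) (abs_nonneg _)
    _ = 8 * |C| * (x ^ 6 * Real.exp (-x ^ e)) := by ring
    _ ≤ 1 := hx

end SumM

open SumM in
open Classical in
/-- The bound for large `N`. -/
theorem sumLarge (hBAD : SpecBAD) (hCLS : SpecCLS) (hTRIV : SpecTRIV) (hLAM : SpecLAM)
    (hSEC : SpecSEC) (e : ℝ) (he : 0 < e) (he4 : e ≤ 1 / 4) :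
    ∀ᶠ N : ℕ in atTop, (S N : ℝ) ≤ 41 * ((N : ℝ) ^ (3 / 2 : ℝ) / (Real.log N) ^ (3 / 2 - e)) := by
  obtain ⟨N₀, hN₀⟩ := hBAD e he (by linarith)
  obtain ⟨C, hC⟩ := hSEC
  set a : ℝ := 3 / 2 - e with ha
  have hlog : Tendsto (fun N : ℕ => Real.log (N : ℝ)) atTop atTop :=
    Real.tendsto_log_atTop.comp tendsto_natCast_atTop_atTop
  filter_upwards [hlog.eventually (ev_one (a := a) (by linarith)),
    hlog.eventually (ev_two he C a (by linarith)), eventually_ge_atTop N₀,
    eventually_ge_atTop 3] with N h1 h2 h3 h4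
  set x := Real.log (N : ℝ) with hx
  have hNpos : (0 : ℝ) < N := by
    have : 0 < N := by omega
    exact_mod_cast this
  have hx0 : 0 < x := Real.log_pos (by
    have : 1 < N := by omega
    exact_mod_cast this)
  have hxa : 0 < x ^ a := Real.rpow_pos_of_pos hx0 a
  set B := Real.exp (x ^ a) with hB
  have hsmall := hN₀ N h3
  rw [← hx] at hsmall
  -- the nonsquares
  set NS := (Finset.range N).filter (fun D => ¬ IsSquare D) with hNS
  have hS : (S N : ℝ) = ∑ D ∈ NS, (h D : ℝ) := by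
    unfold S
    rw [hNS, Finset.sum_filter]
    push_cast
    refine Finset.sum_congr rfl (fun D _ => ?_)
    by_cases hD : IsSquare D
    · simp [hD]
    · simp [hD]
  rw [hS, ← Finset.sum_filter_add_sum_filter_not NS (fun D => D ∈ Small N B)]
  have hN32 : (N : ℝ) ^ (3 / 2 : ℝ) = N * √N := by
    rw [show (3 / 2 : ℝ) = 1 + 1 / 2 by norm_num, Real.rpow_add hNpos, Real.rpow_one,
      ← Real.sqrt_eq_rpow]
  have hsq : √(N : ℝ) ^ 2 = N := Real.sq_sqrt hNpos.le
  -- the exceptional discriminants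
  have part2 : ∑ D ∈ NS with D ∈ Small N B, (h D : ℝ) ≤ N * √N / x ^ a := by
    set A2 := NS.filter (fun D => D ∈ Small N B) with hA2
    have c1 : ∑ D ∈ A2, (h D : ℝ) ≤ ∑ D ∈ A2, ((ND D).card : ℝ) := by
      apply Finset.sum_le_sum
      intro D hD
      have hD' : ¬ IsSquare D := (Finset.mem_filter.1 (Finset.mem_filter.1 hD).1).2
      exact_mod_cast hTRIV D hD'
    have c2 : (∑ D ∈ A2, ((ND D).card : ℝ)) ^ 2 ≤ A2.card * ∑ D ∈ A2, ((ND D).card : ℝ) ^ 2 :=
      sq_sum_le_card_mul_sum_sq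
    have c3 : (A2.card : ℝ) ≤ N * Real.exp (-x ^ e) := by
      refine le_trans ?_ hsmall
      have : A2.card ≤ (Small N B).card :=
        Finset.card_le_card (fun D hD => (Finset.mem_filter.1 hD).2)
      exact_mod_cast this
    have c4 : ∑ D ∈ A2, ((ND D).card : ℝ) ^ 2 ≤ C * (N : ℝ) ^ 2 * (1 + x) ^ 3 := by
      refine le_trans ?_ (hC N (by omega))
      apply Finset.sum_le_sum_of_subset_of_nonneg
      · exact Finset.filter_subset _ _
      · intro _ _ _
        positivity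
    have c5 : (∑ D ∈ A2, ((ND D).card : ℝ)) ^ 2 ≤ (N * √N / x ^ a) ^ 2 := by
      refine c2.trans ?_
      have d1 : (0 : ℝ) ≤ ∑ D ∈ A2, ((ND D).card : ℝ) ^ 2 :=
        Finset.sum_nonneg (fun _ _ => by positivity)
      refine (mul_le_mul c3 c4 d1 (by positivity)).trans ?_
      rw [div_pow, le_div_iff₀ (by positivity), mul_pow, hsq]
      have d2 : (N : ℝ) * Real.exp (-x ^ e) * (C * (N : ℝ) ^ 2 * (1 + x) ^ 3) * (x ^ a) ^ 2
          = (N : ℝ) ^ 3 * (C * (1 + x) ^ 3 * Real.exp (-x ^ e) * (x ^ a) ^ 2) := by ring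
      rw [d2]
      have d3 : (N : ℝ) ^ 3 * (C * (1 + x) ^ 3 * Real.exp (-x ^ e) * (x ^ a) ^ 2)
          ≤ (N : ℝ) ^ 3 * 1 := mul_le_mul_of_nonneg_left h2 (by positivity)
      refine d3.trans (le_of_eq ?_)
      ring
    have c6 : ∑ D ∈ A2, ((ND D).card : ℝ) ≤ N * √N / x ^ a :=
      le_of_sq_le_sq c5 (by positivity)
    exact c1.trans c6
  -- the other discriminants
  have part1 : ∑ D ∈ NS with D ∉ Small N B, (h D : ℝ) ≤ 40 * (N * √N) / x ^ a := by
    set A1 := NS.filter (fun D => D ∉ Small N B) with hA1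
    set y := (x ^ a - x / 2) / Real.log 2 with hy
    set K := ⌊y⌋₊ with hK
    have hl0 : 0 < Real.log 2 := Real.log_pos (by norm_num)
    have hy0 : 0 ≤ y := by linarith
    have hKx : x ^ a ≤ K := by
      have := Nat.lt_floor_add_one y
      linarith
    have hK1 : 1 ≤ K := by
      have : (0 : ℝ) < K := by linarith
      have h5 : 0 < K := by exact_mod_cast this
      exact h5
    obtain ⟨J, hJ⟩ : ∃ J, K = J + 1 := ⟨K - 1, by omega⟩
    have hpow : (2 : ℝ) ^ (J + 1) * √N ≤ B := by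
      have e1 : (2 : ℝ) ^ (J + 1) = Real.exp (K * Real.log 2) := by
        rw [← hJ, Real.exp_nat_mul, Real.exp_log (by norm_num)]
      have e2 : √(N : ℝ) = Real.exp (x / 2) := by
        rw [hx, Real.exp_half, Real.exp_log hNpos]
      rw [e1, e2, ← Real.exp_add, hB]
      apply Real.exp_le_exp.2
      have e3 : (K : ℝ) ≤ y := Nat.floor_le hy0
      have e4 : y * Real.log 2 = x ^ a - x / 2 := by
        rw [hy]
        field_simp
      nlinarith
    have hcls : ∀ D ∈ A1, h D * K ≤ ∑ z ∈ ND D, wt D z.1 := by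
      intro D hD
      rw [hA1, Finset.mem_filter, hNS, Finset.mem_filter] at hD
      obtain ⟨⟨hDN, hDs⟩, hDS⟩ := hD
      rw [hJ]
      apply hCLS D J hDs
      intro t s hs ht
      have hgt : B < ((t : ℝ) + s * √D) / 2 := by
        by_contra hcon
        push Not at hcon
        apply hDS
        unfold Small
        rw [Finset.mem_filter]
        exact ⟨hDN, t, s, hs, ht, hcon⟩
      have hDN' : √(D : ℝ) ≤ √N := by
        apply Real.sqrt_le_sqrt
        have := Finset.mem_range.1 hDN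
        exact_mod_cast this.le
      have : (2 : ℝ) ^ (J + 1) * √D ≤ 2 ^ (J + 1) * √N :=
        mul_le_mul_of_nonneg_left hDN' (by positivity)
      linarith
    have hsum : (∑ D ∈ A1, h D) * K ≤ ∑ D ∈ Finset.range N, ∑ z ∈ ND D, wt D z.1 := by
      rw [Finset.sum_mul]
      refine (Finset.sum_le_sum hcls).trans ?_
      apply Finset.sum_le_sum_of_subset
      intro D hD
      rw [hA1, Finset.mem_filter, hNS, Finset.mem_filter] at hD
      exact hD.1.1
    have hsum' : (∑ D ∈ A1, (h D : ℝ)) * K ≤ 40 * N * √N := by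
      refine le_trans ?_ (hLAM N)
      exact_mod_cast hsum
    rw [le_div_iff₀ hxa]
    have hnn : (0 : ℝ) ≤ ∑ D ∈ A1, (h D : ℝ) := Finset.sum_nonneg (fun _ _ => by positivity)
    have := mul_le_mul_of_nonneg_left hKx hnn
    linarith
  have hfin : 41 * ((N : ℝ) ^ (3 / 2 : ℝ) / x ^ a) = N * √N / x ^ a + 40 * (N * √N) / x ^ a := by
    rw [hN32]
    ring
  rw [hfin]
  exact add_le_add part2 part1

open SumM in
theorem specSUM (hBAD : SpecBAD) (hCLS : SpecCLS) (hTRIV : SpecTRIV) (hLAM : SpecLAM)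
    (hSEC : SpecSEC) : SpecSUM := by
  classical
  intro ε hε
  set e := min ε (1 / 4) with he
  have he0 : 0 < e := lt_min hε (by norm_num)
  have hee : e ≤ ε := min_le_left _ _
  obtain ⟨N₁, hN₁⟩ := eventually_atTop.1
    (sumLarge hBAD hCLS hTRIV hLAM hSEC e he0 (min_le_right _ _))
  set F : ℕ → ℝ := fun N => (N : ℝ) ^ (3 / 2 : ℝ) / (Real.log N) ^ (3 / 2 - ε) with hF
  have hFpos : ∀ N : ℕ, 2 ≤ N → 0 < F N := by
    intro N hN
    have h1 : (0 : ℝ) < N := by
      have : 0 < N := by omega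
      exact_mod_cast this
    have h2 : 0 < Real.log (N : ℝ) := Real.log_pos (by
      have : 1 < N := by omega
      exact_mod_cast this)
    exact div_pos (Real.rpow_pos_of_pos h1 _) (Real.rpow_pos_of_pos h2 _)
  refine ⟨41 + ∑ N ∈ Finset.Ico 2 (max N₁ 3), (S N : ℝ) / F N, fun N hN => ?_⟩
  have hpos := hFpos N hN
  have hsum0 : 0 ≤ ∑ N ∈ Finset.Ico 2 (max N₁ 3), (S N : ℝ) / F N :=
    Finset.sum_nonneg (fun M hM => div_nonneg (by positivity)
      (hFpos M (Finset.mem_Ico.1 hM).1).le)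
  by_cases hlt : N < max N₁ 3
  · have h1 : (S N : ℝ) / F N ≤ ∑ N ∈ Finset.Ico 2 (max N₁ 3), (S N : ℝ) / F N :=
      Finset.single_le_sum (f := fun N => (S N : ℝ) / F N) (fun M hM => div_nonneg (by positivity)
        (hFpos M (Finset.mem_Ico.1 hM).1).le) (Finset.mem_Ico.2 ⟨hN, hlt⟩)
    have h2 : (S N : ℝ) = (S N : ℝ) / F N * F N := by
      field_simp
    change (S N : ℝ) ≤ _ * F N
    rw [h2]
    apply mul_le_mul_of_nonneg_right _ hpos.le
    linarith
  · push Not at hlt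
    have h1 := hN₁ N ((le_max_left _ _).trans hlt)
    have hN3 : 3 ≤ N := (le_max_right _ _).trans hlt
    have hlog1 : 1 ≤ Real.log (N : ℝ) := by
      rw [Real.le_log_iff_exp_le (by positivity)]
      have h2 := Real.exp_one_lt_d9
      have h3 : (3 : ℝ) ≤ N := by exact_mod_cast hN3
      linarith
    have h2 : (N : ℝ) ^ (3 / 2 : ℝ) / (Real.log N) ^ (3 / 2 - e) ≤ F N := by
      apply div_le_div_of_nonneg_left (by positivity) (by positivity)
      apply Real.rpow_le_rpow_of_exponent_le hlog1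
      linarith
    change (S N : ℝ) ≤ _ * F N
    have h3 : 41 * ((N : ℝ) ^ (3 / 2 : ℝ) / (Real.log N) ^ (3 / 2 - e)) ≤ 41 * F N :=
      mul_le_mul_of_nonneg_left h2 (by norm_num)
    have h4 := mul_nonneg hsum0 hpos.le
    nlinarith

end Pool.Agent.Lib.MP401270
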