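import Pool.Agent.Lib.MP_401270_nt.Spec

/-!
# MP_401270_nt: module TRIV and the common lemmas on forms for CLS
-/

set_option autoImplicit false

namespace Pool.Agent.Lib.MP401270.TrivM

open Finset

/-- the value of the form -/
def fv (a b c x y : ℤ) : ℤ := a * x ^ 2 + b * x * y + c * y ^ 2

/-- the middle coefficient after a substitution -/
def bv (a b c p q r s : ℤ) : ℤ := 2 * a * p * q + b * (p * s + q * r) + 2 * c * r * s

lemma disc_act {a b c p q r s : ℤ} {D : ℕ} (h : b ^ 2 - 4 * a * c = (D : ℤ)) (hd : p * s - q * r = 1) :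
    bv a b c p q r s ^ 2 - 4 * fv a b c p r * fv a b c q s = (D : ℤ) := by
  have : bv a b c p q r s ^ 2 - 4 * fv a b c p r * fv a b c q s
      = (b ^ 2 - 4 * a * c) * (p * s - q * r) ^ 2 := by
    unfold bv fv; ring
  rw [this, h, hd]; ring

lemma gcd_act {a b c p q r s : ℤ} (hg : Int.gcd (Int.gcd a b : ℤ) c = 1) (hd : p * s - q * r = 1) :
    Int.gcd (Int.gcd (fv a b c p r) (bv a b c p q r s) : ℤ) (fv a b c q s) = 1 := by
  set A := fv a b c p r with hA
  set B := bv a b c p q r s with hB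
  set C := fv a b c q s with hC
  have ea : a = A * s ^ 2 - B * s * r + C * r ^ 2 := by
    have : A * s ^ 2 - B * s * r + C * r ^ 2 = a * (p * s - q * r) ^ 2 := by
      rw [hA, hB, hC]; unfold bv fv; ring
    rw [this, hd]; ring
  have eb : b = -2 * A * s * q + B * (p * s + q * r) - 2 * C * r * p := by
    have : -2 * A * s * q + B * (p * s + q * r) - 2 * C * r * p = b * (p * s - q * r) ^ 2 := by
      rw [hA, hB, hC]; unfold bv fv; ring
    rw [this, hd]; ring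
  have ec : c = A * q ^ 2 - B * p * q + C * p ^ 2 := by
    have : A * q ^ 2 - B * p * q + C * p ^ 2 = c * (p * s - q * r) ^ 2 := by
      rw [hA, hB, hC]; unfold bv fv; ring
    rw [this, hd]; ring
  set g := Int.gcd (Int.gcd A B : ℤ) C with hgd
  have gA : (g : ℤ) ∣ A := (Int.gcd_dvd_left _ _).trans (Int.gcd_dvd_left _ _)
  have gB : (g : ℤ) ∣ B := (Int.gcd_dvd_left _ _).trans (Int.gcd_dvd_right _ _)
  have gC : (g : ℤ) ∣ C := Int.gcd_dvd_right _ _
  have ga : (g : ℤ) ∣ a := by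
    rw [ea]
    exact ((gA.mul_right _).sub ((gB.mul_right _).mul_right _)).add (gC.mul_right _)
  have gb : (g : ℤ) ∣ b := by
    rw [eb]
    refine ((?_ : (g : ℤ) ∣ _).add (gB.mul_right _)).sub ?_
    · exact ((gA.mul_left _).mul_right _).mul_right _
    · exact ((gC.mul_left _).mul_right _).mul_right _
  have gc : (g : ℤ) ∣ c := by
    rw [ec]
    exact ((gA.mul_right _).sub ((gB.mul_right _).mul_right _)).add (gC.mul_right _)
  have h1 : (g : ℤ) ∣ (Int.gcd (Int.gcd a b : ℤ) c : ℤ) :=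
    Int.dvd_coe_gcd (Int.dvd_coe_gcd ga gb) gc
  rw [hg] at h1
  have := Int.eq_one_of_dvd_one (by positivity) h1
  exact_mod_cast this

/-- the linear factor `2 a x + (b - √D) y` -/
noncomputable def al (D : ℕ) (a b x y : ℤ) : ℝ := 2 * a * x + (b - √D) * y

/-- the linear factor `2 a x + (b + √D) y` -/
noncomputable def be (D : ℕ) (a b x y : ℤ) : ℝ := 2 * a * x + (b + √D) * y

lemma al_be {D : ℕ} {a b c : ℤ} (h : b ^ 2 - 4 * a * c = (D : ℤ)) (x y : ℤ) :
    al D a b x y * be D a b x y = 4 * a * (fv a b c x y : ℝ) := by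
  have h1 : √(D : ℝ) ^ 2 = D := Real.sq_sqrt (by positivity)
  have h2 : ((b : ℝ) ^ 2 - 4 * a * c) = D := by exact_mod_cast h
  unfold al be fv
  push_cast
  linear_combination (-(y : ℝ) ^ 2) * h1 + (y : ℝ) ^ 2 * h2

lemma be_eq {D : ℕ} {a b : ℤ} (x y : ℤ) : be D a b x y = al D a b x y + 2 * √D * y := by
  unfold al be; ring

lemma a_ne {a b c : ℤ} {D : ℕ} (h : b ^ 2 - 4 * a * c = (D : ℤ)) (hD : ¬ IsSquare D) : a ≠ 0 := by
  rintro rfl
  apply hD
  have h1 : (D : ℤ) = b * b := by linear_combination -h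
  refine ⟨b.natAbs, ?_⟩
  have := congrArg Int.natAbs h1
  rw [Int.natAbs_natCast, Int.natAbs_mul] at this
  exact this

lemma two_le {D : ℕ} (hD : ¬ IsSquare D) : 2 ≤ D := by
  by_contra h
  apply hD
  interval_cases D
  · exact ⟨0, rfl⟩
  · exact ⟨1, rfl⟩

lemma sqrt_irr {D : ℕ} (hD : ¬ IsSquare D) : Irrational (√(D : ℝ)) := by
  rw [irrational_sqrt_natCast_iff]
  exact hD

lemma al_ne {D : ℕ} (hD : ¬ IsSquare D) (a b x y : ℤ) (hy : y ≠ 0) : al D a b x y ≠ 0 := by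
  intro h
  apply sqrt_irr hD
  refine ⟨(2 * a * x + b * y : ℤ) / (y : ℤ), ?_⟩
  have hy' : (y : ℝ) ≠ 0 := by exact_mod_cast hy
  unfold al at h
  push_cast
  rw [div_eq_iff hy']
  linear_combination h

lemma fv_ne {D : ℕ} {a b c : ℤ} (h : b ^ 2 - 4 * a * c = (D : ℤ)) (hD : ¬ IsSquare D) (x y : ℤ)
    (hy : y ≠ 0) : fv a b c x y ≠ 0 := by
  intro h0
  have h1 := al_be h x y
  rw [h0] at h1
  have h2 : al D a b x y * be D a b x y = 0 := by rw [h1]; simp
  rcases mul_eq_zero.1 h2 with h3 | h3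
  · exact al_ne hD a b x y hy h3
  · have h4 : al D (-a) (-b) x y = 0 := by
      have : al D (-a) (-b) x y = - be D a b x y := by unfold al be; push_cast; ring
      rw [this, h3, neg_zero]
    exact al_ne hD (-a) (-b) x y hy h4

/-- Dirichlet: a primitive vector with a small value -/
lemma exists_vec {D : ℕ} {a b c : ℤ} (h : b ^ 2 - 4 * a * c = (D : ℤ)) (hD : ¬ IsSquare D) (n : ℕ)
    (hn : a.natAbs ≤ n) :
    ∃ x y : ℤ, IsCoprime x y ∧ 0 < y ∧ y ≤ n ∧ |al D a b x y| ≤ 2 * |(a : ℝ)| / (n + 1) ∧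
      |(fv a b c x y : ℝ)| < √D := by
  have ha := a_ne h hD
  have ha1 : 1 ≤ a.natAbs := Int.natAbs_pos.2 ha
  have hn1 : 0 < n := by omega
  have haR : (a : ℝ) ≠ 0 := by exact_mod_cast ha
  have haA : (0 : ℝ) < |(a : ℝ)| := abs_pos.2 haR
  have han : |(a : ℝ)| ≤ n := by
    have : ((a.natAbs : ℕ) : ℝ) ≤ n := by exact_mod_cast hn
    rwa [Nat.cast_natAbs, Int.cast_abs] at this
  have hδ1 : (1 : ℝ) ≤ √(D : ℝ) := by
    rw [Real.one_le_sqrt]
    exact_mod_cast (by have := two_le hD; omega : 1 ≤ D)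
  obtain ⟨j, k, hk0, hkn, hjk⟩ := Real.exists_int_int_abs_mul_sub_le ((√(D : ℝ) - b) / (2 * a)) hn1
  -- the vector (j, k)
  have hal : |al D a b j k| ≤ 2 * |(a : ℝ)| / (n + 1) := by
    have e1 : al D a b j k = -(2 * a) * (k * ((√(D : ℝ) - b) / (2 * a)) - j) := by
      unfold al; field_simp; ring
    rw [e1, abs_mul, abs_neg, abs_mul, abs_two]
    calc 2 * |(a : ℝ)| * |k * ((√(D : ℝ) - b) / (2 * a)) - j| ≤ 2 * |(a : ℝ)| * (1 / (n + 1)) := by
          gcongr
      _ = _ := by ring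
  set g := Int.gcd j k with hg
  have hg0 : 0 < g := Int.gcd_pos_of_ne_zero_right _ hk0.ne'
  obtain ⟨x, hx⟩ : (g : ℤ) ∣ j := Int.gcd_dvd_left _ _
  obtain ⟨y, hy⟩ : (g : ℤ) ∣ k := Int.gcd_dvd_right _ _
  have hgZ : (0 : ℤ) < g := by exact_mod_cast hg0
  have hy0 : 0 < y := by
    rw [hy] at hk0
    by_contra hcon
    push Not at hcon
    have := mul_nonpos_of_nonneg_of_nonpos hgZ.le hcon
    omega
  have hyk : y ≤ k := by
    rw [hy]; nlinarith
  have hgR : (1 : ℝ) ≤ (g : ℝ) := by exact_mod_cast hg0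
  have hal2 : |al D a b x y| ≤ 2 * |(a : ℝ)| / (n + 1) := by
    have e1 : al D a b j k = g * al D a b x y := by
      unfold al
      rw [hx, hy]; push_cast; ring
    rw [e1, abs_mul, abs_of_pos (by linarith : (0 : ℝ) < g)] at hal
    have := abs_nonneg (al D a b x y)
    nlinarith
  refine ⟨x, y, ?_, hy0, ?_, hal2, ?_⟩
  · rw [Int.isCoprime_iff_gcd_eq_one]
    have h1 : Int.gcd j k = g * Int.gcd x y := by
      conv_lhs => rw [hx, hy]
      rw [Int.gcd_mul_left, Int.natAbs_natCast]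
    have h2 : g * Int.gcd x y = g * 1 := by rw [mul_one, ← h1]
    exact Nat.eq_of_mul_eq_mul_left hg0 h2
  · exact hyk.trans hkn
  · have hb : |be D a b x y| ≤ 2 * |(a : ℝ)| / (n + 1) + 2 * √D * n := by
      rw [be_eq]
      refine (abs_add_le _ _).trans (add_le_add hal2 ?_)
      rw [abs_of_nonneg (by have : (0 : ℝ) < y := by exact_mod_cast hy0
                            positivity)]
      have : (y : ℝ) ≤ n := by exact_mod_cast hyk.trans hkn
      gcongr
    have h1 := congrArg abs (al_be h x y)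
    rw [abs_mul, abs_mul, abs_mul, abs_of_pos (by norm_num : (0 : ℝ) < 4)] at h1
    have h2 : |al D a b x y| * |be D a b x y|
        ≤ 2 * |(a : ℝ)| / (n + 1) * (2 * |(a : ℝ)| / (n + 1) + 2 * √D * n) := by
      apply mul_le_mul hal2 hb (abs_nonneg _) (by positivity)
    have hn2 : (0 : ℝ) < (n : ℝ) + 1 := by positivity
    have h3 : 2 * |(a : ℝ)| / (n + 1) * (2 * |(a : ℝ)| / (n + 1) + 2 * √D * n)
        < 4 * |(a : ℝ)| * √D := by
      have e1 : 2 * |(a : ℝ)| / (n + 1) * (2 * |(a : ℝ)| / (n + 1) + 2 * √D * n)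
          = 4 * |(a : ℝ)| * ((|(a : ℝ)| / (n + 1) + √D * n) / (n + 1)) := by
        field_simp; ring
      rw [e1]
      apply mul_lt_mul_of_pos_left _ (by positivity)
      rw [div_lt_iff₀ hn2]
      have : |(a : ℝ)| / (n + 1) < 1 := by
        rw [div_lt_one hn2]; linarith
      nlinarith
    rw [h1] at h2
    have h4 := lt_of_le_of_lt h2 h3
    have h5 : 0 < 4 * |(a : ℝ)| := by positivity
    exact lt_of_mul_lt_mul_left h4 h5.le

/-- reduction of the middle coefficient -/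
lemma exists_shift (A B : ℤ) (hA : A ≠ 0) : ∃ m : ℤ, -|A| < B + 2 * A * m ∧ B + 2 * A * m ≤ |A| := by
  have hA0 : 0 < |A| := abs_pos.2 hA
  have h1 := Int.emod_nonneg (|A| - B) (show 2 * |A| ≠ 0 by omega)
  have h2 := Int.emod_lt_of_pos (|A| - B) (show 0 < 2 * |A| by omega)
  have h3 := Int.emod_add_mul_ediv (|A| - B) (2 * |A|)
  set t := (|A| - B) / (2 * |A|) with ht
  rcases abs_choice A with hc | hc
  · refine ⟨t, ?_⟩
    have e1 : A * t = |A| * t := by rw [hc]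
    constructor <;> nlinarith
  · refine ⟨-t, ?_⟩
    have e1 : A * -t = |A| * t := by rw [hc]; ring
    constructor <;> nlinarith

/-- the substitution, reduced -/
lemma exists_mat {D : ℕ} {a b c : ℤ} (h : b ^ 2 - 4 * a * c = (D : ℤ)) (hD : ¬ IsSquare D) (n : ℕ)
    (hn : a.natAbs ≤ n) :
    ∃ p q r s : ℤ, p * s - q * r = 1 ∧ 0 < r ∧ r ≤ n ∧
      |al D a b p r| ≤ 2 * |(a : ℝ)| / (n + 1) ∧ |(fv a b c p r : ℝ)| < √D ∧
      -|fv a b c p r| < bv a b c p q r s ∧ bv a b c p q r s ≤ |fv a b c p r| := by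
  obtain ⟨x, y, ⟨u, v, huv⟩, hy, hyn, h1, h2⟩ := exists_vec h hD n hn
  obtain ⟨m, hm1, hm2⟩ := exists_shift (fv a b c x y) (bv a b c x (-v) y u)
    (fv_ne h hD x y hy.ne')
  refine ⟨x, -v + m * x, y, u + m * y, by linear_combination huv, hy, hyn, h1, h2, ?_, ?_⟩
  · have : bv a b c x (-v + m * x) y (u + m * y) = bv a b c x (-v) y u + 2 * fv a b c x y * m := by
      unfold bv fv; ring
    rw [this]; exact hm1
  · have : bv a b c x (-v + m * x) y (u + m * y) = bv a b c x (-v) y u + 2 * fv a b c x y * m := by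
      unfold bv fv; ring
    rw [this]; exact hm2

/-- the substitution as a form -/
def act {D : ℕ} (u : Form D) (p q r s : ℤ) (hd : p * s - q * r = 1) : Form D :=
  ⟨(fv u.1.1 u.1.2.1 u.1.2.2 p r, bv u.1.1 u.1.2.1 u.1.2.2 p q r s, fv u.1.1 u.1.2.1 u.1.2.2 q s),
    disc_act u.2.1 hd, gcd_act u.2.2 hd⟩

lemma eqv_act {D : ℕ} (u : Form D) (p q r s : ℤ) (hd : p * s - q * r = 1) :
    Eqv D u (act u p q r s hd) :=
  ⟨p, q, r, s, hd, rfl, rfl, rfl⟩

lemma mem_ND {D : ℕ} {A B C : ℤ} (h : B ^ 2 - 4 * A * C = (D : ℤ)) (hA : A ≠ 0)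
    (h1 : |(A : ℝ)| < √D) (h2 : -|A| < B) (h3 : B ≤ |A|) : (A, B) ∈ ND D := by
  have hA2 : A ^ 2 < (D : ℤ) := by
    have e1 : |(A : ℝ)| ^ 2 < √(D : ℝ) ^ 2 := by
      apply pow_lt_pow_left₀ h1 (abs_nonneg _) (by norm_num)
    rw [sq_abs, Real.sq_sqrt (by positivity)] at e1
    exact_mod_cast e1
  have hA3 : |A| ≤ (Nat.sqrt D : ℤ) := by
    have e1 : A.natAbs ≤ Nat.sqrt D := by
      rw [Nat.le_sqrt']
      have : ((A.natAbs ^ 2 : ℕ) : ℤ) ≤ (D : ℤ) := by
        push_cast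
        rw [sq_abs]
        exact hA2.le
      exact_mod_cast this
    rw [← Int.natCast_natAbs]
    exact_mod_cast e1
  have hA4 := abs_le.1 hA3
  unfold ND
  rw [Finset.mem_filter, Finset.mem_product, Finset.mem_Icc, Finset.mem_Icc]
  refine ⟨⟨hA4, ⟨?_, ?_⟩⟩, hA, h2, h3, ⟨C, ?_⟩⟩
  · simp only; linarith
  · simp only; linarith
  · simp only; linear_combination h

lemma form_ext {D : ℕ} {u v : Form D} (hu : u.1.1 ≠ 0) (h1 : u.1.1 = v.1.1)
    (h2 : u.1.2.1 = v.1.2.1) : u = v := by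
  have e1 := u.2.1
  have e2 := v.2.1
  have h3 : u.1.2.2 = v.1.2.2 := by
    rw [← h1, ← h2] at e2
    have : 4 * u.1.1 * u.1.2.2 = 4 * u.1.1 * v.1.2.2 := by linarith
    exact mul_left_cancel₀ (by simpa using hu) this
  apply Subtype.ext
  exact Prod.ext h1 (Prod.ext h2 h3)

/-- every form is equivalent to one in `ND D` -/
lemma exists_nd {D : ℕ} (hD : ¬ IsSquare D) (u : Form D) :
    ∃ v : Form D, Eqv D u v ∧ v.1.1 ≠ 0 ∧ (v.1.1, v.1.2.1) ∈ ND D := by
  obtain ⟨p, q, r, s, hd, hr, _, _, h1, h2, h3⟩ := exists_mat u.2.1 hD u.1.1.natAbs le_rfl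
  have hA := fv_ne u.2.1 hD p r hr.ne'
  exact ⟨act u p q r s hd, eqv_act u p q r s hd, hA, mem_ND (disc_act u.2.1 hd) hA h1 h2 h3⟩

/-- the representative of a class -/
lemma exists_rep {D : ℕ} (hD : ¬ IsSquare D) (κ : Quot (Eqv D)) :
    ∃ v : Form D, Quot.mk _ v = κ ∧ v.1.1 ≠ 0 ∧ (v.1.1, v.1.2.1) ∈ ND D := by
  obtain ⟨u, rfl⟩ := Quot.exists_rep κ
  obtain ⟨v, h1, h2, h3⟩ := exists_nd hD u
  exact ⟨v, (Quot.sound h1).symm, h2, h3⟩

end Pool.Agent.Lib.MP401270.TrivM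

namespace Pool.Agent.Lib.MP401270

open TrivM

theorem specTRIV : SpecTRIV := by
  intro D hD
  choose F hF1 hF2 hF3 using exists_rep hD
  have hinj : Function.Injective (fun κ : Quot (Eqv D) => (⟨((F κ).1.1, (F κ).1.2.1), hF3 κ⟩ : ND D)) := by
    intro κ κ' hk
    simp only [Subtype.mk.injEq, Prod.mk.injEq] at hk
    have := form_ext (hF2 κ) hk.1 hk.2
    rw [← hF1 κ, ← hF1 κ', this]
  have h1 := Nat.card_le_card_of_injective _ hinj
  unfold h
  rwa [Nat.card_eq_fintype_card (α := ND D), Fintype.card_coe] at h1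

/-- the class set is finite -/
lemma TrivM.finite_quot {D : ℕ} (hD : ¬ IsSquare D) : Finite (Quot (Eqv D)) := by
  choose F hF1 hF2 hF3 using exists_rep hD
  have hinj : Function.Injective (fun κ : Quot (Eqv D) => (⟨((F κ).1.1, (F κ).1.2.1), hF3 κ⟩ : ND D)) := by
    intro κ κ' hk
    simp only [Subtype.mk.injEq, Prod.mk.injEq] at hk
    have := form_ext (hF2 κ) hk.1 hk.2
    rw [← hF1 κ, ← hF1 κ', this]
  exact Finite.of_injective _ hinj

end Pool.Agent.Lib.MP401270
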