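import Pool.Agent.Lib.MP_401270_nt.Final
import Pool.Agent.Lib.MP_401270_nt.Cls
import Pool.Agent.Lib.MP_401270_nt.Triv
import Pool.Agent.Lib.MP_401270_nt.Lam
import Pool.Agent.Lib.MP_401270_nt.Sec
import Pool.Agent.Lib.MP_401270_nt.Sum

set_option autoImplicit false

namespace Pool.Agent.Lib.MP401270

theorem classSum : SpecSUM := specSUM bad specCLS specTRIV specLAM specSEC

end Pool.Agent.Lib.MP401270
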