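import Pool.Agent.Lib.MP_401270_nt.Spec

set_option autoImplicit false

namespace Pool.Agent.Lib.MP401270

open Finset Polynomial

namespace PigM

/-- The polynomial with given coefficients below `E`. -/
noncomputable def pol {R : Type*} [CommRing R] (E : ℕ) (f : ℕ → R) : R[X] :=
  ∑ i ∈ range E, C (f i) * X ^ i

theorem pol_coeff {R : Type*} [CommRing R] (E : ℕ) (f : ℕ → R) (m : ℕ) :
    (pol E f).coeff m = if m < E then f m else 0 := by
  simp [pol, finsetSum_coeff, coeff_C_mul, coeff_X_pow]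

theorem pol_natDegree {R : Type*} [CommRing R] (E : ℕ) (f : ℕ → R) (hE : 1 ≤ E) :
    (pol E f).natDegree < E := by
  have : (pol E f).natDegree ≤ E - 1 := by
    rw [natDegree_le_iff_coeff_eq_zero]
    intro N hN
    rw [pol_coeff, if_neg (by omega)]
  omega

theorem pol_eval {R : Type*} [CommRing R] (E : ℕ) (f : ℕ → R) (x : R) :
    (pol E f).eval x = ∑ i ∈ range E, f i * x ^ i := by
  simp [pol, eval_finsetSum]

/-- Bound for one coefficient of a product. -/
theorem coef_bound (E m : ℕ) (f g : ℕ → ℝ) (B t : ℝ) (hB : 0 ≤ B) (ht : 0 ≤ t)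
    (hf : ∀ i, |f i| ≤ B) (hf0 : ∀ i, E ≤ i → f i = 0)
    (hg : ∀ k, k < E → k ≤ m → |g (m - k)| ≤ t) :
    |∑ k ∈ range (m + 1), f k * g (m - k)| ≤ E * B * t := by
  calc |∑ k ∈ range (m + 1), f k * g (m - k)| ≤ ∑ k ∈ range (m + 1), |f k * g (m - k)| :=
        abs_sum_le_sum_abs _ _
    _ ≤ ∑ k ∈ range (m + 1), (if k < E then B * t else 0) := by
        refine sum_le_sum fun k hk => ?_
        have hk' := mem_range.1 hk
        split_ifs with h
        · rw [abs_mul]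
          exact mul_le_mul (hf k) (hg k h (by omega)) (abs_nonneg _) hB
        · rw [hf0 k (by omega), zero_mul, abs_zero]
    _ = ((range (m + 1)).filter (fun k => k < E)).card * (B * t) := by
        rw [← sum_filter, sum_const, nsmul_eq_mul]
    _ ≤ E * (B * t) := by
        have : ((range (m + 1)).filter (fun k => k < E)).card ≤ E := by
          calc ((range (m + 1)).filter (fun k => k < E)).card ≤ (range E).card :=
                card_le_card (fun k hk => mem_range.2 (mem_filter.1 hk).2)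
            _ = E := card_range E
        gcongr
    _ = E * B * t := by ring

/-- The coefficient of `w^m` in `Q T`. -/
noncomputable def cc (a : ℕ → ℝ) (M : ℕ) (f : ℕ → ℝ) (m : ℕ) : ℝ :=
  ∑ k ∈ range (m + 1), f k * (if m - k < M then a (m - k) else 0)

theorem cc_sub (a : ℕ → ℝ) (M : ℕ) (f g : ℕ → ℝ) (m : ℕ) :
    cc a M (fun i => f i - g i) m = cc a M f m - cc a M g m := by
  unfold cc
  rw [← sum_sub_distrib]
  exact sum_congr rfl fun k _ => by ring

theorem cc_eq (a : ℕ → ℝ) (E M : ℕ) (f : ℕ → ℝ) (hf0 : ∀ i, E ≤ i → f i = 0) (m : ℕ) :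
    (pol E f * pol M a).coeff m = cc a M f m := by
  rw [coeff_mul, Finset.Nat.sum_antidiagonal_eq_sum_range_succ_mk]
  unfold cc
  refine sum_congr rfl fun k _ => ?_
  simp only [pol_coeff]
  by_cases hk : k < E
  · rw [if_pos hk]
  · rw [if_neg hk, hf0 k (by omega), zero_mul]

/-- Arithmetic of the box principle: few boxes. -/
theorem boxes (K L D S : ℕ) (hK : 1 ≤ K) (hL : 14400 * K ^ 4 ≤ L) (hD : L ^ (80 * K ^ 2) ≤ D)
    (b : ℕ → ℝ) (hb0 : ∀ m, 0 ≤ b m)
    (hb1 : ∀ m, m < 12 * K ^ 2 → b m ≤ S * (L : ℝ) ^ (m + 1))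
    (hb2 : ∀ j, j < 2 * K + 1 → b (12 * K ^ 2 + j) ≤ (D : ℝ) ^ (2 * K - j) * (L : ℝ) ^ (j + 2)) :
    ∏ m ∈ range (12 * K ^ 2 + (2 * K + 1)), b m ≤
      (S * √D / (L : ℝ) ^ (12 * K ^ 2)) ^ (12 * K ^ 2) := by
  have hK2 : 1 ≤ K ^ 2 := Nat.one_le_pow _ _ hK
  have hK4 : 1 ≤ K ^ 4 := Nat.one_le_pow _ _ hK
  have hL1 : 1 ≤ L := by omega
  have hL0 : (0 : ℝ) < L := by exact_mod_cast hL1
  have hL1' : (1 : ℝ) ≤ L := by exact_mod_cast hL1
  have hD1 : 1 ≤ D := le_trans (Nat.one_le_pow _ _ hL1) hD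
  have hD0 : (0 : ℝ) < D := by exact_mod_cast hD1
  have hD1' : (1 : ℝ) ≤ D := by exact_mod_cast hD1
  set E := 12 * K ^ 2 with hE
  rw [prod_range_add]
  have h1 : ∏ m ∈ range E, b m ≤ (S : ℝ) ^ E * (L : ℝ) ^ (∑ m ∈ range E, (m + 1)) := by
    calc ∏ m ∈ range E, b m ≤ ∏ m ∈ range E, ((S : ℝ) * (L : ℝ) ^ (m + 1)) :=
          prod_le_prod (fun m _ => hb0 m) (fun m hm => hb1 m (mem_range.1 hm))
      _ = _ := by rw [prod_mul_distrib, prod_const, card_range, prod_pow_eq_pow_sum]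
  have h2 : ∏ j ∈ range (2 * K + 1), b (E + j) ≤
      (D : ℝ) ^ (∑ j ∈ range (2 * K + 1), (2 * K - j)) *
        (L : ℝ) ^ (∑ j ∈ range (2 * K + 1), (j + 2)) := by
    calc ∏ j ∈ range (2 * K + 1), b (E + j) ≤
          ∏ j ∈ range (2 * K + 1), ((D : ℝ) ^ (2 * K - j) * (L : ℝ) ^ (j + 2)) :=
          prod_le_prod (fun m _ => hb0 _) (fun m hm => hb2 m (mem_range.1 hm))
      _ = _ := by rw [prod_mul_distrib, prod_pow_eq_pow_sum, prod_pow_eq_pow_sum]
  have s1 : 2 * ∑ m ∈ range E, (m + 1) = E * (E + 1) := by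
    rw [sum_add_distrib, mul_add]
    have := Finset.sum_range_id_mul_two E
    simp only [sum_const, card_range, smul_eq_mul, mul_one]
    obtain ⟨e, he⟩ : ∃ e, E = e + 1 := ⟨E - 1, by omega⟩
    rw [he] at this ⊢
    simp only [Nat.add_sub_cancel] at this
    linarith
  have s2 : ∑ j ∈ range (2 * K + 1), (j + 2) = (K + 2) * (2 * K + 1) := by
    rw [sum_add_distrib]
    have := Finset.sum_range_id_mul_two (2 * K + 1)
    simp only [Nat.add_sub_cancel] at this
    simp only [sum_const, card_range, smul_eq_mul]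
    nlinarith
  have s3 : ∑ j ∈ range (2 * K + 1), (2 * K - j) = K * (2 * K + 1) := by
    have h := Finset.sum_range_reflect (fun j => j) (2 * K + 1)
    have h' : ∑ j ∈ range (2 * K + 1), (2 * K - j) = ∑ j ∈ range (2 * K + 1), j := by
      rw [← h]
      exact sum_congr rfl fun j _ => by omega
    rw [h']
    have := Finset.sum_range_id_mul_two (2 * K + 1)
    simp only [Nat.add_sub_cancel] at this
    nlinarith
  set a1 := ∑ m ∈ range E, (m + 1)
  rw [s2, s3] at h2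
  have hexp : a1 + (K + 2) * (2 * K + 1) + E * E ≤ 240 * K ^ 4 := by
    have e1 : E * (E + 1) = 144 * K ^ 4 + 12 * K ^ 2 := by rw [hE]; ring
    have e2 : E * E = 144 * K ^ 4 := by rw [hE]; ring
    have e3 : (K + 2) * (2 * K + 1) = 2 * K ^ 2 + 5 * K + 2 := by ring
    have e4 : K ≤ K ^ 2 := Nat.le_self_pow (by norm_num) K
    have e5 : K ^ 2 ≤ K ^ 4 := Nat.pow_le_pow_right hK (by norm_num)
    omega
  have hfin : (L : ℝ) ^ (a1 + (K + 2) * (2 * K + 1) + E * E) * (D : ℝ) ^ (K * (2 * K + 1)) ≤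
      (D : ℝ) ^ (6 * K ^ 2) := by
    calc (L : ℝ) ^ (a1 + (K + 2) * (2 * K + 1) + E * E) * (D : ℝ) ^ (K * (2 * K + 1))
        ≤ (L : ℝ) ^ (240 * K ^ 4) * (D : ℝ) ^ (K * (2 * K + 1)) := by
          gcongr
      _ = ((L : ℝ) ^ (80 * K ^ 2)) ^ (3 * K ^ 2) * (D : ℝ) ^ (K * (2 * K + 1)) := by
          rw [← pow_mul]
          congr 2
          ring
      _ ≤ (D : ℝ) ^ (3 * K ^ 2) * (D : ℝ) ^ (K * (2 * K + 1)) := by
          gcongr
          exact_mod_cast hD
      _ = (D : ℝ) ^ (3 * K ^ 2 + K * (2 * K + 1)) := by rw [pow_add]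
      _ ≤ (D : ℝ) ^ (6 * K ^ 2) := by
          refine pow_le_pow_right₀ hD1' ?_
          have e4 : K ≤ K ^ 2 := Nat.le_self_pow (by norm_num) K
          nlinarith
  have hsq : (√(D : ℝ)) ^ E = (D : ℝ) ^ (6 * K ^ 2) := by
    have : E = 2 * (6 * K ^ 2) := by rw [hE]; ring
    rw [this, pow_mul, Real.sq_sqrt hD0.le]
  rw [div_pow, mul_pow, hsq, ← pow_mul, le_div_iff₀ (by positivity)]
  calc (∏ m ∈ range E, b m) * (∏ j ∈ range (2 * K + 1), b (E + j)) * (L : ℝ) ^ (E * E)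
      ≤ ((S : ℝ) ^ E * (L : ℝ) ^ a1) * ((D : ℝ) ^ (K * (2 * K + 1)) *
          (L : ℝ) ^ ((K + 2) * (2 * K + 1))) * (L : ℝ) ^ (E * E) := by
        gcongr
        exact prod_nonneg fun j _ => hb0 _
    _ = (S : ℝ) ^ E * ((L : ℝ) ^ (a1 + (K + 2) * (2 * K + 1) + E * E) *
          (D : ℝ) ^ (K * (2 * K + 1))) := by
        rw [pow_add, pow_add]
        ring
    _ ≤ (S : ℝ) ^ E * (D : ℝ) ^ (6 * K ^ 2) := by gcongr

/-- The final numerical estimate. -/
theorem numer (S δ s t r Pv Qv Tv ρ D : ℝ) (hS : 1 ≤ S) (hδ : 0 < δ) (hδD : δ ^ 2 = D)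
    (hSs : S ≤ s) (hs2 : s ≤ 2 * S) (hPT : |Pv + Qv * Tv| ≤ 1 / (8 * S))
    (hQ : |Qv| ≤ S * δ / 8) (hρT : |ρ - Tv| ≤ 2 * δ * r) (hr : S ^ 2 * D * r ≤ 1 / 4)
    (ht0 : 0 ≤ t - s * ρ) (ht1 : t - s * ρ ≤ 2 / (s * δ)) :
    |Pv * s + Qv * t| < 1 := by
  have hS0 : 0 < S := by linarith
  have hs0 : 0 < s := by linarith
  have e : Pv * s + Qv * t = s * (Pv + Qv * Tv) + s * (Qv * (ρ - Tv)) + Qv * (t - s * ρ) := by ring
  rw [e]
  have h1 : |s * (Pv + Qv * Tv)| ≤ 1 / 4 := by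
    rw [abs_mul, abs_of_pos hs0]
    calc s * |Pv + Qv * Tv| ≤ (2 * S) * (1 / (8 * S)) := by gcongr
      _ = 1 / 4 := by field_simp; norm_num
  have h2 : |s * (Qv * (ρ - Tv))| ≤ 1 / 8 := by
    rw [abs_mul, abs_mul, abs_of_pos hs0]
    calc s * (|Qv| * |ρ - Tv|) ≤ (2 * S) * ((S * δ / 8) * (2 * δ * r)) := by gcongr
      _ = (S ^ 2 * δ ^ 2 * r) / 2 := by ring
      _ ≤ 1 / 8 := by rw [hδD]; linarith
  have h3 : |Qv * (t - s * ρ)| ≤ 1 / 4 := by
    rw [abs_mul, abs_of_nonneg ht0]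
    calc |Qv| * (t - s * ρ) ≤ (S * δ / 8) * (2 / (s * δ)) := by gcongr
      _ ≤ (S * δ / 8) * (2 / (S * δ)) := by gcongr
      _ = 1 / 4 := by field_simp; norm_num
  calc |s * (Pv + Qv * Tv) + s * (Qv * (ρ - Tv)) + Qv * (t - s * ρ)|
      ≤ |s * (Pv + Qv * Tv) + s * (Qv * (ρ - Tv))| + |Qv * (t - s * ρ)| := abs_add_le _ _
    _ ≤ (|s * (Pv + Qv * Tv)| + |s * (Qv * (ρ - Tv))|) + |Qv * (t - s * ρ)| := by
        gcongr; exact abs_add_le _ _
    _ < 1 := by linarith

/-- Two reals with the same floor of their multiples are close. -/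
theorem close (x y N : ℝ) (hN : 0 < N) (h : ⌊x * N⌋ = ⌊y * N⌋) : |x - y| ≤ 1 / N := by
  have h1 := Int.abs_sub_lt_one_of_floor_eq_floor h
  rw [← sub_mul, abs_mul, abs_of_pos hN] at h1
  rw [le_div_iff₀ hN]
  exact h1.le

end PigM

open PigM in
theorem specPIG (hSQ : SpecSQ) : SpecPIG := by
  classical
  intro K L D S hK hL hD hS hSD
  have hK2 : 1 ≤ K ^ 2 := Nat.one_le_pow _ _ hK
  have hKK : K ≤ K ^ 2 := Nat.le_self_pow (by norm_num) K
  have hK4 : K ^ 2 ≤ K ^ 4 := Nat.pow_le_pow_right hK (by norm_num)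
  have hL1 : 1 ≤ L := by omega
  have hL0 : (0 : ℝ) < L := by exact_mod_cast hL1
  have hL1' : (1 : ℝ) ≤ L := by exact_mod_cast hL1
  have hD1 : 1 ≤ D := le_trans (Nat.one_le_pow _ _ hL1) hD
  have hD0 : (0 : ℝ) < D := by exact_mod_cast hD1
  have hD1' : (1 : ℝ) ≤ D := by exact_mod_cast hD1
  have hS0 : (0 : ℝ) < S := by exact_mod_cast hS
  have hS1 : (1 : ℝ) ≤ S := by exact_mod_cast hS
  have hSD' : (S : ℝ) ≤ (D : ℝ) ^ K := by exact_mod_cast hSD
  set E := 12 * K ^ 2 with hE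
  have hE1 : 1 ≤ E := by omega
  have hE0 : (0 : ℝ) < E := by exact_mod_cast hE1
  obtain ⟨a, ha, haT⟩ := hSQ D (2 * K + 2) hD1
  set M := 2 * K + 2 with hM
  set G := E + (2 * K + 1) with hG
  have hG1 : 1 ≤ G := by omega
  have hG0 : (0 : ℝ) < G := by exact_mod_cast hG1
  have hGL : 8 * G ≤ L := by omega
  have hGL2 : 2 * G + 3 ≤ L := by omega
  have hEL : 8 * E ≤ L := by omega
  set δ := √(D : ℝ) with hδ
  have hδ0 : 0 < δ := Real.sqrt_pos.2 hD0
  have hδD : δ ^ 2 = D := Real.sq_sqrt hD0.le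
  have hδ1 : 1 ≤ δ := Real.one_le_sqrt.2 hD1'
  have hδle : δ ≤ D := by nlinarith
  set Br : ℝ := S * δ / (8 * E * (L : ℝ) ^ (E - 1)) with hBr
  have hBr0 : 0 ≤ Br := by positivity
  set B : ℕ := ⌊Br⌋₊ with hB
  have hBle : (B : ℝ) ≤ Br := Nat.floor_le hBr0
  set Nm : ℕ → ℕ := fun m => 8 * S * G * L ^ m with hNm
  have hNm0 : ∀ m, 0 < Nm m := fun m => by positivity
  have hNmr : ∀ m, ((Nm m : ℕ) : ℝ) = 8 * S * G * (L : ℝ) ^ m := fun m => by
    simp only [hNm]; push_cast; ring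
  set Rb : ℕ → ℝ := fun j => S ^ 2 * G * (L : ℝ) ^ (j + 1) / (D : ℝ) ^ j with hRb
  have hRb0 : ∀ j, 0 ≤ Rb j := fun j => by positivity
  set fr : (Fin E → Fin (B + 1)) → ℕ → ℝ :=
    fun q i => if h : i < E then ((q ⟨i, h⟩ : ℕ) : ℝ) else 0 with hfr
  have hfr0 : ∀ q i, E ≤ i → fr q i = 0 := fun q i hi => by
    simp only [hfr]
    rw [dif_neg (by omega)]
  have hfrn : ∀ q i, 0 ≤ fr q i := fun q i => by
    simp only [hfr]
    split_ifs
    · exact Nat.cast_nonneg _
    · exact le_rfl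
  have hfrB : ∀ q i, fr q i ≤ B := fun q i => by
    simp only [hfr]
    split_ifs with h
    · exact_mod_cast Nat.lt_succ_iff.1 (q ⟨i, h⟩).2
    · exact Nat.cast_nonneg _
  have hfrB' : ∀ q i, |fr q i| ≤ Br := fun q i => by
    rw [abs_of_nonneg (hfrn q i)]
    exact (hfrB q i).trans hBle
  -- tail bound
  have htail : ∀ (f : ℕ → ℝ), (∀ i, |f i| ≤ Br) → (∀ i, E ≤ i → f i = 0) → ∀ j,
      |cc a M f (E + j) * (Nm (E + j) : ℕ)| ≤ Rb j := by
    intro f hf hf0 j
    have h1 := coef_bound E (E + j) f (fun k => if k < M then a k else 0) Br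
      (δ / (D : ℝ) ^ (j + 1)) hBr0 (by positivity) hf hf0 (fun k hk hk' => by
        split_ifs
        · refine (ha _).trans ?_
          have : j + 1 ≤ E + j - k := by omega
          gcongr
        · rw [abs_zero]; positivity)
    rw [abs_mul, abs_of_pos (by exact_mod_cast hNm0 (E + j) : (0 : ℝ) < ((Nm (E + j) : ℕ) : ℝ))]
    calc |cc a M f (E + j)| * (Nm (E + j) : ℕ)
        ≤ (E * Br * (δ / (D : ℝ) ^ (j + 1))) * (Nm (E + j) : ℕ) := by
          gcongr
          exact h1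
      _ = Rb j := by
          rw [hNmr, hBr]
          simp only [hRb]
          have e1 : (L : ℝ) ^ (E + j) = (L : ℝ) ^ (E - 1) * (L : ℝ) ^ (j + 1) := by
            rw [← pow_add]; congr 1; omega
          rw [e1, pow_succ (D : ℝ) j, ← hδD]
          field_simp
  set boxN : ℕ → Finset ℤ := fun m => if m < E then Finset.Ico 0 (Nm m : ℤ) else
    Finset.Icc (-⌈Rb (m - E)⌉) ⌈Rb (m - E)⌉ with hbox
  set z : (Fin E → Fin (B + 1)) → (Fin G → ℤ) := fun q m => if (m : ℕ) < E then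
    ⌊Int.fract (cc a M (fr q) m) * (Nm m : ℕ)⌋ else ⌊cc a M (fr q) m * (Nm m : ℕ)⌋ with hz
  have hmaps : ∀ q ∈ (Finset.univ : Finset (Fin E → Fin (B + 1))),
      z q ∈ Fintype.piFinset (fun m : Fin G => boxN m) := by
    intro q _
    rw [Fintype.mem_piFinset]
    intro m
    simp only [hz, hbox]
    have hNp : (0 : ℝ) < ((Nm m : ℕ) : ℝ) := by exact_mod_cast hNm0 m
    by_cases hm : (m : ℕ) < E
    · rw [if_pos hm, if_pos hm, Finset.mem_Ico]
      refine ⟨Int.floor_nonneg.2 (mul_nonneg (Int.fract_nonneg _) hNp.le), ?_⟩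
      rw [Int.floor_lt]
      have := Int.fract_lt_one (cc a M (fr q) m)
      calc Int.fract (cc a M (fr q) m) * ((Nm m : ℕ) : ℝ) < 1 * ((Nm m : ℕ) : ℝ) := by gcongr
        _ = _ := by push_cast; ring
    · rw [if_neg hm, if_neg hm, Finset.mem_Icc]
      have h1 := htail (fr q) (hfrB' q) (hfr0 q) (m - E)
      rw [show E + ((m : ℕ) - E) = m by omega] at h1
      obtain ⟨h2, h3⟩ := abs_le.1 h1
      constructor
      · rw [← Int.floor_neg]
        exact Int.floor_le_floor h2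
      · exact (Int.floor_le_floor h3).trans (Int.floor_le_ceil _)
  have hcard : (Fintype.piFinset (fun m : Fin G => boxN m)).card <
      (Finset.univ : Finset (Fin E → Fin (B + 1))).card := by
    rw [Fintype.card_piFinset, Finset.card_univ, Fintype.card_fun, Fintype.card_fin,
      Fintype.card_fin]
    rw [Fin.prod_univ_eq_prod_range (fun m => (boxN m).card) G]
    have hb := boxes K L D S hK hL hD (fun m => ((boxN m).card : ℝ)) (fun m => Nat.cast_nonneg _)
      (fun m hm => by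
        have h1 : boxN m = Finset.Ico 0 (Nm m : ℤ) := by simp only [hbox]; rw [if_pos hm]
        simp only [h1]
        rw [Int.card_Ico, sub_zero, Int.toNat_natCast, hNmr]
        have : (8 * G : ℝ) ≤ L := by exact_mod_cast hGL
        calc 8 * (S : ℝ) * G * (L : ℝ) ^ m = S * ((8 * G) * (L : ℝ) ^ m) := by ring
          _ ≤ S * (L * (L : ℝ) ^ m) := by gcongr
          _ = S * (L : ℝ) ^ (m + 1) := by rw [pow_succ]; ring)
      (fun j hj => by
        have h1 : boxN (E + j) = Finset.Icc (-⌈Rb j⌉) ⌈Rb j⌉ := by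
          simp only [hbox]
          rw [if_neg (by omega), show E + j - E = j by omega]
        have h1' : boxN (12 * K ^ 2 + j) = Finset.Icc (-⌈Rb j⌉) ⌈Rb j⌉ := h1
        simp only [h1']
        rw [Int.card_Icc]
        have hc0 : 0 ≤ ⌈Rb j⌉ := Int.ceil_nonneg (hRb0 j)
        have h2 : (((⌈Rb j⌉ + 1 - -⌈Rb j⌉).toNat : ℕ) : ℝ) = 2 * (⌈Rb j⌉ : ℝ) + 1 := by
          have : (((⌈Rb j⌉ + 1 - -⌈Rb j⌉).toNat : ℕ) : ℤ) = 2 * ⌈Rb j⌉ + 1 := by
            rw [Int.toNat_of_nonneg (by omega)]; ring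
          exact_mod_cast congrArg (fun x : ℤ => (x : ℝ)) this
        rw [h2]
        have h3 : (⌈Rb j⌉ : ℝ) < Rb j + 1 := Int.ceil_lt_add_one _
        have h4 : Rb j ≤ (D : ℝ) ^ (2 * K - j) * (G * (L : ℝ) ^ (j + 1)) := by
          simp only [hRb]
          rw [div_le_iff₀ (by positivity)]
          have hS2 : (S : ℝ) ^ 2 ≤ (D : ℝ) ^ (2 * K) := by
            calc (S : ℝ) ^ 2 ≤ ((D : ℝ) ^ K) ^ 2 := by gcongr
              _ = (D : ℝ) ^ (2 * K) := by rw [← pow_mul]; congr 1; ring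
          have e2 : (D : ℝ) ^ (2 * K) = (D : ℝ) ^ (2 * K - j) * (D : ℝ) ^ j := by
            rw [← pow_add]; congr 1; omega
          rw [e2] at hS2
          calc (S : ℝ) ^ 2 * G * (L : ℝ) ^ (j + 1) = (S : ℝ) ^ 2 * (G * (L : ℝ) ^ (j + 1)) := by ring
            _ ≤ ((D : ℝ) ^ (2 * K - j) * (D : ℝ) ^ j) * (G * (L : ℝ) ^ (j + 1)) := by gcongr
            _ = _ := by ring
        have h5 : (1 : ℝ) ≤ (D : ℝ) ^ (2 * K - j) * (L : ℝ) ^ (j + 1) :=
          one_le_mul_of_one_le_of_one_le (one_le_pow₀ hD1') (one_le_pow₀ hL1')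
        have h6 : (2 * G + 3 : ℝ) ≤ L := by exact_mod_cast hGL2
        calc 2 * (⌈Rb j⌉ : ℝ) + 1
            ≤ 2 * ((D : ℝ) ^ (2 * K - j) * (G * (L : ℝ) ^ (j + 1))) + 3 := by linarith
          _ ≤ (2 * G + 3) * ((D : ℝ) ^ (2 * K - j) * (L : ℝ) ^ (j + 1)) := by nlinarith
          _ ≤ L * ((D : ℝ) ^ (2 * K - j) * (L : ℝ) ^ (j + 1)) := by gcongr
          _ = (D : ℝ) ^ (2 * K - j) * (L : ℝ) ^ (j + 2) := by ring)
    have hlt : ((S : ℝ) * √(D : ℝ) / (L : ℝ) ^ (12 * K ^ 2)) ^ (12 * K ^ 2) <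
        (((B + 1) ^ E : ℕ) : ℝ) := by
      push_cast
      refine pow_lt_pow_left₀ ?_ (by positivity) (by omega)
      have h1 : Br < B + 1 := Nat.lt_floor_add_one Br
      refine lt_of_le_of_lt ?_ h1
      rw [hBr]
      have e1 : (L : ℝ) ^ E = L * (L : ℝ) ^ (E - 1) := by
        rw [← pow_succ']; congr 1; omega
      have h2 : (8 * E * (L : ℝ) ^ (E - 1)) ≤ (L : ℝ) ^ E := by
        rw [e1]
        have : (8 * E : ℝ) ≤ L := by exact_mod_cast hEL
        gcongr
      exact div_le_div_of_nonneg_left (by positivity) (by positivity) h2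
    have hb' := lt_of_le_of_lt hb hlt
    have : ((∏ m ∈ range G, (boxN m).card : ℕ) : ℝ) < (((B + 1) ^ E : ℕ) : ℝ) := by
      push_cast at hb' ⊢
      exact hb'
    exact_mod_cast this
  obtain ⟨q, -, q', -, hqq, hzz⟩ := Finset.exists_ne_map_eq_of_card_lt_of_maps_to hcard hmaps
  -- the polynomials
  set di : ℕ → ℤ := fun i => if h : i < E then ((q ⟨i, h⟩ : ℕ) : ℤ) - ((q' ⟨i, h⟩ : ℕ) : ℤ) else 0
    with hdi
  set pm : ℕ → ℤ := fun m => -(⌊cc a M (fr q) m⌋ - ⌊cc a M (fr q') m⌋) with hpm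
  set fd : ℕ → ℝ := fun i => fr q i - fr q' i with hfd
  have hdifd : ∀ i, ((di i : ℤ) : ℝ) = fd i := fun i => by
    simp only [hdi, hfd, hfr]
    split_ifs with h
    · push_cast; ring
    · simp
  have hfd0 : ∀ i, E ≤ i → fd i = 0 := fun i hi => by
    simp only [hfd]; rw [hfr0 q i hi, hfr0 q' i hi, sub_zero]
  have hfdB : ∀ i, |fd i| ≤ B := fun i => by
    simp only [hfd]
    rw [abs_le]
    have h1 := hfrn q i; have h2 := hfrn q' i; have h3 := hfrB q i; have h4 := hfrB q' i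
    constructor <;> linarith
  have hfdBr : ∀ i, |fd i| ≤ Br := fun i => (hfdB i).trans hBle
  have hcfd : ∀ m, cc a M fd m = cc a M (fr q) m - cc a M (fr q') m := fun m => by
    simp only [hfd]; exact cc_sub a M (fr q) (fr q') m
  have hEBr : (E : ℝ) * Br * (L : ℝ) ^ (E - 1) = S * δ / 8 := by
    rw [hBr]; field_simp
  have hEBr' : (E : ℝ) * Br ≤ S * δ / 8 := by
    rw [← hEBr]
    exact le_mul_of_one_le_right (by positivity) (one_le_pow₀ hL1')
  have hBrle : Br ≤ S * δ / 8 := by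
    refine le_trans ?_ hEBr'
    exact le_mul_of_one_le_left hBr0 (by exact_mod_cast hE1)
  have hSδ : S * δ ≤ (D : ℝ) ^ (K + 1) := by
    rw [pow_succ]; gcongr
  have hDpow : (D : ℝ) ^ (K + 1) ≤ (D : ℝ) ^ (K + 2) := pow_le_pow_right₀ hD1' (by omega)
  -- coefficients of P
  have hpmB : ∀ m, |((pm m : ℤ) : ℝ)| ≤ (D : ℝ) ^ (K + 2) := fun m => by
    have h1 := coef_bound E m fd (fun k => if k < M then a k else 0) Br δ hBr0 hδ0.le hfdBr hfd0
      (fun k hk hk' => by
        split_ifs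
        · refine (ha _).trans (div_le_self hδ0.le (one_le_pow₀ hD1'))
        · rw [abs_zero]; exact hδ0.le)
    have h1' : |cc a M fd m| ≤ E * Br * δ := h1
    have h2 : (pm m : ℝ) = Int.fract (cc a M (fr q) m) - Int.fract (cc a M (fr q') m) -
        cc a M fd m := by
      rw [hcfd]
      simp only [hpm]
      push_cast
      have e1 := Int.floor_add_fract (cc a M (fr q) m)
      have e2 := Int.floor_add_fract (cc a M (fr q') m)
      linarith
    have h3 : |Int.fract (cc a M (fr q) m) - Int.fract (cc a M (fr q') m)| ≤ 1 := by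
      have := Int.fract_nonneg (cc a M (fr q) m)
      have := Int.fract_nonneg (cc a M (fr q') m)
      have := Int.fract_lt_one (cc a M (fr q) m)
      have := Int.fract_lt_one (cc a M (fr q') m)
      rw [abs_le]; constructor <;> linarith
    have h4 : (E : ℝ) * Br * δ ≤ (D : ℝ) ^ (K + 2) / 8 := by
      calc (E : ℝ) * Br * δ ≤ (S * δ / 8) * δ := by gcongr
        _ = S * δ * δ / 8 := by ring
        _ ≤ (D : ℝ) ^ (K + 1) * D / 8 := by gcongr
        _ = (D : ℝ) ^ (K + 2) / 8 := by rw [pow_succ (D : ℝ) (K + 1)]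
    have h5 : (2 : ℝ) ≤ (D : ℝ) ^ (K + 2) := by
      have hD2 : 2 ≤ D := by
        have : L ≤ D := le_trans (Nat.le_self_pow (by positivity) L) hD
        omega
      have : (2 : ℝ) ≤ D := by exact_mod_cast hD2
      exact this.trans (le_self_pow₀ hD1' (by omega))
    rw [h2]
    calc |Int.fract (cc a M (fr q) m) - Int.fract (cc a M (fr q') m) - cc a M fd m|
        ≤ |Int.fract (cc a M (fr q) m) - Int.fract (cc a M (fr q') m)| + |cc a M fd m| :=
          abs_sub _ _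
      _ ≤ 1 + (D : ℝ) ^ (K + 2) / 8 := by linarith
      _ ≤ (D : ℝ) ^ (K + 2) := by linarith
  have hDz : ∀ (y : ℤ), |(y : ℝ)| ≤ (D : ℝ) ^ (K + 2) → |y| ≤ (D : ℤ) ^ (K + 2) := fun y hy => by
    exact_mod_cast hy
  refine ⟨pol E pm, pol E di, Or.inr ?_, pol_natDegree E pm hE1, pol_natDegree E di hE1, ?_, ?_, ?_⟩
  · intro h0
    apply hqq
    funext i
    have h1 : (pol E di).coeff (i : ℕ) = 0 := by rw [h0, coeff_zero]
    rw [pol_coeff, if_pos i.2] at h1
    simp only [hdi] at h1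
    rw [dif_pos i.2] at h1
    have h2 : ((q i : ℕ) : ℤ) = ((q' i : ℕ) : ℤ) := by linarith
    exact Fin.ext (by exact_mod_cast h2)
  · intro i
    rw [pol_coeff]
    split_ifs
    · exact hDz _ (hpmB i)
    · simp
  · intro i
    rw [pol_coeff]
    split_ifs
    · refine hDz _ ?_
      rw [hdifd]
      have h1 := hfdBr i
      have h2 : 0 ≤ (S : ℝ) * δ := by positivity
      linarith
    · simp
  · intro w s t hw hSs hs2 ht
    have hwL : (w : ℝ) ≤ L := by exact_mod_cast hw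
    have hw0 : (0 : ℝ) ≤ w := Nat.cast_nonneg w
    set Tv := (pol M a).eval (w : ℝ) with hTv
    have hQv : (((pol E di).eval (w : ℤ) : ℤ) : ℝ) = (pol E fd).eval (w : ℝ) := by
      rw [pol_eval, pol_eval]
      push_cast
      exact sum_congr rfl fun i _ => by rw [hdifd]
    have hPv : (((pol E pm).eval (w : ℤ) : ℤ) : ℝ) = ∑ m ∈ range E, (pm m : ℝ) * (w : ℝ) ^ m := by
      rw [pol_eval]
      push_cast
      rfl
    have hprod : (pol E fd).eval (w : ℝ) * Tv = ∑ m ∈ range G, cc a M fd m * (w : ℝ) ^ m := by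
      rw [hTv, ← eval_mul, eval_eq_sum_range' (n := G)]
      · exact sum_congr rfl fun m _ => by rw [cc_eq a E M fd hfd0 m]
      · refine lt_of_le_of_lt natDegree_mul_le ?_
        have h1 := pol_natDegree E fd hE1
        have h2 := pol_natDegree M a (by omega)
        omega
    have hPQ : (((pol E pm).eval (w : ℤ) : ℤ) : ℝ) + (((pol E di).eval (w : ℤ) : ℤ) : ℝ) * Tv =
        ∑ m ∈ range G, (cc a M fd m + if m < E then (pm m : ℝ) else 0) * (w : ℝ) ^ m := by
      rw [hQv, hprod, hPv]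
      simp only [add_mul, sum_add_distrib]
      rw [add_comm]
      congr 1
      rw [hG, sum_range_add]
      have : ∑ x ∈ range (2 * K + 1), (if E + x < E then (pm (E + x) : ℝ) else 0) * (w : ℝ) ^ (E + x)
          = 0 := sum_eq_zero fun x _ => by rw [if_neg (by omega), zero_mul]
      rw [this, add_zero]
      exact sum_congr rfl fun m hm => by rw [if_pos (mem_range.1 hm)]
    have hPT : |(((pol E pm).eval (w : ℤ) : ℤ) : ℝ) + (((pol E di).eval (w : ℤ) : ℤ) : ℝ) * Tv| ≤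
        1 / (8 * S) := by
      rw [hPQ]
      calc |∑ m ∈ range G, (cc a M fd m + if m < E then (pm m : ℝ) else 0) * (w : ℝ) ^ m|
          ≤ ∑ m ∈ range G, |(cc a M fd m + if m < E then (pm m : ℝ) else 0) * (w : ℝ) ^ m| :=
            abs_sum_le_sum_abs _ _
        _ ≤ ∑ m ∈ range G, 1 / (8 * (S : ℝ) * G) := by
            refine sum_le_sum fun m hm => ?_
            have hmG := mem_range.1 hm
            have hNp : (0 : ℝ) < ((Nm m : ℕ) : ℝ) := by exact_mod_cast hNm0 m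
            have hzm : z q ⟨m, hmG⟩ = z q' ⟨m, hmG⟩ := by rw [hzz]
            simp only [hz] at hzm
            have h1 : |cc a M fd m + if m < E then (pm m : ℝ) else 0| ≤ 1 / ((Nm m : ℕ) : ℝ) := by
              by_cases hmE : m < E
              · rw [if_pos hmE, if_pos hmE] at hzm
                rw [if_pos hmE]
                have h2 := close _ _ _ hNp hzm
                have h3 : cc a M fd m + (pm m : ℝ) =
                    Int.fract (cc a M (fr q) m) - Int.fract (cc a M (fr q') m) := by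
                  rw [hcfd]
                  simp only [hpm]
                  push_cast
                  have e1 := Int.floor_add_fract (cc a M (fr q) m)
                  have e2 := Int.floor_add_fract (cc a M (fr q') m)
                  linarith
                rw [h3]
                exact h2
              · rw [if_neg hmE, if_neg hmE] at hzm
                rw [if_neg hmE, add_zero, hcfd]
                exact close _ _ _ hNp hzm
            rw [abs_mul, abs_of_nonneg (pow_nonneg hw0 m)]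
            calc |cc a M fd m + if m < E then (pm m : ℝ) else 0| * (w : ℝ) ^ m
                ≤ (1 / ((Nm m : ℕ) : ℝ)) * (L : ℝ) ^ m := by gcongr
              _ = 1 / (8 * (S : ℝ) * G) := by rw [hNmr]; field_simp
        _ = 1 / (8 * S) := by
            rw [sum_const, card_range, nsmul_eq_mul]
            field_simp
    have hQb : |(((pol E di).eval (w : ℤ) : ℤ) : ℝ)| ≤ S * δ / 8 := by
      rw [hQv, pol_eval]
      calc |∑ i ∈ range E, fd i * (w : ℝ) ^ i| ≤ ∑ i ∈ range E, |fd i * (w : ℝ) ^ i| :=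
            abs_sum_le_sum_abs _ _
        _ ≤ ∑ i ∈ range E, Br * (L : ℝ) ^ (E - 1) := by
            refine sum_le_sum fun i hi => ?_
            have hi' := mem_range.1 hi
            rw [abs_mul, abs_of_nonneg (pow_nonneg hw0 i)]
            have h1 : (w : ℝ) ^ i ≤ (L : ℝ) ^ (E - 1) :=
              (pow_le_pow_left₀ hw0 hwL i).trans (pow_le_pow_right₀ hL1' (by omega))
            exact mul_le_mul (hfdBr i) h1 (pow_nonneg hw0 i) hBr0
        _ = E * Br * (L : ℝ) ^ (E - 1) := by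
            rw [sum_const, card_range, nsmul_eq_mul]; ring
        _ = S * δ / 8 := hEBr
    have hLD : L ^ (2 * K + 3) ≤ D := by
      refine le_trans (Nat.pow_le_pow_right hL1 ?_) hD
      omega
    have hLD' : (L : ℝ) ^ (2 * K + 3) ≤ D := by exact_mod_cast hLD
    have h2w : 2 * (w : ℝ) ≤ D := by
      have h4L : 2 * L ≤ L ^ (2 * K + 3) := by
        calc 2 * L ≤ L * L := by gcongr; omega
          _ = L ^ 2 := by ring
          _ ≤ L ^ (2 * K + 3) := Nat.pow_le_pow_right hL1 (by omega)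
      have : 2 * w ≤ D := by omega
      exact_mod_cast this
    have hρT := haT (w : ℝ) hw0 h2w
    have hTv2 : ∑ m ∈ range M, a m * (w : ℝ) ^ m = Tv := by rw [hTv, pol_eval]
    rw [hTv2] at hρT
    set ρ := √((D : ℝ) + w) with hρ
    have hρ2 : ρ ^ 2 = D + w := Real.sq_sqrt (by positivity)
    have hρδ : δ ≤ ρ := Real.sqrt_le_sqrt (by linarith)
    have hρ0 : 0 < ρ := lt_of_lt_of_le hδ0 hρδ
    have hs0 : (0 : ℝ) < s := by exact_mod_cast (show 0 < s by omega)
    have ht' : (t : ℝ) ^ 2 = (D + w) * (s : ℝ) ^ 2 + 4 := by exact_mod_cast ht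
    have htρ : ((t : ℝ) - s * ρ) * (t + s * ρ) = 4 := by
      have : ((t : ℝ) - s * ρ) * (t + s * ρ) = (t : ℝ) ^ 2 - (s : ℝ) ^ 2 * ρ ^ 2 := by ring
      rw [this, hρ2, ht']
      ring
    have htpos : (0 : ℝ) < t + s * ρ := by positivity
    have ht0 : 0 ≤ (t : ℝ) - s * ρ := by
      by_contra hneg
      push Not at hneg
      have := mul_neg_of_neg_of_pos hneg htpos
      linarith
    have ht1 : (t : ℝ) - s * ρ ≤ 2 / (s * δ) := by
      rw [le_div_iff₀ (by positivity)]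
      have h1 : 2 * (s * δ) ≤ t + s * ρ := by nlinarith
      nlinarith
    have hr : (S : ℝ) ^ 2 * D * ((w : ℝ) / D) ^ M ≤ 1 / 4 := by
      have h1 : (S : ℝ) ^ 2 ≤ (D : ℝ) ^ (2 * K) := by
        calc (S : ℝ) ^ 2 ≤ ((D : ℝ) ^ K) ^ 2 := by gcongr
          _ = (D : ℝ) ^ (2 * K) := by rw [← pow_mul]; congr 1; ring
      have h2 : (4 : ℝ) * (L : ℝ) ^ M ≤ D := by
        have h4 : (4 : ℝ) ≤ L := by exact_mod_cast (show 4 ≤ L by omega)
        calc (4 : ℝ) * (L : ℝ) ^ M ≤ L * (L : ℝ) ^ M := by gcongr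
          _ = (L : ℝ) ^ (2 * K + 3) := by rw [← pow_succ']
          _ ≤ D := hLD'
      calc (S : ℝ) ^ 2 * D * ((w : ℝ) / D) ^ M ≤ (D : ℝ) ^ (2 * K) * D * ((L : ℝ) / D) ^ M := by
            gcongr
        _ = (L : ℝ) ^ M / D := by
            rw [div_pow, hM]
            field_simp
            rw [← pow_add]
        _ ≤ 1 / 4 := by
            rw [div_le_div_iff₀ hD0 (by norm_num)]
            linarith
    have hfin := numer S δ s t (((w : ℝ) / D) ^ M)
      (((pol E pm).eval (w : ℤ) : ℤ) : ℝ) (((pol E di).eval (w : ℤ) : ℤ) : ℝ) Tv ρ D hS1 hδ0 hδD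
      (by exact_mod_cast hSs) (by exact_mod_cast hs2) hPT hQb hρT hr ht0 ht1
    have hz1 : |((pol E pm).eval (w : ℤ) * s + (pol E di).eval (w : ℤ) * t : ℤ)| < 1 := by
      have : |(((pol E pm).eval (w : ℤ) * s + (pol E di).eval (w : ℤ) * t : ℤ) : ℝ)| < 1 := by
        push_cast
        exact_mod_cast hfin
      exact_mod_cast this
    exact Int.abs_lt_one_iff.1 hz1

end Pool.Agent.Lib.MP401270
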