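import Pool.Agent.Lib.MP_401270_nt.Defs

set_option autoImplicit false

namespace Pool.Agent.Lib.MP401270

open Polynomial Finset

/-- SQ. Taylor polynomial of `sqrt (D + w)` with coefficients `|a m| <= sqrt D / D^m`.
`a m = sqrt D * binom(1/2, m) * D^(-m)`. -/
def SpecSQ : Prop := ∀ D M : ℕ, 1 ≤ D → ∃ a : ℕ → ℝ, (∀ m, |a m| ≤ √D / (D : ℝ) ^ m) ∧
  ∀ w : ℝ, 0 ≤ w → 2 * w ≤ D →
    |√((D : ℝ) + w) - ∑ m ∈ Finset.range M, a m * w ^ m| ≤ 2 * √D * (w / D) ^ M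

/-- PIG. Box principle: one relation for all points of a short interval. -/
def SpecPIG : Prop := ∀ K L D0 S0 : ℕ, 1 ≤ K → 14400 * K ^ 4 ≤ L → L ^ (80 * K ^ 2) ≤ D0 →
  1 ≤ S0 → S0 ≤ D0 ^ K →
  ∃ P Q : ℤ[X], (P ≠ 0 ∨ Q ≠ 0) ∧ P.natDegree < 12 * K ^ 2 ∧ Q.natDegree < 12 * K ^ 2 ∧
    (∀ i, |P.coeff i| ≤ (D0 : ℤ) ^ (K + 2)) ∧ (∀ i, |Q.coeff i| ≤ (D0 : ℤ) ^ (K + 2)) ∧
    ∀ w s t : ℕ, w ≤ L → S0 ≤ s → s ≤ 2 * S0 → t ^ 2 = (D0 + w) * s ^ 2 + 4 →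
      P.eval (w : ℤ) * s + Q.eval (w : ℤ) * t = 0

/-- RED. Division by the greatest common divisor; the resultant. -/
def SpecRED : Prop := ∀ (E H : ℕ) (P Q : ℤ[X]), 1 ≤ E → 1 ≤ H → (P ≠ 0 ∨ Q ≠ 0) →
  P.natDegree < E → Q.natDegree < E → (∀ i, |P.coeff i| ≤ (H : ℤ)) →
  (∀ i, |Q.coeff i| ≤ (H : ℤ)) →
  ∃ (G P1 Q1 : ℤ[X]) (R : ℤ), P = G * P1 ∧ Q = G * Q1 ∧ G ≠ 0 ∧ G.natDegree < E ∧
    P1.natDegree < E ∧ Q1.natDegree < E ∧ R ≠ 0 ∧ |R| ≤ (2 ^ (E + 1) * E ^ 2 * H : ℤ) ^ (2 * E) ∧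
    (∀ w k : ℤ, k ∣ P1.eval w → k ∣ Q1.eval w → k ∣ R) ∧
    (∀ p : ℕ, p.Prime → ¬ (C (p : ℤ) ∣ P1 ∧ C (p : ℤ) ∣ Q1))

/-- INT. Interpolation: a polynomial of degree `<= n` which is not divisible by `p` cannot be
very divisible by `p` at all of `n + 1` distinct integers. -/
def SpecINT : Prop := ∀ (p n : ℕ) (P : ℤ[X]) (U : Finset ℤ) (k : ℤ → ℕ), p.Prime →
  P.natDegree ≤ n → ¬ C (p : ℤ) ∣ P → U.card = n + 1 →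
  (∀ u ∈ U, (p : ℤ) ^ (k u) ∣ P.eval u) →
  ∃ u ∈ U, k u ≤ ∑ v ∈ U.erase u, padicValInt p (u - v)

/-- FEK. Fekete points: the configuration of `n` points maximising
`sum k(u) - sum_{pairs} v_p(u - v)` works. -/
def SpecFEK : Prop := ∀ (p n : ℕ) (W : Finset ℤ) (k : ℤ → ℕ),
  (∀ U ⊆ W, U.card = n + 1 → ∃ u ∈ U, k u ≤ ∑ v ∈ U.erase u, padicValInt p (u - v)) →
  ∃ r : Fin n → ℤ, ∀ w ∈ W, (∀ i, w ≠ r i) → k w ≤ ∑ i, padicValInt p (w - r i)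

/-- CART. Few integers where an integral polynomial of degree `d` is `<= 4 B^d`. -/
def SpecCART : Prop := ∀ (F : ℤ[X]) (B : ℕ) (V : Finset ℤ), 1 ≤ F.natDegree → 1 ≤ B →
  (∀ v ∈ V, |F.eval v| ≤ 4 * (B : ℤ) ^ F.natDegree) → V.card ≤ F.natDegree * (8 * B + 1)

/-- SMO. Rankin's trick for integers composed of primes of a given finite set. -/
def SpecSMO : Prop := ∀ (T : Finset ℕ) (Y : ℕ) (σ : ℝ), 2 ≤ Y → 0 < σ → σ ≤ 1 / 2 →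
  (∀ p ∈ T, p.Prime) →
  ∑ b ∈ (Finset.Ico Y (Y ^ 2)).filter (fun b => b.primeFactors ⊆ T), (1 / (b : ℝ)) ≤
    (Y : ℝ) ^ (-σ) * Real.exp (8 * ((T.card : ℝ) + 1) ^ σ / σ)

/-- VAL. Few points on the curve `P1(w) s + Q1(w) t = 0`. -/
def SpecVAL : Prop := ∀ (E D0 Y : ℕ) (σ : ℝ) (P1 Q1 : ℤ[X]) (R : ℤ), 1 ≤ E → 1 ≤ D0 → 2 ≤ Y →
  0 < σ → σ ≤ 1 / 2 → P1.natDegree < E → Q1.natDegree < E → R ≠ 0 →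
  (∀ w k : ℤ, k ∣ P1.eval w → k ∣ Q1.eval w → k ∣ R) →
  (∀ p : ℕ, p.Prime → ¬ (C (p : ℤ) ∣ P1 ∧ C (p : ℤ) ∣ Q1)) →
  ((Vset P1 Q1 D0 (Y ^ 8)).card : ℝ) ≤ 18 * E * Y ^ 4 + 3 * E * R.natAbs.primeFactors.card * Y ^ 7
    + 2 * E * (Y : ℝ) ^ (8 - σ) * Real.exp (8 * ((R.natAbs.primeFactors.card : ℝ) + 1) ^ σ / σ)

/-- CNT. Few points in a short interval. -/
def SpecCNT : Prop := ∀ (K Y D0 S0 : ℕ) (σ : ℝ), 1 ≤ K → 14400 * K ^ 4 ≤ Y →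
  (Y ^ 8) ^ (80 * K ^ 2) ≤ D0 → 1 ≤ S0 → S0 ≤ D0 ^ K → 0 < σ → σ ≤ 1 / 2 →
  ((Wset D0 (Y ^ 8) S0).card : ℝ) ≤ 300 * K ^ 2 * (140 * K ^ 3 * Real.log D0 + 1) *
    (Y : ℝ) ^ (8 - σ) * Real.exp (8 * (140 * K ^ 3 * Real.log D0 + 1) ^ σ / σ)

/-- BAD. THEOREM 1: almost all `D` have `log eps_D >= (log D)^(3/2 - ε)`. -/
def SpecBAD : Prop := ∀ ε : ℝ, 0 < ε → ε < 1 / 2 → ∃ N₀ : ℕ, ∀ N : ℕ, N₀ ≤ N →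
  ((Small N (Real.exp ((Real.log N) ^ (3 / 2 - ε)))).card : ℝ) ≤
    N * Real.exp (-(Real.log N) ^ ε)

/-- TRIV. Every class contains a form of `ND D`. -/
def SpecTRIV : Prop := ∀ D : ℕ, ¬ IsSquare D → h D ≤ (ND D).card

/-- CLS. A class with a large fundamental solution contains many forms of `ND D`. -/
def SpecCLS : Prop := ∀ D J : ℕ, ¬ IsSquare D →
  (∀ t s : ℕ, 1 ≤ s → t ^ 2 = D * s ^ 2 + 4 → (2 : ℝ) ^ (J + 1) * √D ≤ ((t : ℝ) + s * √D) / 2) →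
  h D * (J + 1) ≤ ∑ x ∈ ND D, wt D x.1

/-- LAM. First moment with weights. -/
def SpecLAM : Prop := ∀ X : ℕ, ((∑ D ∈ Finset.range X, ∑ x ∈ ND D, wt D x.1 : ℕ) : ℝ) ≤
  40 * X * √X

/-- SEC. Second moment (lossy). -/
def SpecSEC : Prop := ∃ C : ℝ, ∀ X : ℕ, 2 ≤ X →
  ∑ D ∈ (Finset.range X).filter (fun D => ¬ IsSquare D), ((ND D).card : ℝ) ^ 2 ≤
    C * (X : ℝ) ^ 2 * (1 + Real.log X) ^ 3

/-- THEOREM 2. -/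
def SpecSUM : Prop := ∀ ε : ℝ, 0 < ε → ∃ C : ℝ, ∀ N : ℕ, 2 ≤ N →
  (S N : ℝ) ≤ C * ((N : ℝ) ^ (3 / 2 : ℝ) / (Real.log N) ^ (3 / 2 - ε))

end Pool.Agent.Lib.MP401270
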